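import Pool.Agent.Rl45.Match

/-!
# Families of sections and the exchange step
-/

open Finset

set_option autoImplicit false
set_option linter.unusedSectionVars false

namespace Pool.Agent.Rl45

variable {R V S : Type*} [Fintype R] [DecidableEq R] [Fintype V] [DecidableEq V]
  [Fintype S] [DecidableEq S]

/-- the symbol of a cell -/
def sm (a : R → V → S) (e : R × V) : S := a e.1 e.2

/-- `T` is a family of pairwise disjoint transversals, `H` is a set of further cells with column
degree `D` and symbol degree at most `D`, and `U` is the set of all these cells. -/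
structure St (a : R → V → S) {N : ℕ} (T : Fin N → V → R) (H : Finset (R × V)) (D : ℕ)
    (U : Finset (R × V)) : Prop where
  ri : ∀ i, Function.Injective (T i)
  si : ∀ i v v', a (T i v) v = a (T i v') v' → v = v'
  di : ∀ v i j, T i v = T j v → i = j
  cov : ∀ e, e ∈ U ↔ (e ∈ H ∨ ∃ i, T i e.2 = e.1)
  dj : ∀ i v, (T i v, v) ∉ H
  col : ∀ v, (H.filter fun e => e.2 = v).card = D
  sym : ∀ y, (H.filter fun e => sm a e = y).card ≤ D

variable {a : R → V → S} {N : ℕ} {T : Fin N → V → R} {H : Finset (R × V)} {D : ℕ}
  {U : Finset (R × V)}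

theorem St.card_H (h : St a T H D U) : H.card = Fintype.card V * D := by
  rw [card_eq_sum_card_fiberwise (f := Prod.snd) (t := Finset.univ) (fun _ _ => mem_univ _),
    sum_congr rfl fun v _ => h.col v, sum_const, card_univ, smul_eq_mul]

/-- A section is clean if its rows contain no cell of `H`. -/
def Clean (T : Fin N → V → R) (H : Finset (R × V)) (i : Fin N) : Prop :=
  ∀ v, ∀ e ∈ H, e.1 ≠ T i v

theorem St.exists_clean (h : St a T H D U)
    (hN : Fintype.card V * D * (Fintype.card V - 1) < N) : ∃ i, Clean T H i := by
  classical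
  by_contra hcon
  push Not at hcon
  have h1 : ∀ i, ∃ p : (R × V) × V, p.1 ∈ H ∧ p.1.1 = T i p.2 := by
    intro i
    have := hcon i
    unfold Clean at this
    push Not at this
    obtain ⟨v, e, he, h2⟩ := this
    exact ⟨(e, v), he, h2⟩
  choose p hp1 hp2 using h1
  have hne : ∀ i, (p i).2 ≠ (p i).1.2 := by
    intro i h3
    have h4 : (T i (p i).2, (p i).2) = (p i).1 := by
      rw [← hp2 i]
      exact Prod.ext rfl h3
    exact h.dj i (p i).2 (h4 ▸ hp1 i)
  have h5 : (Finset.univ : Finset (Fin N)).card ≤
      (H.biUnion fun e => (Finset.univ.erase e.2).image fun v => (e, v)).card := by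
    refine card_le_card_of_injOn p ?_ ?_
    · intro i _
      rw [mem_coe, mem_biUnion]
      refine ⟨(p i).1, hp1 i, mem_image.2 ⟨(p i).2, ?_, rfl⟩⟩
      exact mem_erase.2 ⟨hne i, mem_univ _⟩
    · intro i _ j _ hij
      refine h.di (p i).2 i j ?_
      rw [← hp2 i, hij, ← hp2 j]
  have h6 : (H.biUnion fun e => (Finset.univ.erase e.2).image fun v => (e, v)).card ≤
      H.card * (Fintype.card V - 1) := by
    refine card_biUnion_le_card_mul _ _ _ fun e _ => ?_
    refine card_image_le.trans ?_
    rw [card_erase_of_mem (mem_univ _), card_univ]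
  rw [card_univ, Fintype.card_fin] at h5
  rw [h.card_H] at h6
  omega

/-- the column of a symbol in a section -/
noncomputable def nod (a : R → V → S) (t : V → R) (y : S) : Option V := by
  classical
  exact if h : ∃ v, a (t v) v = y then some h.choose else none

theorem nod_eq_some {t : V → R} (ht : ∀ v v', a (t v) v = a (t v') v' → v = v') {y : S} {v : V} :
    nod a t y = some v ↔ a (t v) v = y := by
  unfold nod
  split_ifs with h
  · constructor
    · intro h1
      rw [← Option.some.inj h1]
      exact h.choose_spec
    · intro h1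
      congr 1
      exact ht _ _ (h.choose_spec.trans h1.symm)
  · constructor
    · intro h1
      cases h1
    · intro h1
      exact absurd ⟨v, h1⟩ h

theorem nod_eq_none {t : V → R} (ht : ∀ v v', a (t v) v = a (t v') v' → v = v') {y : S} :
    nod a t y = none ↔ ∀ v, a (t v) v ≠ y := by
  constructor
  · intro h v hv
    rw [← nod_eq_some ht, h] at hv
    cases hv
  · intro h
    rcases h1 : nod a t y with _ | v
    · rfl
    · exact absurd ((nod_eq_some ht).1 h1) (h v)

/-- the number of free slots -/
def slot (a : R → V → S) (t : V → R) (H : Finset (R × V)) (D : ℕ) (v : V) : ℕ :=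
  D - (H.filter fun e => sm a e = a (t v) v).card

theorem St.cfg (h : St a T H D U) (ha : ∀ r, Function.Injective (a r)) (i : Fin N) :
    Cfg H (sm a) (nod a (T i)) (slot a (T i) H D) D ∅
      (min (Fintype.card V) (Fintype.card S - Fintype.card V)) := by
  classical
  refine ⟨h.col, ?_, h.sym, ?_, ?_, HubOnly.empty, ?_⟩
  · intro v
    have h1 : (H.filter fun e => nod a (T i) (sm a e) = some v) =
        H.filter fun e => sm a e = a (T i v) v := by
      refine filter_congr fun e _ => ?_
      rw [nod_eq_some (h.si i)]
      exact eq_comm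
    rw [h1]
    unfold slot
    have := h.sym (a (T i v) v)
    omega
  · intro e _ e' _ h1 h2
    unfold sm at h2
    rw [← h1] at h2
    exact Prod.ext h1 (ha _ h2)
  · intro y y' v h1 h2
    rw [nod_eq_some (h.si i)] at h1 h2
    exact h1.symm.trans h2
  · intro r
    rw [card_empty, zero_add]
    refine le_min ?_ ?_
    · rw [← card_univ]
      refine card_le_card_of_injOn Prod.snd (fun _ _ => mem_univ _) ?_
      intro e he e' he' h1
      rw [mem_coe, mem_filter] at he he'
      exact Prod.ext (he.2.1.trans he'.2.1.symm) h1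
    · have h2 : (Finset.univ.image fun v => a (T i v) v).card = Fintype.card V := by
        rw [card_image_of_injective _ (fun v v' => h.si i v v'), card_univ]
      have h3 : ((Finset.univ.image fun v => a (T i v) v)ᶜ).card =
          Fintype.card S - Fintype.card V := by
        rw [card_compl, h2]
      rw [← h3]
      refine card_le_card_of_injOn (sm a) ?_ ?_
      · intro e he
        rw [mem_coe, mem_filter] at he
        rw [mem_coe, mem_compl, mem_image]
        rintro ⟨v, -, h4⟩
        exact (nod_eq_none (h.si i)).1 he.2.2 v h4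
      · intro e he e' he' h1
        rw [mem_coe, mem_filter] at he he'
        unfold sm at h1
        rw [he.2.1, he'.2.1] at h1
        exact Prod.ext (he.2.1.trans he'.2.1.symm) (ha _ h1)

/-- the exchanged section -/
noncomputable def rho (t : V → R) (C : Finset (R × V)) (v : V) : R := by
  classical
  exact if h : ∃ r, (r, v) ∈ C then h.choose else t v

theorem rho_of_mem {t : V → R} {C : Finset (R × V)}
    (hC : ∀ e ∈ C, ∀ e' ∈ C, e.2 = e'.2 → e = e') {e : R × V} (he : e ∈ C) :
    rho t C e.2 = e.1 := by
  unfold rho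
  have h : ∃ r, (r, e.2) ∈ C := ⟨e.1, he⟩
  rw [dif_pos h]
  exact congrArg Prod.fst (hC _ h.choose_spec _ he rfl)

theorem rho_of_notMem {t : V → R} {C : Finset (R × V)} {v : V} (h : ∀ e ∈ C, e.2 ≠ v) :
    rho t C v = t v := by
  unfold rho
  rw [dif_neg]
  rintro ⟨r, hr⟩
  exact h _ hr rfl

/-- the freed cells -/
def freed (t : V → R) (C : Finset (R × V)) : Finset (R × V) := C.image fun e => (t e.2, e.2)

theorem mem_freed {t : V → R} {C : Finset (R × V)} {e : R × V} :
    e ∈ freed t C ↔ ∃ e' ∈ C, e'.2 = e.2 ∧ t e.2 = e.1 := by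
  unfold freed
  rw [mem_image]
  constructor
  · rintro ⟨e', he', rfl⟩
    exact ⟨e', he', rfl, rfl⟩
  · rintro ⟨e', he', h1, h2⟩
    refine ⟨e', he', ?_⟩
    rw [h1, h2]

theorem St.exchange (h : St a T H D U) {i : Fin N} (hcl : Clean T H i)
    {C : Finset (R × V)} (hCH : C ⊆ H)
    (hC : CSet (hed (sm a) (nod a (T i))) (slot a (T i) H D) C) {e₀ : R × V} (he₀ : e₀ ∈ C)
    (hf : e₀ ∉ Fr H) :
    ∃ (T' : Fin N → V → R) (H' : Finset (R × V)), St a T' H' D U ∧ (Fr H).card < (Fr H').card := by
  classical
  have hsi := h.si i
  set K := freed (T i) C with hK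
  have hKH : ∀ e ∈ K, e ∉ H := by
    intro e he
    obtain ⟨e', -, -, h2⟩ := mem_freed.1 he
    have : (T i e.2, e.2) = e := Prod.ext h2 rfl
    exact this ▸ h.dj i e.2
  have hKrow : ∀ e ∈ K, ∀ e' ∈ H, e'.1 ≠ e.1 := by
    intro e he e' he' h1
    obtain ⟨-, -, -, h2⟩ := mem_freed.1 he
    exact hcl e.2 e' he' (h1.trans h2.symm)
  have hdisj : Disjoint (H \ C) K := by
    rw [disjoint_left]
    intro e he he'
    exact hKH e he' (mem_sdiff.1 he).1
  have hρin : ∀ e ∈ C, rho (T i) C e.2 = e.1 := fun e he => rho_of_mem hC.tl he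
  have hρout : ∀ v, (∀ e ∈ C, e.2 ≠ v) → rho (T i) C v = T i v := fun v hv => rho_of_notMem hv
  have hcases : ∀ v, (∃ e ∈ C, e.2 = v) ∨ ∀ e ∈ C, e.2 ≠ v := by
    intro v
    by_cases h1 : ∃ e ∈ C, e.2 = v
    · exact Or.inl h1
    · push Not at h1
      exact Or.inr h1
  refine ⟨fun j => if j = i then rho (T i) C else T j, (H \ C) ∪ K, ⟨?_, ?_, ?_, ?_, ?_, ?_, ?_⟩, ?_⟩
  · intro j
    by_cases hj : j = i
    · simp only [if_pos hj]
      intro v v' h1
      rcases hcases v with ⟨e, he, rfl⟩ | hv <;> rcases hcases v' with ⟨e', he', rfl⟩ | hv'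
      · rw [hρin e he, hρin e' he'] at h1
        rw [hC.rb e he e' he' h1]
      · rw [hρin e he, hρout v' hv'] at h1
        exact absurd h1 (hcl v' e (hCH he))
      · rw [hρin e' he', hρout v hv] at h1
        exact absurd h1.symm (hcl v e' (hCH he'))
      · rw [hρout v hv, hρout v' hv'] at h1
        exact h.ri i h1
    · simp only [if_neg hj]
      exact h.ri j
  · intro j v v' h1
    by_cases hj : j = i
    · simp only [if_pos hj] at h1
      have hin : ∀ e ∈ C, ∀ w, (∀ e ∈ C, e.2 ≠ w) → a e.1 e.2 ≠ a (T i w) w := by
        intro e he w hw h2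
        have h3 : hed (sm a) (nod a (T i)) e = some w := (nod_eq_some hsi).2 h2.symm
        obtain ⟨e', he', h4⟩ := hC.cl e he w h3
        exact hw e' he' h4
      rcases hcases v with ⟨e, he, rfl⟩ | hv <;> rcases hcases v' with ⟨e', he', rfl⟩ | hv'
      · rw [hρin e he, hρin e' he'] at h1
        have h2 : hed (sm a) (nod a (T i)) e = hed (sm a) (nod a (T i)) e' := by
          unfold hed sm
          rw [h1]
        rw [hC.hdi e he e' he' h2]
      · rw [hρin e he, hρout v' hv'] at h1
        exact absurd h1 (hin e he v' hv')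
      · rw [hρin e' he', hρout v hv] at h1
        exact absurd h1.symm (hin e' he' v hv)
      · rw [hρout v hv, hρout v' hv'] at h1
        exact hsi v v' h1
    · simp only [if_neg hj] at h1
      exact h.si j v v' h1
  · have hne : ∀ v j, j ≠ i → rho (T i) C v ≠ T j v := by
      intro v j hj h1
      rcases hcases v with ⟨e, he, rfl⟩ | hv
      · rw [hρin e he] at h1
        have : (T j e.2, e.2) = e := Prod.ext h1.symm rfl
        exact h.dj j e.2 (this.symm ▸ hCH he)
      · rw [hρout v hv] at h1
        exact hj (h.di v i j h1).symm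
    intro v j j' h1
    by_cases hj : j = i <;> by_cases hj' : j' = i
    · rw [hj, hj']
    · simp only [if_pos hj, if_neg hj'] at h1
      exact absurd h1 (hne v j' hj')
    · simp only [if_neg hj, if_pos hj'] at h1
      exact absurd h1.symm (hne v j hj)
    · simp only [if_neg hj, if_neg hj'] at h1
      exact h.di v j j' h1
  · intro e
    rw [h.cov e]
    constructor
    · rintro (h1 | ⟨j, h1⟩)
      · by_cases h2 : e ∈ C
        · right
          refine ⟨i, ?_⟩
          simp only [if_true]
          exact hρin e h2
        · left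
          exact mem_union_left _ (mem_sdiff.2 ⟨h1, h2⟩)
      · by_cases hj : j = i
        · rcases hcases e.2 with ⟨e', he', h2⟩ | hv
          · left
            exact mem_union_right _ (mem_freed.2 ⟨e', he', h2, hj ▸ h1⟩)
          · right
            refine ⟨i, ?_⟩
            simp only [if_true]
            rw [hρout _ hv]
            exact hj ▸ h1
        · right
          refine ⟨j, ?_⟩
          simp only [if_neg hj]
          exact h1
    · rintro (h1 | ⟨j, h1⟩)
      · rcases mem_union.1 h1 with h1 | h1
        · exact Or.inl (mem_sdiff.1 h1).1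
        · obtain ⟨-, -, -, h2⟩ := mem_freed.1 h1
          exact Or.inr ⟨i, h2⟩
      · by_cases hj : j = i
        · simp only [if_pos hj] at h1
          rcases hcases e.2 with ⟨e', he', h2⟩ | hv
          · left
            rw [← h2, hρin e' he'] at h1
            have : e' = e := Prod.ext h1 h2
            exact this ▸ hCH he'
          · right
            rw [hρout _ hv] at h1
            exact ⟨i, h1⟩
        · simp only [if_neg hj] at h1
          exact Or.inr ⟨j, h1⟩
  · intro j v h1
    rcases mem_union.1 h1 with h1 | h1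
    · by_cases hj : j = i
      · simp only [if_pos hj] at h1
        rcases hcases v with ⟨e, he, rfl⟩ | hv
        · rw [hρin e he] at h1
          exact (mem_sdiff.1 h1).2 he
        · rw [hρout v hv] at h1
          exact h.dj i v (mem_sdiff.1 h1).1
      · simp only [if_neg hj] at h1
        exact h.dj j v (mem_sdiff.1 h1).1
    · obtain ⟨e', he', h2, h3⟩ := mem_freed.1 h1
      simp only at h2 h3
      by_cases hj : j = i
      · simp only [if_pos hj] at h3
        rw [← h2, hρin e' he'] at h3
        exact hcl e'.2 e' (hCH he') h3.symm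
      · simp only [if_neg hj] at h3
        exact hj (h.di v i j h3).symm
  · intro v
    rw [filter_union, card_union_of_disjoint (disjoint_filter_filter hdisj)]
    rcases hcases v with ⟨e, he, rfl⟩ | hv
    · have h1 : ((H \ C).filter fun e' => e'.2 = e.2) = (H.filter fun e' => e'.2 = e.2).erase e := by
        ext e'
        simp only [mem_filter, mem_sdiff, mem_erase]
        constructor
        · rintro ⟨⟨h2, h3⟩, h4⟩
          exact ⟨fun h5 => h3 (h5 ▸ he), h2, h4⟩
        · rintro ⟨h2, h3, h4⟩
          exact ⟨⟨h3, fun h5 => h2 (hC.tl e' h5 e he h4)⟩, h4⟩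
      have h2 : (K.filter fun e' => e'.2 = e.2) = {(T i e.2, e.2)} := by
        ext e'
        rw [mem_filter, mem_singleton, hK, mem_freed]
        constructor
        · rintro ⟨⟨e'', he'', h3, h4⟩, h5⟩
          rw [h5] at h4
          exact Prod.ext h4.symm h5
        · rintro rfl
          exact ⟨⟨e, he, rfl, rfl⟩, rfl⟩
      have h3 : e ∈ H.filter fun e' => e'.2 = e.2 := mem_filter.2 ⟨hCH he, rfl⟩
      have h4 : 0 < (H.filter fun e' => e'.2 = e.2).card := card_pos.2 ⟨e, h3⟩
      rw [h1, h2, card_erase_of_mem h3, card_singleton, ← h.col e.2]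
      omega
    · have h1 : ((H \ C).filter fun e' => e'.2 = v) = H.filter fun e' => e'.2 = v := by
        ext e'
        simp only [mem_filter, mem_sdiff]
        constructor
        · rintro ⟨⟨h2, h3⟩, h4⟩
          exact ⟨h2, h4⟩
        · rintro ⟨h2, h4⟩
          exact ⟨⟨h2, fun h5 => hv e' h5 h4⟩, h4⟩
      have h2 : (K.filter fun e' => e'.2 = v) = ∅ := by
        rw [eq_empty_iff_forall_notMem]
        intro e' he'
        rw [mem_filter, hK, mem_freed] at he'
        obtain ⟨⟨e'', he'', h3, h4⟩, h5⟩ := he'
        exact hv e'' he'' (h3.trans h5)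
      rw [h1, h2, card_empty, add_zero, h.col v]
  · intro y
    rw [filter_union, card_union_of_disjoint (disjoint_filter_filter hdisj)]
    have hK1 : (K.filter fun e => sm a e = y).card ≤ 1 := by
      rw [card_le_one]
      intro e he e' he'
      rw [mem_filter, hK, mem_freed] at he he'
      obtain ⟨⟨-, -, -, h1⟩, h2⟩ := he
      obtain ⟨⟨-, -, -, h3⟩, h4⟩ := he'
      have h5 : a (T i e.2) e.2 = a (T i e'.2) e'.2 := by
        rw [h1, h3]
        exact h2.trans h4.symm
      have h6 := hsi _ _ h5
      exact Prod.ext (by rw [← h1, ← h3, h6]) h6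
    have hsub : ((H \ C).filter fun e => sm a e = y) ⊆ H.filter fun e => sm a e = y :=
      filter_subset_filter _ sdiff_subset
    have hle := (card_le_card hsub).trans (h.sym y)
    rcases Nat.eq_zero_or_pos ((K.filter fun e => sm a e = y).card) with h0 | h0
    · omega
    · obtain ⟨e, he⟩ := card_pos.1 h0
      rw [mem_filter, hK, mem_freed] at he
      obtain ⟨⟨e', he', h1, h2⟩, h3⟩ := he
      -- `y` is the symbol of the column `e.2`, which lies in `C`
      have hy : a (T i e.2) e.2 = y := by
        rw [h2]
        exact h3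
      by_cases h4 : ∃ e'' ∈ C, hed (sm a) (nod a (T i)) e'' = some e'.2
      · obtain ⟨e'', he'', h5⟩ := h4
        have h6 : sm a e'' = y := by
          have := (nod_eq_some hsi).1 h5
          rw [← this, h1]
          exact hy
        have h7 : ((H \ C).filter fun e => sm a e = y).card <
            (H.filter fun e => sm a e = y).card := by
          refine card_lt_card ⟨hsub, fun h8 => ?_⟩
          have h9 := h8 (mem_filter.2 ⟨hCH he'', h6⟩)
          exact (mem_sdiff.1 (mem_filter.1 h9).1).2 he''
        have := h.sym y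
        omega
      · push Not at h4
        have h5 := hC.st e' he' h4
        unfold slot at h5
        rw [h1, hy] at h5
        have h6 := card_le_card hsub
        omega
  · -- the number of free cells grows
    have h1 : (Fr H \ C) ∪ K ⊆ Fr ((H \ C) ∪ K) := by
      intro e he
      rw [mem_Fr]
      rcases mem_union.1 he with he | he
      · obtain ⟨h2, h3⟩ := mem_sdiff.1 he
        obtain ⟨h4, h5⟩ := mem_Fr.1 h2
        refine ⟨mem_union_left _ (mem_sdiff.2 ⟨h4, h3⟩), ?_⟩
        intro e' he' h6
        rcases mem_union.1 he' with he' | he'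
        · exact h5 e' (mem_sdiff.1 he').1 h6
        · exact absurd h6.symm (hKrow e' he' e h4)
      · refine ⟨mem_union_right _ he, ?_⟩
        intro e' he' h6
        rcases mem_union.1 he' with he' | he'
        · exact absurd h6 (hKrow e he e' (mem_sdiff.1 he').1)
        · obtain ⟨-, -, -, h7⟩ := mem_freed.1 he
          obtain ⟨-, -, -, h8⟩ := mem_freed.1 he'
          have h9 := h.ri i (h8.trans (h6.trans h7.symm))
          exact Prod.ext h6 h9
    have h2 : K.card = C.card := by
      rw [hK]
      unfold freed
      refine card_image_of_injOn ?_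
      intro e he e' he' h3
      exact hC.tl e he e' he' (Prod.mk.inj h3).2
    have h3 : Disjoint (Fr H \ C) K := by
      rw [disjoint_left]
      intro e he he'
      exact hKH e he' (Fr_subset (mem_sdiff.1 he).1)
    have h4 := card_le_card h1
    rw [card_union_of_disjoint h3, h2] at h4
    have h5 : (Fr H).card ≤ (Fr H \ C).card + (C.erase e₀).card := by
      refine (card_le_card ?_).trans (card_union_le _ _)
      intro e he
      rw [mem_union, mem_sdiff, mem_erase]
      by_cases h6 : e ∈ C
      · exact Or.inr ⟨fun h7 => hf (h7 ▸ he), h6⟩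
      · exact Or.inl ⟨he, h6⟩
    have h6 : 0 < C.card := card_pos.2 ⟨e₀, he₀⟩
    rw [card_erase_of_mem he₀] at h5
    omega

/-- Adding a transversal of cells of `H` that contains all tight symbols. -/
theorem St.add (h : St a T H D U) (hD : 0 < D) {ρ : V → R} (h1 : ∀ v, (ρ v, v) ∈ Fr H)
    (h2 : Function.Injective fun v => sm a (ρ v, v))
    (h3 : ∀ y, (H.filter fun e => sm a e = y).card = D → ∃ v, sm a (ρ v, v) = y) :
    ∃ (T' : Fin (N + 1) → V → R) (H' : Finset (R × V)), St a T' H' (D - 1) U := by
  classical
  set M : Finset (R × V) := Finset.univ.image fun v => (ρ v, v) with hM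
  have hmem : ∀ e, e ∈ M ↔ ρ e.2 = e.1 := by
    intro e
    rw [hM, mem_image]
    constructor
    · rintro ⟨v, -, rfl⟩
      rfl
    · intro h4
      exact ⟨e.2, mem_univ _, Prod.ext h4 rfl⟩
  have hMH : M ⊆ H := by
    intro e he
    rw [hmem] at he
    have : (ρ e.2, e.2) = e := Prod.ext he rfl
    exact this ▸ Fr_subset (h1 e.2)
  have hρi : Function.Injective ρ := by
    intro v v' h4
    have := (mem_Fr.1 (h1 v')).2 _ (Fr_subset (h1 v)) h4
    exact congrArg Prod.snd this
  refine ⟨Fin.cons ρ T, H \ M, ?_, ?_, ?_, ?_, ?_, ?_, ?_⟩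
  · intro i
    refine Fin.cases ?_ (fun j => ?_) i
    · rw [Fin.cons_zero]
      exact hρi
    · rw [Fin.cons_succ]
      exact h.ri j
  · intro i
    refine Fin.cases ?_ (fun j => ?_) i
    · rw [Fin.cons_zero]
      intro v v' h4
      exact h2 h4
    · rw [Fin.cons_succ]
      exact h.si j
  · have hne : ∀ v j, ρ v ≠ T j v := by
      intro v j h4
      exact h.dj j v (h4 ▸ Fr_subset (h1 v))
    intro v i
    refine Fin.cases ?_ (fun j => ?_) i
    · intro i'
      refine Fin.cases ?_ (fun j' => ?_) i'
      · intro _
        rfl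
      · rw [Fin.cons_zero, Fin.cons_succ]
        intro h4
        exact absurd h4 (hne v j')
    · intro i'
      refine Fin.cases ?_ (fun j' => ?_) i'
      · rw [Fin.cons_zero, Fin.cons_succ]
        intro h4
        exact absurd h4.symm (hne v j)
      · rw [Fin.cons_succ, Fin.cons_succ]
        intro h4
        rw [h.di v j j' h4]
  · intro e
    rw [h.cov e, Fin.exists_fin_succ]
    simp only [Fin.cons_zero, Fin.cons_succ, mem_sdiff, hmem]
    constructor
    · rintro (h4 | h4)
      · by_cases h5 : ρ e.2 = e.1
        · exact Or.inr (Or.inl h5)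
        · exact Or.inl ⟨h4, h5⟩
      · exact Or.inr (Or.inr h4)
    · rintro (h4 | h4 | h4)
      · exact Or.inl h4.1
      · exact Or.inl (hMH ((hmem e).2 h4))
      · exact Or.inr h4
  · intro i v
    rw [mem_sdiff, hmem]
    refine Fin.cases ?_ (fun j => ?_) i
    · rw [Fin.cons_zero]
      exact fun h4 => h4.2 rfl
    · rw [Fin.cons_succ]
      exact fun h4 => h.dj j v h4.1
  · intro v
    have h4 : ((H \ M).filter fun e => e.2 = v) = (H.filter fun e => e.2 = v).erase (ρ v, v) := by
      ext e
      simp only [mem_filter, mem_sdiff, mem_erase, hmem]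
      constructor
      · rintro ⟨⟨h5, h6⟩, h7⟩
        refine ⟨?_, h5, h7⟩
        rintro rfl
        exact h6 rfl
      · rintro ⟨h5, h6, h7⟩
        refine ⟨⟨h6, ?_⟩, h7⟩
        intro h8
        apply h5
        rw [← h7, h8]
    have h5 : (ρ v, v) ∈ H.filter fun e => e.2 = v := mem_filter.2 ⟨Fr_subset (h1 v), rfl⟩
    rw [h4, card_erase_of_mem h5, h.col v]
  · intro y
    have hsub : ((H \ M).filter fun e => sm a e = y) ⊆ H.filter fun e => sm a e = y :=
      filter_subset_filter _ sdiff_subset
    have hle := card_le_card hsub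
    rcases Nat.lt_or_ge ((H.filter fun e => sm a e = y).card) D with h4 | h4
    · omega
    · obtain ⟨v, hv⟩ := h3 y (le_antisymm (h.sym y) h4)
      have h7 : ((H \ M).filter fun e => sm a e = y).card <
          (H.filter fun e => sm a e = y).card := by
        refine card_lt_card ⟨hsub, fun h8 => ?_⟩
        have h9 := h8 (mem_filter.2 ⟨Fr_subset (h1 v), hv⟩)
        exact (mem_sdiff.1 (mem_filter.1 h9).1).2 ((hmem _).2 rfl)
      have := h.sym y
      omega

/-- The core step: one more transversal. -/
theorem St.core (h : St a T H D U) (ha : ∀ r, Function.Injective (a r))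
    (hV : 0 < Fintype.card V)
    (hD : Fintype.card V + (min (Fintype.card V) (Fintype.card S - Fintype.card V) - 1) ≤ D)
    (hN : Fintype.card V * D * (Fintype.card V - 1) < N) :
    ∃ (T' : Fin (N + 1) → V → R) (H' : Finset (R × V)), St a T' H' (D - 1) U := by
  classical
  -- induction on the number of cells that are not free
  suffices key : ∀ (b : ℕ) (T : Fin N → V → R) (H : Finset (R × V)), St a T H D U →
      Fintype.card V * D - (Fr H).card = b →
      ∃ (T' : Fin (N + 1) → V → R) (H' : Finset (R × V)), St a T' H' (D - 1) U from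
    key _ T H h rfl
  intro b
  induction b using Nat.strong_induction_on with
  | _ b ih =>
    intro T H h hb
    obtain ⟨i, hi⟩ := h.exists_clean hN
    by_cases hNE : NoExchange H (hed (sm a) (nod a (T i))) (slot a (T i) H D)
    · obtain ⟨ρ, h1, h2, h3⟩ := exists_free_transversal (h.cfg ha i) hV hD hNE
      exact h.add (by omega) h1 h2 h3
    · unfold NoExchange at hNE
      push Not at hNE
      obtain ⟨C, hCH, hC, e₀, he₀, hf⟩ := hNE
      obtain ⟨T', H', h1, h2⟩ := h.exchange hi hCH hC he₀ hf
      have h3 : (Fr H').card ≤ Fintype.card V * D := by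
        rw [← h1.card_H]
        exact card_le_card Fr_subset
      exact ih _ (by omega) T' H' h1 rfl

end Pool.Agent.Rl45
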