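import Pool.Agent.Rl45.Iter
import Pool.Agent.DisjTrans15.Greedy

/-!
# Disjoint transversals of a rectangle with many rows
-/

open Finset

set_option autoImplicit false

namespace Pool.Agent.Rl45

open Pool.Agent.DisjTrans15

/-- The starting family. -/
theorem exists_start {m n k : ℕ} (hn : 1 ≤ n) (A : Fin m → Fin n → Fin k)
    (hA : ∀ i, ∀ j j', A i j = A i j' → j = j') (t : ℕ) (ht : t + n * (n - 1) ≤ m) :
    ∃ (T : Fin t → Fin n → Fin m) (F : Finset (Fin m × Fin n)),
      St A T F (m - t) Finset.univ := by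
  classical
  obtain ⟨𝒞, h1, h2, h3, h4, h5⟩ := exists_family hn hA t ht
  have hex : ∀ C ∈ 𝒞, ∀ v : Fin n, ∃ r : Fin m, (r, v) ∈ C := by
    intro C hC v
    obtain ⟨hrb, hcard⟩ := h2 C hC
    have h6 : (C.image Prod.snd).card = n := by rw [hrb.card_image, hcard]
    have h7 : C.image Prod.snd = Finset.univ := by
      rw [← card_eq_iff_eq_univ, h6, Fintype.card_fin]
    have h8 : v ∈ C.image Prod.snd := by
      rw [h7]
      exact mem_univ v
    obtain ⟨e, he, rfl⟩ := mem_image.1 h8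
    exact ⟨e.1, he⟩
  have hcard : Fintype.card 𝒞 = t := by rw [Fintype.card_coe, h1]
  obtain ⟨e⟩ : Nonempty (Fin t ≃ 𝒞) := ⟨(Fintype.equivFinOfCardEq hcard).symm⟩
  have hex' : ∀ (i : Fin t) (v : Fin n), ∃ r : Fin m, (r, v) ∈ (e i).1 :=
    fun i v => hex _ (e i).2 v
  choose T hT using hex'
  have huniq : ∀ (i : Fin t) (c : Fin m × Fin n), c ∈ (e i).1 → T i c.2 = c.1 := by
    intro i c hc
    have h6 := (h2 _ (e i).2).1.ia _ (hT i c.2) _ hc rfl
    exact congrArg Prod.fst h6
  refine ⟨T, (𝒞.biUnion id)ᶜ, ?_, ?_, ?_, ?_, ?_, h4, h5⟩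
  · intro i v v' h6
    have h7 := (h2 _ (e i).2).1.ir _ (hT i v) _ (hT i v') h6
    exact congrArg Prod.snd h7
  · intro i v v' h6
    have h7 := (h2 _ (e i).2).1.ib _ (hT i v) _ (hT i v') h6
    exact congrArg Prod.snd h7
  · intro v i j h6
    by_contra hij
    have h7 : (e i).1 ≠ (e j).1 := fun h8 => hij (e.injective (Subtype.ext h8))
    have h8 := h3 _ (e i).2 _ (e j).2 h7
    rw [disjoint_left] at h8
    exact h8 (hT i v) (h6 ▸ hT j v)
  · intro c
    refine ⟨fun _ => ?_, fun _ => mem_univ _⟩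
    by_cases hc : c ∈ 𝒞.biUnion id
    · right
      obtain ⟨C, hC, hcC⟩ := mem_biUnion.1 hc
      refine ⟨e.symm ⟨C, hC⟩, huniq _ _ ?_⟩
      rw [Equiv.apply_symm_apply]
      exact hcC
    · exact Or.inl (mem_compl.2 hc)
  · intro i v h6
    rw [mem_compl] at h6
    exact h6 (mem_biUnion.2 ⟨(e i).1, (e i).2, hT i v⟩)

/-- The main theorem, for functions. -/
theorem exists_transversals {m n k : ℕ} (hn : 1 ≤ n) (A : Fin m → Fin n → Fin k)
    (hA : ∀ i, ∀ j j', A i j = A i j' → j = j')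
    (hm : (n + (min n (k - n) - 1) + 1) * (n * (n - 1)) < m) :
    ∃ T : Fin (m - (n - 1) - (min n (k - n) - 1)) → Fin n → Fin m,
      (∀ s, Function.Injective (T s)) ∧
      (∀ s, Function.Injective (fun j => A (T s j) j)) ∧
      ∀ j, Function.Injective (fun s => T s j) := by
  classical
  set e := min n (k - n) - 1 with he
  have hen : e ≤ n - 1 := by
    have : min n (k - n) ≤ n := min_le_left _ _
    omega
  have hm1 : n * (n - 1) ≤ m := by
    have : 1 * (n * (n - 1)) ≤ (n + e + 1) * (n * (n - 1)) := Nat.mul_le_mul_right _ (by omega)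
    omega
  have hdn : n + e ≤ n * (n - 1) + 1 := by
    rcases Nat.lt_or_ge n 2 with h1 | h1
    · have : n = 1 := by omega
      subst this
      omega
    · obtain ⟨q, rfl⟩ : ∃ q, n = q + 2 := ⟨n - 2, by omega⟩
      have h2 : (q + 2) * (q + 2 - 1) = q * q + 3 * q + 2 := by
        have : q + 2 - 1 = q + 1 := by omega
        rw [this]
        ring
      rw [h2]
      have : 0 ≤ q * q := Nat.zero_le _
      omega
  obtain ⟨T₀, F₀, h0⟩ := exists_start hn A hA (m - n * (n - 1)) (by omega)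
  have hd : m - (m - n * (n - 1)) = (n + e) - 1 + (n * (n - 1) + 1 - (n + e)) := by omega
  rw [hd] at h0
  obtain ⟨N', T, F, hN', h1⟩ := St.iterate (D := n + e)
    (fun r j j' h => hA r j j' h) (by rw [Fintype.card_fin]; omega)
    (by rw [Fintype.card_fin, Fintype.card_fin]) _ _ T₀ F₀
    (by
      rw [Fintype.card_fin]
      have : n * (n + e) * (n - 1) + n * (n - 1) = (n + e + 1) * (n * (n - 1)) := by ring
      omega) h0
  have hN : N' = m - (n - 1) - e := by
    rw [hN']
    have h3 : (n + e + 1) * (n * (n - 1)) = (n + e) * (n * (n - 1)) + n * (n - 1) := by ring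
    have h4 : 1 * (n * (n - 1)) ≤ (n + e) * (n * (n - 1)) := Nat.mul_le_mul_right _ (by omega)
    omega
  subst hN
  exact ⟨T, h1.ri, fun s j j' h => h1.si s j j' h, fun j s s' h => h1.di j s s' h⟩

end Pool.Agent.Rl45
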