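import Pool.Agent.Rl45.Struct
import Pool.Agent.Rl45.Main

/-!
# The exact number for many rows
-/

open Finset

set_option autoImplicit false

namespace Pool.Agent.Rl45

/-- The starting family on a set of rows. -/
theorem exists_start_on {m n k : ℕ} (hn : 1 ≤ n) (A : Fin m → Fin n → Fin k)
    (hA : ∀ i, ∀ j j', A i j = A i j' → j = j') (G : Finset (Fin m)) (t : ℕ)
    (ht : t + n * (n - 1) ≤ G.card) (𝒩 : Finset (Fin k))
    (hU : ∀ r, (Finset.univ.filter fun v => (r, v) ∈ cells (V := Fin n) G ∧ A r v ∉ 𝒩).card +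
      𝒩.card ≤ Fintype.card (Fin n) + 1) :
    ∃ (T : Fin t → Fin n → Fin m) (F : Finset (Fin m × Fin n)),
      Sn A 𝒩 T F (sm A) (G.card - t) (cells G) := by
  classical
  obtain ⟨e⟩ : Nonempty (Fin G.card ≃ G) :=
    ⟨(Fintype.equivFinOfCardEq (Fintype.card_coe G)).symm⟩
  obtain ⟨T, F, h⟩ := exists_start hn (fun i => A (e i)) (fun i => hA (e i)) t ht
  let φ : Fin G.card × Fin n → Fin m × Fin n := fun c => ((e c.1 : Fin m), c.2)
  have hφ : Function.Injective φ := by
    intro c c' h1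
    have h2 := Prod.mk.inj h1
    exact Prod.ext (e.injective (Subtype.ext h2.1)) h2.2
  refine ⟨fun i v => (e (T i v) : Fin m), F.image φ, Sn.of_real (fun r j j' => hA r j j') hU
    ⟨?_, ?_, ?_⟩ ?_ ?_ ?_ ?_⟩
  · intro i v v' h1
    exact h.ri i (e.injective (Subtype.ext h1))
  · intro v i j h1
    exact h.di v i j (e.injective (Subtype.ext h1))
  · intro c
    rw [mem_sdiff, mem_cells, mem_image]
    constructor
    · rintro ⟨h1, h2⟩
      have h3 : φ (e.symm ⟨c.1, h1⟩, c.2) = c := by
        simp only [φ, Equiv.apply_symm_apply]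
      rcases (h.cov (e.symm ⟨c.1, h1⟩, c.2)).1 (mem_univ _) with h4 | ⟨i, h4⟩
      · exact absurd ⟨_, h4, h3⟩ h2
      · refine ⟨i, ?_⟩
        simp only at h4
        rw [h4, Equiv.apply_symm_apply]
    · rintro ⟨i, h1⟩
      refine ⟨h1 ▸ (e (T i c.2)).2, ?_⟩
      rintro ⟨c', h2, h3⟩
      have h4 : c'.2 = c.2 := (Prod.mk.inj h3).2
      have h5 : (e c'.1 : Fin m) = c.1 := (Prod.mk.inj h3).1
      have h6 : T i c.2 = c'.1 := e.injective (Subtype.ext (h1.trans h5.symm))
      apply h.dj i c.2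
      have h7 : (T i c.2, c.2) = c' := Prod.ext h6 h4.symm
      rw [h7]
      exact h2
  · intro c hc
    obtain ⟨c', -, rfl⟩ := mem_image.1 hc
    exact mem_cells.2 (e c'.1).2
  · intro i v v' h1
    exact h.si i v v' h1
  · intro v
    rw [← h.col v, ← card_image_of_injective (F.filter fun c => c.2 = v) hφ]
    congr 1
    ext c
    rw [mem_filter, mem_image, mem_image]
    constructor
    · rintro ⟨⟨c', h1, rfl⟩, h2⟩
      exact ⟨c', mem_filter.2 ⟨h1, h2⟩, rfl⟩
    · rintro ⟨c', h1, rfl⟩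
      rw [mem_filter] at h1
      exact ⟨⟨c', h1.1, rfl⟩, h1.2⟩
  · intro y _
    refine le_trans (le_of_eq ?_) (h.sym y)
    rw [← card_image_of_injective (F.filter fun c => sm (fun i => A (e i)) c = y) hφ]
    congr 1
    ext c
    rw [mem_filter, mem_image, mem_image]
    constructor
    · rintro ⟨⟨c', h1, rfl⟩, h2⟩
      exact ⟨c', mem_filter.2 ⟨h1, h2⟩, rfl⟩
    · rintro ⟨c', h1, rfl⟩
      rw [mem_filter] at h1
      exact ⟨⟨c', h1.1, rfl⟩, h1.2⟩

/-- The first phase. -/
theorem exists_phase_one {m n k : ℕ} (hn : 1 ≤ n) (A : Fin m → Fin n → Fin k)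
    (hA : ∀ i, ∀ j j', A i j = A i j' → j = j') (G : Finset (Fin m)) (𝒩 : Finset (Fin k))
    (hU : ∀ r, (Finset.univ.filter fun v => (r, v) ∈ cells (V := Fin n) G ∧ A r v ∉ 𝒩).card +
      𝒩.card ≤ Fintype.card (Fin n) + 1)
    (hf : 𝒩.card ≤ n ∨ ∀ z, z ∈ 𝒩)
    (hK : ∀ z ∉ 𝒩, 2 * (n * (n - 1)) ≤ (G.filter fun r => ∀ v, A r v ≠ z).card)
    (hG : n * (n - 1) * (n + 1) < G.card) :
    ∃ (N : ℕ) (T : Fin N → Fin n → Fin m) (F : Finset (Fin m × Fin n)),
      N + (n - 1) = G.card ∧ n * n * (n - 1) < N ∧ Sn A 𝒩 T F (sm A) (n - 1) (cells G) := by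
  classical
  obtain ⟨q, rfl⟩ : ∃ q, n = q + 1 := ⟨n - 1, by omega⟩
  have e1 : (q + 1) * (q + 1 - 1) * (q + 1 + 1) =
      (q + 1) * (q + 1) * (q + 1 - 1) + (q + 1) * (q + 1 - 1) := by
    have : q + 1 - 1 = q := rfl
    rw [this]
    ring
  have e2 : (q + 1) * (q + 1 - 1) = q + q * q := by
    have : q + 1 - 1 = q := rfl
    rw [this]
    ring
  rw [e1] at hG
  obtain ⟨T₀, F₀, h0⟩ := exists_start_on hn A hA G (G.card - (q + 1) * (q + 1 - 1)) (by omega) 𝒩 hU
  have hd : G.card - (G.card - (q + 1) * (q + 1 - 1)) = Fintype.card (Fin (q + 1)) - 1 + q * q := by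
    rw [Fintype.card_fin]
    omega
  rw [hd] at h0
  obtain ⟨N', T, F, h1, h2⟩ := Sn.iterate (fun r j j' => hA r j j') hU
    (by rw [Fintype.card_fin]; omega) (by rw [Fintype.card_fin]; exact hf) _ _ T₀ F₀
    (by
      intro z hz
      rw [Fintype.card_fin]
      have h3 := card_cells_filter (V := Fin (q + 1)) (fun r j j' => hA r j j') G z
      have h4 : 2 * ((q + 1) * (q + 1 - 1)) ≤
          (G.card - ((cells (V := Fin (q + 1)) G).filter fun e => sm A e = z).card) := by
        refine (hK z hz).trans (le_of_eq ?_)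
        rw [← h3, Nat.add_sub_cancel_left]
        congr!
      omega)
    (by
      rw [Fintype.card_fin]
      omega) h0
  rw [Fintype.card_fin] at h2
  exact ⟨N', T, F, by omega, by omega, h2⟩

/-- The exact number of disjoint transversals. -/
theorem exact_number {m n k : ℕ} (hn : 1 ≤ n) (A : Fin m → Fin n → Fin k)
    (hA : ∀ i, ∀ j j', A i j = A i j' → j = j')
    (hm : n * (n - 1) * (3 * n + 1) < m ∨ (k ≤ n + 1 ∧ n * (n - 1) * (n + 1) < m)) :
    ∃ T : Fin (m - (n - 1)) → Fin n → Fin m,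
      (∀ s, Function.Injective (T s)) ∧
      (∀ s, Function.Injective (fun j => A (T s j) j)) ∧
      ∀ j, Function.Injective (fun s => T s j) := by
  classical
  have ha : ∀ r, Function.Injective (A r) := fun r j j' => hA r j j'
  suffices key : ∃ (N : ℕ) (T : Fin N → Fin n → Fin m) (F : Finset (Fin m × Fin n))
      (𝒩 : Finset (Fin k)) (nm : Fin m × Fin n → Fin k) (U : Finset (Fin m × Fin n)) (D : ℕ),
      N + (n - 1) = m ∧ Sn A 𝒩 T F nm D U by
    obtain ⟨N, T, F, 𝒩, nm, U, D, h1, h2⟩ := key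
    have hN : N = m - (n - 1) := by omega
    subst hN
    exact ⟨T, h2.fam.ri, fun s j j' h => h2.si s j j' h, fun j s s' h => h2.fam.di j s s' h⟩
  rcases hm with hm | ⟨hk, hm⟩
  · obtain ⟨q, rfl⟩ : ∃ q, n = q + 1 := ⟨n - 1, by omega⟩
    have e1 : (q + 1) * (q + 1 - 1) * (3 * (q + 1) + 1) =
        (q + 1) * (q + 1 - 1) * (q + 1 + 1) + (q + 1) * (2 * ((q + 1) * (q + 1 - 1))) := by
      have : q + 1 - 1 = q := rfl
      rw [this]
      ring
    have e2 : (q + 1) * (q + 1 - 1) * (q + 1 + 1) =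
        q * (2 * ((q + 1) * (q + 1 - 1))) / 2 + (q + 1) * (q + 1 - 1) * 2 := by
      have : q * (2 * ((q + 1) * (q + 1 - 1))) = 2 * (q * ((q + 1) * (q + 1 - 1))) := by ring
      rw [this, Nat.mul_div_cancel_left _ (by norm_num)]
      have : q + 1 - 1 = q := rfl
      rw [this]
      ring
    obtain ⟨𝒩, G, h1, h2, h3, h4⟩ := exists_full A ha (2 * ((q + 1) * (q + 1 - 1))) (by
      rw [Fintype.card_fin, Fintype.card_fin, Nat.add_mul (q + 1) 1, Nat.one_mul]
      refine lt_of_le_of_lt ?_ hm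
      rw [e1]
      have : 2 * ((q + 1) * (q + 1 - 1)) ≤ (q + 1) * (q + 1 - 1) * (q + 1 + 1) := by
        rw [Nat.mul_comm 2]
        exact Nat.mul_le_mul_left _ (by omega)
      omega)
    rw [Fintype.card_fin] at h1
    have h5 : G.card + (Gᶜ).card = m := by
      rw [card_add_card_compl, Fintype.card_fin]
    have h6 : 𝒩.card * (2 * ((q + 1) * (q + 1 - 1))) ≤
        (q + 1) * (2 * ((q + 1) * (q + 1 - 1))) := Nat.mul_le_mul_right _ h1
    obtain ⟨N, T, F, h7, h8, h9⟩ := exists_phase_one hn A hA G 𝒩 (by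
      intro r
      rw [Fintype.card_fin]
      by_cases hr : r ∈ G
      · have h10 : (Finset.univ.filter fun v => A r v ∈ 𝒩).card +
            (Finset.univ.filter fun v => A r v ∉ 𝒩).card = q + 1 := by
          rw [card_filter_add_card_filter_not, card_univ, Fintype.card_fin]
        have h11 : 𝒩.card ≤ (Finset.univ.filter fun v => A r v ∈ 𝒩).card := by
          have h12 : 𝒩 ⊆ (Finset.univ.filter fun v => A r v ∈ 𝒩).image (A r) := by
            intro y hy
            obtain ⟨v, hv⟩ := h2 r hr y hy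
            exact mem_image.2 ⟨v, mem_filter.2 ⟨mem_univ _, hv ▸ hy⟩, hv⟩
          exact (card_le_card h12).trans card_image_le
        have h13 : (Finset.univ.filter fun v => (r, v) ∈ cells (V := Fin (q + 1)) G ∧
            A r v ∉ 𝒩).card ≤ (Finset.univ.filter fun v => A r v ∉ 𝒩).card := by
          refine card_le_card ?_
          intro v hv
          rw [mem_filter] at hv ⊢
          exact ⟨hv.1, hv.2.2⟩
        omega
      · have h10 : (Finset.univ.filter fun v => (r, v) ∈ cells (V := Fin (q + 1)) G ∧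
            A r v ∉ 𝒩) = ∅ := by
          rw [eq_empty_iff_forall_notMem]
          intro v hv
          rw [mem_filter, mem_cells] at hv
          exact hr hv.2.1
        rw [h10, card_empty]
        omega) (Or.inl h1) (fun z hz => by
        refine (h3 z hz).le.trans (le_of_eq ?_)
        congr!) (by omega)
    obtain ⟨N', T', F', nm', h10, h11⟩ := Sn.addRows ha (by rw [Fintype.card_fin]; omega)
      (by rw [Fintype.card_fin]; exact h1) (G := G) (by
        intro z hz
        rw [Fintype.card_fin]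
        have h12 := h3 z hz
        have h13 : (q + 1) * (q + 1) ≤ 2 * ((q + 1) * (q + 1 - 1)) + 1 := by
          have : q + 1 - 1 = q := rfl
          rw [this]
          nlinarith [Nat.zero_le q]
        omega) (by rw [Fintype.card_fin]; exact h9) (by rw [Fintype.card_fin]; exact h8)
      (by rw [Fintype.card_fin]; exact h7) Gᶜ disjoint_compl_right
    exact ⟨N', T', F', 𝒩, nm', _, _, by omega, h11⟩
  · obtain ⟨N, T, F, h7, h8, h9⟩ := exists_phase_one hn A hA Finset.univ Finset.univ (by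
      intro r
      rw [Fintype.card_fin, card_univ, Fintype.card_fin]
      have : (Finset.univ.filter fun v => (r, v) ∈ cells (V := Fin n) Finset.univ ∧
          A r v ∉ (Finset.univ : Finset (Fin k))) = ∅ := by
        rw [eq_empty_iff_forall_notMem]
        intro v hv
        rw [mem_filter] at hv
        exact hv.2.2 (mem_univ _)
      rw [this, card_empty]
      omega) (Or.inr fun z => mem_univ z) (fun z hz => absurd (mem_univ z) hz)
      (by rw [card_univ, Fintype.card_fin]; exact hm)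
    rw [card_univ, Fintype.card_fin] at h7
    exact ⟨N, T, F, _, _, _, _, h7, h9⟩

end Pool.Agent.Rl45
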