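import Pool.Agent.Rl45.Match

/-!
# A portion of the uncovered cells
-/

open Finset

set_option autoImplicit false
set_option linter.unusedSectionVars false

namespace Pool.Agent.Rl45

variable {R V S : Type*} [Fintype R] [DecidableEq R] [Fintype V] [DecidableEq V]
  [Fintype S] [DecidableEq S]

/-- One cell in every column, distinct symbols, all symbols of maximal degree. -/
theorem exists_peel (F : Finset (R × V)) (sy : R × V → S) (d : ℕ) (hd : 0 < d)
    (hcol : ∀ v, (F.filter fun e => e.2 = v).card = d)
    (hsym : ∀ y, (F.filter fun e => sy e = y).card ≤ d) :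
    ∃ M ⊆ F, (∀ v, (M.filter fun e => e.2 = v).card = 1) ∧
      (∀ y, (M.filter fun e => sy e = y).card ≤ 1) ∧
      ∀ y, ((F \ M).filter fun e => sy e = y).card ≤ d - 1 := by
  classical
  obtain ⟨f, hf1, hf2, hf3⟩ := exists_matching (V := V) (S := S)
    (fun v y => ∃ r, (r, v) ∈ F ∧ sy (r, v) = y)
    (fun y => (F.filter fun e => sy e = y).card = d)
    (by
      intro X N hXN
      have e1 : (F.filter fun e => e.2 ∈ X).card = X.card * d := by
        rw [card_eq_sum_card_fiberwise (s := F.filter fun e => e.2 ∈ X) (f := Prod.snd) (t := X)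
          (fun e he => (mem_filter.1 (mem_coe.1 he)).2)]
        have : ∀ v ∈ X, ((F.filter fun e => e.2 ∈ X).filter fun e => e.2 = v).card = d := by
          intro v hv
          rw [← hcol v, filter_filter]
          congr 1
          refine filter_congr fun e _ => ?_
          exact ⟨fun h => h.2, fun h => ⟨by rw [h]; exact hv, h⟩⟩
        rw [sum_congr rfl this, sum_const, smul_eq_mul]
      have e2 : (F.filter fun e => e.2 ∈ X).card ≤ (F.filter fun e => sy e ∈ N).card := by
        refine card_le_card ?_
        intro e he
        rw [mem_filter] at he ⊢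
        exact ⟨he.1, hXN e.2 he.2 _ ⟨e.1, he.1, rfl⟩⟩
      have e3 : (F.filter fun e => sy e ∈ N).card ≤ N.card * d := by
        rw [card_eq_sum_card_fiberwise (s := F.filter fun e => sy e ∈ N) (f := sy) (t := N)
          (fun e he => (mem_filter.1 (mem_coe.1 he)).2)]
        refine (sum_le_sum (g := fun _ => d) fun y _ => ?_).trans (by rw [sum_const, smul_eq_mul])
        refine (card_le_card ?_).trans (hsym y)
        intro e he
        rw [mem_filter, mem_filter] at he
        exact mem_filter.2 ⟨he.1.1, he.2⟩
      exact Nat.le_of_mul_le_mul_right (e1 ▸ e2.trans e3) hd)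
    (by
      intro Y hY N hYN
      have e1 : (F.filter fun e => sy e ∈ Y).card = Y.card * d := by
        rw [card_eq_sum_card_fiberwise (s := F.filter fun e => sy e ∈ Y) (f := sy) (t := Y)
          (fun e he => (mem_filter.1 (mem_coe.1 he)).2)]
        have : ∀ y ∈ Y, ((F.filter fun e => sy e ∈ Y).filter fun e => sy e = y).card = d := by
          intro y hy
          rw [← hY y hy, filter_filter]
          congr 1
          refine filter_congr fun e _ => ?_
          exact ⟨fun h => h.2, fun h => ⟨by rw [h]; exact hy, h⟩⟩
        rw [sum_congr rfl this, sum_const, smul_eq_mul]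
      have e2 : (F.filter fun e => sy e ∈ Y).card ≤ (F.filter fun e => e.2 ∈ N).card := by
        refine card_le_card ?_
        intro e he
        rw [mem_filter] at he ⊢
        exact ⟨he.1, hYN _ he.2 e.2 ⟨e.1, he.1, rfl⟩⟩
      have e3 : (F.filter fun e => e.2 ∈ N).card ≤ N.card * d := by
        rw [card_eq_sum_card_fiberwise (s := F.filter fun e => e.2 ∈ N) (f := Prod.snd) (t := N)
          (fun e he => (mem_filter.1 (mem_coe.1 he)).2)]
        refine (sum_le_sum (g := fun _ => d) fun v _ => ?_).trans (by rw [sum_const, smul_eq_mul])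
        refine (card_le_card ?_).trans (hcol v).le
        intro e he
        rw [mem_filter, mem_filter] at he
        exact mem_filter.2 ⟨he.1.1, he.2⟩
      exact Nat.le_of_mul_le_mul_right (e1 ▸ e2.trans e3) hd)
  choose ρ hρ1 hρ2 using hf2
  set M : Finset (R × V) := Finset.univ.image fun v => (ρ v, v) with hM
  have hmem : ∀ e, e ∈ M ↔ ρ e.2 = e.1 := by
    intro e
    rw [hM, mem_image]
    constructor
    · rintro ⟨v, -, rfl⟩
      rfl
    · intro h4
      exact ⟨e.2, mem_univ _, Prod.ext h4 rfl⟩
  have hMF : M ⊆ F := by
    intro e he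
    rw [hmem] at he
    have : (ρ e.2, e.2) = e := Prod.ext he rfl
    exact this ▸ hρ1 e.2
  refine ⟨M, hMF, ?_, ?_, ?_⟩
  · intro v
    rw [card_eq_one]
    refine ⟨(ρ v, v), ?_⟩
    ext e
    rw [mem_filter, mem_singleton, hmem]
    constructor
    · rintro ⟨h1, rfl⟩
      exact Prod.ext h1.symm rfl
    · rintro rfl
      exact ⟨rfl, rfl⟩
  · intro y
    rw [card_le_one]
    intro e he e' he'
    rw [mem_filter, hmem] at he he'
    have h1 : f e.2 = f e'.2 := by
      rw [← hρ2, ← hρ2, he.1, he'.1]
      exact he.2.trans he'.2.symm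
    have h2 := hf1 h1
    exact Prod.ext (by rw [← he.1, ← he'.1, h2]) h2
  · intro y
    have hsub : ((F \ M).filter fun e => sy e = y) ⊆ F.filter fun e => sy e = y :=
      filter_subset_filter _ sdiff_subset
    have hle := card_le_card hsub
    rcases Nat.lt_or_ge ((F.filter fun e => sy e = y).card) d with h4 | h4
    · omega
    · obtain ⟨v, hv⟩ := hf3 y (le_antisymm (hsym y) h4)
      have h7 : ((F \ M).filter fun e => sy e = y).card <
          (F.filter fun e => sy e = y).card := by
        refine card_lt_card ⟨hsub, fun h8 => ?_⟩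
        have h9 := h8 (mem_filter.2 ⟨hρ1 v, (hρ2 v).trans hv⟩)
        exact (mem_sdiff.1 (mem_filter.1 h9).1).2 ((hmem _).2 rfl)
      have := hsym y
      omega

/-- A portion `H` of the cells with column degree `D` and symbol degrees at most `D`. -/
theorem exists_portion (F : Finset (R × V)) (sy : R × V → S) (d : ℕ)
    (hcol : ∀ v, (F.filter fun e => e.2 = v).card = d)
    (hsym : ∀ y, (F.filter fun e => sy e = y).card ≤ d) (D : ℕ) (hD : D ≤ d) :
    ∃ H ⊆ F, (∀ v, (H.filter fun e => e.2 = v).card = D) ∧
      (∀ y, (H.filter fun e => sy e = y).card ≤ D) ∧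
      ∀ y, ((F \ H).filter fun e => sy e = y).card ≤ d - D := by
  classical
  induction D with
  | zero =>
    refine ⟨∅, empty_subset _, ?_, ?_, ?_⟩
    · intro v
      simp
    · intro y
      simp
    · intro y
      rw [sdiff_empty, Nat.sub_zero]
      exact hsym y
  | succ D ih =>
    obtain ⟨H, hHF, h1, h2, h3⟩ := ih (by omega)
    have hc : ∀ v, ((F \ H).filter fun e => e.2 = v).card = d - D := by
      intro v
      have h4 : ((F \ H).filter fun e => e.2 = v) =
          (F.filter fun e => e.2 = v) \ (H.filter fun e => e.2 = v) := by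
        ext e
        simp only [mem_filter, mem_sdiff]
        tauto
      rw [h4, card_sdiff_of_subset (filter_subset_filter _ hHF), hcol v, h1 v]
    obtain ⟨M, hMF, m1, m2, m3⟩ := exists_peel (F \ H) sy (d - D) (by omega) hc h3
    have hdisj : Disjoint H M := by
      rw [disjoint_left]
      intro e he he'
      exact (mem_sdiff.1 (hMF he')).2 he
    refine ⟨H ∪ M, union_subset hHF (hMF.trans sdiff_subset), ?_, ?_, ?_⟩
    · intro v
      rw [filter_union, card_union_of_disjoint (disjoint_filter_filter hdisj), h1, m1]
    · intro y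
      rw [filter_union, card_union_of_disjoint (disjoint_filter_filter hdisj)]
      have := h2 y
      have := m2 y
      omega
    · intro y
      have h4 : F \ (H ∪ M) = (F \ H) \ M := by
        ext e
        simp only [mem_sdiff, mem_union]
        tauto
      rw [h4]
      have := m3 y
      omega

end Pool.Agent.Rl45
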