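import Pool.Agent.Rl45.State
import Pool.Agent.Rl45.Portion

/-!
# The iteration
-/

open Finset

set_option autoImplicit false
set_option linter.unusedSectionVars false

namespace Pool.Agent.Rl45

variable {R V S : Type*} [Fintype R] [DecidableEq R] [Fintype V] [DecidableEq V]
  [Fintype S] [DecidableEq S]

variable {a : R → V → S} {N : ℕ} {T : Fin N → V → R} {F : Finset (R × V)} {d D : ℕ}

/-- One more transversal, when the uncovered cells have column degree `d ≥ D`. -/
theorem St.step (h : St a T F d Finset.univ) (ha : ∀ r, Function.Injective (a r))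
    (hV : 0 < Fintype.card V)
    (hD : Fintype.card V + (min (Fintype.card V) (Fintype.card S - Fintype.card V) - 1) ≤ D)
    (hN : Fintype.card V * D * (Fintype.card V - 1) < N) (hd : D ≤ d) :
    ∃ (T' : Fin (N + 1) → V → R) (F' : Finset (R × V)), St a T' F' (d - 1) Finset.univ := by
  classical
  obtain ⟨H, hHF, h1, h2, h3⟩ := exists_portion F (sm a) d h.col h.sym D hd
  have hst : St a T H D (Finset.univ \ (F \ H)) := by
    refine ⟨h.ri, h.si, h.di, ?_, ?_, h1, h2⟩
    · intro e
      simp only [mem_sdiff, mem_univ, true_and, not_and, not_not]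
      constructor
      · intro h4
        rcases (h.cov e).1 (mem_univ _) with h5 | h5
        · exact Or.inl (h4 h5)
        · exact Or.inr h5
      · rintro (h4 | ⟨i, h4⟩) h5
        · exact h4
        · exfalso
          have h6 : (T i e.2, e.2) = e := Prod.ext h4 rfl
          exact h.dj i e.2 (h6.symm ▸ h5)
    · exact fun i v h4 => h.dj i v (hHF h4)
  obtain ⟨T', H', h4⟩ := hst.core ha hV hD hN
  have hdisj : Disjoint H' (F \ H) := by
    rw [disjoint_left]
    intro e he he'
    have := (h4.cov e).2 (Or.inl he)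
    exact (mem_sdiff.1 this).2 he'
  refine ⟨T', H' ∪ (F \ H), h4.ri, h4.si, h4.di, ?_, ?_, ?_, ?_⟩
  · intro e
    refine ⟨fun _ => ?_, fun _ => mem_univ _⟩
    by_cases h5 : e ∈ F \ H
    · exact Or.inl (mem_union_right _ h5)
    · rcases (h4.cov e).1 (mem_sdiff.2 ⟨mem_univ _, h5⟩) with h6 | h6
      · exact Or.inl (mem_union_left _ h6)
      · exact Or.inr h6
  · intro i v h5
    rcases mem_union.1 h5 with h5 | h5
    · exact h4.dj i v h5
    · have := (h4.cov (T' i v, v)).2 (Or.inr ⟨i, rfl⟩)
      exact (mem_sdiff.1 this).2 h5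
  · intro v
    rw [filter_union, card_union_of_disjoint (disjoint_filter_filter hdisj), h4.col v]
    have h5 : ((F \ H).filter fun e => e.2 = v) =
        (F.filter fun e => e.2 = v) \ (H.filter fun e => e.2 = v) := by
      ext e
      simp only [mem_filter, mem_sdiff]
      tauto
    rw [h5, card_sdiff_of_subset (filter_subset_filter _ hHF), h.col v, h1 v]
    omega
  · intro y
    rw [filter_union, card_union_of_disjoint (disjoint_filter_filter hdisj)]
    have h5 := h4.sym y
    have h6 := h3 y
    omega

/-- The iteration. -/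
theorem St.iterate (ha : ∀ r, Function.Injective (a r)) (hV : 0 < Fintype.card V)
    (hD : Fintype.card V + (min (Fintype.card V) (Fintype.card S - Fintype.card V) - 1) ≤ D)
    (j : ℕ) : ∀ (N : ℕ) (T : Fin N → V → R) (F : Finset (R × V)),
    Fintype.card V * D * (Fintype.card V - 1) < N →
    St a T F (D - 1 + j) Finset.univ →
    ∃ (N' : ℕ) (T' : Fin N' → V → R) (F' : Finset (R × V)), N' = N + j ∧
      St a T' F' (D - 1) Finset.univ := by
  induction j with
  | zero =>
    intro N T F _ h
    exact ⟨N, T, F, rfl, h⟩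
  | succ j ih =>
    intro N T F hN h
    obtain ⟨T₁, F₁, h1⟩ := h.step ha hV hD hN (by omega)
    obtain ⟨N', T', F', h2, h3⟩ := ih (N + 1) T₁ F₁ (by omega) (by
      have : D - 1 + (j + 1) - 1 = D - 1 + j := by omega
      exact this ▸ h1)
    exact ⟨N', T', F', by omega, h3⟩

end Pool.Agent.Rl45
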