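import Pool.Agent.Rl45.Reach

/-!
# From closed rainbow walks to simple closed sets of cells
-/

open Finset

set_option autoImplicit false
set_option linter.unusedSectionVars false

namespace Pool.Agent.Rl45

variable {R V : Type*} [Fintype R] [DecidableEq R] [Fintype V] [DecidableEq V]

/-- arcs: the cells of `W`, and the uncoloured arcs that leave the hub -/
inductive Arc (W : Finset (R × V)) (hd : R × V → Option V) (s : V → ℕ) :
    Option V → Option V → Prop
  | cell {r : R} {x : V} (h : (r, x) ∈ W) : Arc W hd s (some x) (hd (r, x))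
  | virt {v : V} (h : 0 < s v) : Arc W hd s none (some v)

theorem Arc.mono {W W' : Finset (R × V)} {hd : R × V → Option V} {s : V → ℕ} (h : W ⊆ W')
    {u u' : Option V} (ha : Arc W hd s u u') : Arc W' hd s u u' := by
  cases ha with
  | cell h1 => exact Arc.cell (h h1)
  | virt h1 => exact Arc.virt h1

/-- reachability -/
def Rc (W : Finset (R × V)) (hd : R × V → Option V) (s : V → ℕ) : Option V → Option V → Prop :=
  Relation.ReflTransGen (Arc W hd s)

theorem Rc.mono {W W' : Finset (R × V)} {hd : R × V → Option V} {s : V → ℕ} (h : W ⊆ W')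
    {u u' : Option V} (ha : Rc W hd s u u') : Rc W' hd s u u' :=
  Relation.ReflTransGen.mono (fun _ _ => Arc.mono h) _ _ ha

theorem Rc.trans {W : Finset (R × V)} {hd : R × V → Option V} {s : V → ℕ}
    {u u' u'' : Option V} (h : Rc W hd s u u') (h' : Rc W hd s u' u'') : Rc W hd s u u'' :=
  Relation.ReflTransGen.trans h h'

theorem Rc.refl {W : Finset (R × V)} {hd : R × V → Option V} {s : V → ℕ}
    {u : Option V} : Rc W hd s u u := Relation.ReflTransGen.refl

theorem Rc.of_arc {W : Finset (R × V)} {hd : R × V → Option V} {s : V → ℕ}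
    {u u' : Option V} (h : Arc W hd s u u') : Rc W hd s u u' := Relation.ReflTransGen.single h

theorem Rc.of_cell {W : Finset (R × V)} {hd : R × V → Option V} {s : V → ℕ}
    {e : R × V} (h : e ∈ W) : Rc W hd s (some e.2) (hd e) :=
  Rc.of_arc (Arc.cell (r := e.1) (x := e.2) h)

/-- A closed set of cells: a simple closed walk, possibly through the hub. -/
structure CSet (hd : R × V → Option V) (s : V → ℕ) (C : Finset (R × V)) : Prop where
  rb : ∀ e ∈ C, ∀ e' ∈ C, e.1 = e'.1 → e = e'
  tl : ∀ e ∈ C, ∀ e' ∈ C, e.2 = e'.2 → e = e'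
  hdi : ∀ e ∈ C, ∀ e' ∈ C, hd e = hd e' → e = e'
  cl : ∀ e ∈ C, ∀ v, hd e = some v → ∃ e' ∈ C, e'.2 = v
  st : ∀ e ∈ C, (∀ e' ∈ C, hd e' ≠ some e.2) → 0 < s e.2

/-- A simple path from `a`: end vertex, set of visited vertices, set of cells. -/
inductive SP (W : Finset (R × V)) (hd : R × V → Option V) (s : V → ℕ) (a : Option V) :
    Option V → Finset (Option V) → Finset (R × V) → Prop
  | nil : SP W hd s a a {a} ∅
  | cell {X : Finset (Option V)} {C : Finset (R × V)} {r : R} {x : V}
      (h : SP W hd s a (some x) X C) (h1 : (r, x) ∈ W) (h2 : hd (r, x) ∉ X) :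
      SP W hd s a (hd (r, x)) (insert (hd (r, x)) X) (insert (r, x) C)
  | virt {X : Finset (Option V)} {C : Finset (R × V)} {v : V}
      (h : SP W hd s a none X C) (h1 : 0 < s v) (h2 : some v ∉ X) :
      SP W hd s a (some v) (insert (some v) X) C

/-- invariants of a simple path -/
structure Inv (W : Finset (R × V)) (hd : R × V → Option V) (s : V → ℕ) (a b : Option V)
    (X : Finset (Option V)) (C : Finset (R × V)) : Prop where
  amem : a ∈ X
  bmem : b ∈ X
  sub : C ⊆ W
  tailmem : ∀ e ∈ C, some e.2 ∈ X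
  tailne : ∀ e ∈ C, some e.2 ≠ b
  headmem : ∀ e ∈ C, hd e ∈ X
  headne : ∀ e ∈ C, hd e ≠ a
  tl : ∀ e ∈ C, ∀ e' ∈ C, e.2 = e'.2 → e = e'
  hdi : ∀ e ∈ C, ∀ e' ∈ C, hd e = hd e' → e = e'
  out : ∀ v, some v ∈ X → some v ≠ b → ∃ e ∈ C, e.2 = v
  inn : ∀ v, some v ∈ X → some v ≠ a → (∃ e ∈ C, hd e = some v) ∨ 0 < s v

variable {W : Finset (R × V)} {hd : R × V → Option V} {s : V → ℕ}

theorem SP.inv {a b : Option V} {X : Finset (Option V)} {C : Finset (R × V)}
    (h : SP W hd s a b X C) : Inv W hd s a b X C := by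
  induction h with
  | nil =>
    refine ⟨by simp, by simp, by simp, by simp, by simp, by simp, by simp, by simp, by simp,
      ?_, ?_⟩
    · intro v h1 h2
      exact absurd (by simpa using h1) h2
    · intro v h1 h2
      exact absurd (by simpa using h1) h2
  | @cell X C r x h h1 h2 ih =>
    have hne : ∀ e ∈ C, e.2 ≠ x := fun e he h3 => ih.tailne e he (by rw [h3])
    have hxb : some x ≠ hd (r, x) := fun h3 => h2 (h3 ▸ ih.bmem)
    refine ⟨mem_insert_of_mem ih.amem, mem_insert_self _ _, ?_, ?_, ?_, ?_, ?_, ?_, ?_, ?_, ?_⟩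
    · intro e he
      rcases mem_insert.1 he with rfl | he
      · exact h1
      · exact ih.sub he
    · intro e he
      rcases mem_insert.1 he with rfl | he
      · exact mem_insert_of_mem ih.bmem
      · exact mem_insert_of_mem (ih.tailmem e he)
    · intro e he
      rcases mem_insert.1 he with rfl | he
      · exact hxb
      · intro h3
        exact h2 (h3 ▸ ih.tailmem e he)
    · intro e he
      rcases mem_insert.1 he with rfl | he
      · exact mem_insert_self _ _
      · exact mem_insert_of_mem (ih.headmem e he)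
    · intro e he
      rcases mem_insert.1 he with rfl | he
      · intro h3
        exact h2 (h3 ▸ ih.amem)
      · exact ih.headne e he
    · intro e he e' he' h3
      rcases mem_insert.1 he with rfl | he <;> rcases mem_insert.1 he' with rfl | he'
      · rfl
      · exact absurd h3.symm (hne e' he')
      · exact absurd h3 (hne e he)
      · exact ih.tl e he e' he' h3
    · intro e he e' he' h3
      rcases mem_insert.1 he with rfl | he <;> rcases mem_insert.1 he' with rfl | he'
      · rfl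
      · exact absurd (ih.headmem e' he') (h3 ▸ h2)
      · exact absurd (ih.headmem e he) (h3.symm ▸ h2)
      · exact ih.hdi e he e' he' h3
    · intro v h3 h4
      rcases mem_insert.1 h3 with h3 | h3
      · exact absurd h3 h4
      · by_cases h5 : (some v : Option V) = some x
        · exact ⟨(r, x), mem_insert_self _ _, (Option.some.inj h5).symm⟩
        · obtain ⟨e, he, h6⟩ := ih.out v h3 h5
          exact ⟨e, mem_insert_of_mem he, h6⟩
    · intro v h3 h4
      rcases mem_insert.1 h3 with h3 | h3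
      · exact Or.inl ⟨(r, x), mem_insert_self _ _, h3.symm⟩
      · rcases ih.inn v h3 h4 with ⟨e, he, h6⟩ | h6
        · exact Or.inl ⟨e, mem_insert_of_mem he, h6⟩
        · exact Or.inr h6
  | @virt X C v h h1 h2 ih =>
    refine ⟨mem_insert_of_mem ih.amem, mem_insert_self _ _, ih.sub,
      fun e he => mem_insert_of_mem (ih.tailmem e he), ?_,
      fun e he => mem_insert_of_mem (ih.headmem e he), ih.headne, ih.tl, ih.hdi, ?_, ?_⟩
    · intro e he h3
      exact h2 (h3 ▸ ih.tailmem e he)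
    · intro w h3 h4
      rcases mem_insert.1 h3 with h3 | h3
      · exact absurd h3 h4
      · exact ih.out w h3 (by simp)
    · intro w h3 h4
      rcases mem_insert.1 h3 with h3 | h3
      · rw [Option.some.inj h3]
        exact Or.inr h1
      · exact ih.inn w h3 h4

theorem SP.initialPart {a b : Option V} {X : Finset (Option V)} {C : Finset (R × V)}
    (h : SP W hd s a b X C) {u : Option V} (hu : u ∈ X) :
    ∃ X' C', SP W hd s a u X' C' := by
  induction h with
  | nil =>
    rw [mem_singleton] at hu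
    subst hu
    exact ⟨_, _, SP.nil⟩
  | @cell X C r x h h1 h2 ih =>
    rcases mem_insert.1 hu with rfl | hu
    · exact ⟨_, _, SP.cell h h1 h2⟩
    · exact ih hu
  | @virt X C v h h1 h2 ih =>
    rcases mem_insert.1 hu with rfl | hu
    · exact ⟨_, _, SP.virt h h1 h2⟩
    · exact ih hu

theorem exists_SP {a b : Option V} (h : Rc W hd s a b) : ∃ X C, SP W hd s a b X C := by
  induction h with
  | refl => exact ⟨_, _, SP.nil⟩
  | @tail u u' _ h2 ih =>
    obtain ⟨X, C, h3⟩ := ih
    by_cases h4 : u' ∈ X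
    · exact h3.initialPart h4
    · cases h2 with
      | cell h5 => exact ⟨_, _, SP.cell h3 h5 h4⟩
      | virt h5 => exact ⟨_, _, SP.virt h3 h5 h4⟩

/-- A cell of a rainbow set `W` whose head reaches its tail lies in a closed set. -/
theorem exists_CSet (hW : ∀ e ∈ W, ∀ e' ∈ W, e.1 = e'.1 → e = e') {e₀ : R × V} (he₀ : e₀ ∈ W)
    (h : Rc W hd s (hd e₀) (some e₀.2)) : ∃ C ⊆ W, e₀ ∈ C ∧ CSet hd s C := by
  obtain ⟨X, C, hSP⟩ := exists_SP h
  have hi := hSP.inv
  have hsub : insert e₀ C ⊆ W := by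
    intro e he
    rcases mem_insert.1 he with rfl | he
    · exact he₀
    · exact hi.sub he
  have hne : ∀ e ∈ C, e.2 ≠ e₀.2 := fun e he h3 => hi.tailne e he (by rw [h3])
  refine ⟨insert e₀ C, hsub, mem_insert_self _ _,
    ⟨fun e he e' he' => hW e (hsub he) e' (hsub he'), ?_, ?_, ?_, ?_⟩⟩
  · intro e he e' he' h3
    rcases mem_insert.1 he with h5 | h5 <;> rcases mem_insert.1 he' with h6 | h6
    · rw [h5, h6]
    · exact absurd (h5 ▸ h3.symm) (hne e' h6)
    · exact absurd (h6 ▸ h3) (hne e h5)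
    · exact hi.tl e h5 e' h6 h3
  · intro e he e' he' h3
    rcases mem_insert.1 he with h5 | h5 <;> rcases mem_insert.1 he' with h6 | h6
    · rw [h5, h6]
    · exact absurd (h5 ▸ h3.symm) (hi.headne e' h6)
    · exact absurd (h6 ▸ h3) (hi.headne e h5)
    · exact hi.hdi e h5 e' h6 h3
  · intro e he v hv
    have hvX : some v ∈ X := by
      rcases mem_insert.1 he with rfl | he
      · exact hv ▸ hi.amem
      · exact hv ▸ hi.headmem e he
    by_cases h4 : (some v : Option V) = some e₀.2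
    · exact ⟨e₀, mem_insert_self _ _, (Option.some.inj h4).symm⟩
    · obtain ⟨e', he', h5⟩ := hi.out v hvX h4
      exact ⟨e', mem_insert_of_mem he', h5⟩
  · intro e he h3
    have heX : some e.2 ∈ X := by
      rcases mem_insert.1 he with rfl | he
      · exact hi.bmem
      · exact hi.tailmem e he
    have hea : some e.2 ≠ hd e₀ := fun h4 => h3 e₀ (mem_insert_self _ _) h4.symm
    rcases hi.inn e.2 heX hea with ⟨e', he', h5⟩ | h5
    · exact absurd h5 (h3 e' (mem_insert_of_mem he'))
    · exact h5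

variable {H : Finset (R × V)} {Q : Finset (Option V)}

/-- The cells of a rainbow walk. -/
theorem Rch.exists_set {L : Finset R} {u : Option V} (h : Rch H hd s Q L u) :
    ∃ W ⊆ H, (∀ e ∈ W, e.1 ∈ L) ∧ (∀ e ∈ W, ∀ e' ∈ W, e.1 = e'.1 → e = e') ∧
      (∃ q ∈ Q, Rc W hd s q u) ∧
      ∀ e ∈ W, Rc W hd s (hd e) u ∧ ∃ q ∈ Q, Rc W hd s q (some e.2) := by
  induction h with
  | @qcell r x h1 h2 h3 =>
    refine ⟨{(r, x)}, by simpa using h1, by simp, by simp, ⟨some x, h2, ?_⟩, ?_⟩
    · exact Rc.of_cell (e := (r, x)) (mem_singleton_self _)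
    · intro e he
      rw [mem_singleton] at he
      subst he
      exact ⟨Rc.refl, some x, h2, Rc.refl⟩
  | @qvirt v h1 h2 h3 =>
    exact ⟨∅, empty_subset _, by simp, by simp, ⟨none, h1, Rc.of_arc (Arc.virt h2)⟩, by simp⟩
  | @cell L r x h h1 h2 h3 ih =>
    obtain ⟨W, a1, a2, a3, ⟨q, hq, a4⟩, a5⟩ := ih
    have hsub : W ⊆ insert (r, x) W := subset_insert _ _
    have hlast : Rc (insert (r, x) W) hd s (some x) (hd (r, x)) :=
      Rc.of_cell (e := (r, x)) (mem_insert_self _ _)
    refine ⟨insert (r, x) W, ?_, ?_, ?_, ⟨q, hq, (a4.mono hsub).trans hlast⟩, ?_⟩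
    · intro e he
      rcases mem_insert.1 he with rfl | he
      · exact h1
      · exact a1 he
    · intro e he
      rcases mem_insert.1 he with rfl | he
      · exact mem_insert_self _ _
      · exact mem_insert_of_mem (a2 e he)
    · intro e he e' he' h4
      rcases mem_insert.1 he with rfl | he <;> rcases mem_insert.1 he' with rfl | he'
      · rfl
      · exact absurd (a2 e' he') (h4 ▸ h2)
      · exact absurd (a2 e he) (by rw [h4]; exact h2)
      · exact a3 e he e' he' h4
    · intro e he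
      rcases mem_insert.1 he with rfl | he
      · exact ⟨Rc.refl, q, hq, a4.mono hsub⟩
      · obtain ⟨a6, q', hq', a7⟩ := a5 e he
        exact ⟨(a6.mono hsub).trans hlast, q', hq', a7.mono hsub⟩
  | @virt L v h h2 h3 ih =>
    obtain ⟨W, a1, a2, a3, ⟨q, hq, a4⟩, a5⟩ := ih
    have hlast : Rc W hd s none (some v) := Rc.of_arc (Arc.virt h2)
    exact ⟨W, a1, a2, a3, ⟨q, hq, a4.trans hlast⟩,
      fun e he => ⟨(a5 e he).1.trans hlast, (a5 e he).2⟩⟩

/-- the free cells: the only cells of their rows -/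
def Fr (H : Finset (R × V)) : Finset (R × V) := H.filter fun e => ∀ e' ∈ H, e'.1 = e.1 → e' = e

theorem mem_Fr {e : R × V} : e ∈ Fr H ↔ e ∈ H ∧ ∀ e' ∈ H, e'.1 = e.1 → e' = e := mem_filter

theorem Fr_subset : Fr H ⊆ H := filter_subset _ _

/-- If `Q` is a strong component of the free digraph and `Q` is not blocked, some cell which is
not free lies in a rainbow closed set. -/
theorem exists_closed_of_not_blocked (hQ1 : ∀ u ∈ Q, ∀ u' ∈ Q, Rc (Fr H) hd s u u')
    (hQ2 : ∀ q ∈ Q, ∀ q' ∈ Q, ∀ u, Rc (Fr H) hd s q u → Rc (Fr H) hd s u q' → u ∈ Q)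
    (hB : ¬ Blocked H hd s Q) :
    ∃ C ⊆ H, (∃ e ∈ C, e ∉ Fr H) ∧ CSet hd s C := by
  -- a rainbow set `W` with a closed walk through a vertex `u ∉ Q`
  have key : ∃ W ⊆ H, (∀ e ∈ W, ∀ e' ∈ W, e.1 = e'.1 → e = e') ∧
      ∃ u, u ∉ Q ∧ (∃ q ∈ Q, Rc W hd s q u) ∧ (∃ q ∈ Q, Rc W hd s u q) ∧
      ∀ e ∈ W, (∃ q ∈ Q, Rc W hd s (hd e) q) ∧ ∃ q ∈ Q, Rc W hd s q (some e.2) := by
    by_contra hcon
    apply hB
    refine ⟨?_, ?_⟩
    · intro L x r h h1 h2 h3
      apply hcon
      obtain ⟨W, a1, a2, a3, ⟨q, hq, a4⟩, a5⟩ := h.exists_set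
      have hsub : W ⊆ insert (r, x) W := subset_insert _ _
      have hlast : Rc (insert (r, x) W) hd s (some x) (hd (r, x)) :=
        Rc.of_cell (e := (r, x)) (mem_insert_self _ _)
      refine ⟨insert (r, x) W, ?_, ?_, some x, h.notMem, ⟨q, hq, a4.mono hsub⟩,
        ⟨_, h3, hlast⟩, ?_⟩
      · intro e he
        rcases mem_insert.1 he with rfl | he
        · exact h1
        · exact a1 he
      · intro e he e' he' h4
        rcases mem_insert.1 he with rfl | he <;> rcases mem_insert.1 he' with rfl | he'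
        · rfl
        · exact absurd (a2 e' he') (h4 ▸ h2)
        · exact absurd (a2 e he) (by rw [h4]; exact h2)
        · exact a3 e he e' he' h4
      · intro e he
        rcases mem_insert.1 he with rfl | he
        · exact ⟨⟨_, h3, Rc.refl⟩, q, hq, a4.mono hsub⟩
        · obtain ⟨a6, q', hq', a7⟩ := a5 e he
          exact ⟨⟨_, h3, (a6.mono hsub).trans hlast⟩, q', hq', a7.mono hsub⟩
    · intro L v h h1 h3
      apply hcon
      obtain ⟨W, a1, a2, a3, ⟨q, hq, a4⟩, a5⟩ := h.exists_set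
      have hlast : Rc W hd s none (some v) := Rc.of_arc (Arc.virt h1)
      exact ⟨W, a1, a3, none, h.notMem, ⟨q, hq, a4⟩, ⟨_, h3, hlast⟩,
        fun e he => ⟨⟨_, h3, (a5 e he).1.trans hlast⟩, (a5 e he).2⟩⟩
  obtain ⟨W, b1, b2, u, hu, ⟨q, hq, b3⟩, ⟨q', hq', b4⟩, b5⟩ := key
  -- some cell of `W` is not free
  have hex : ∃ e ∈ W, e ∉ Fr H := by
    by_contra hcon
    push Not at hcon
    exact hu (hQ2 q hq q' hq' u (b3.mono hcon) (b4.mono hcon))
  obtain ⟨e₀, he₀, hf⟩ := hex
  obtain ⟨⟨q₁, hq₁, b6⟩, q₂, hq₂, b7⟩ := b5 e₀ he₀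
  have hrb : ∀ e ∈ W ∪ Fr H, ∀ e' ∈ W ∪ Fr H, e.1 = e'.1 → e = e' := by
    intro e he e' he' h
    rw [mem_union] at he he'
    rcases he with he | he
    · rcases he' with he' | he'
      · exact b2 e he e' he' h
      · exact (mem_Fr.1 he').2 e (b1 he) h
    · rcases he' with he' | he'
      · exact ((mem_Fr.1 he).2 e' (b1 he') h.symm).symm
      · exact (mem_Fr.1 he').2 e (Fr_subset he) h
  have hwalk : Rc (W ∪ Fr H) hd s (hd e₀) (some e₀.2) :=
    ((b6.mono subset_union_left).trans ((hQ1 q₁ hq₁ q₂ hq₂).mono subset_union_right)).trans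
      (b7.mono subset_union_left)
  obtain ⟨C, c1, c2, c3⟩ := exists_CSet hrb (mem_union_left _ he₀) hwalk
  refine ⟨C, c1.trans (union_subset b1 Fr_subset), ⟨e₀, c2, hf⟩, c3⟩

/-- A cell inside a strong component of the free digraph is free, or it lies in a rainbow closed
set. -/
theorem exists_closed_of_inner (hQ1 : ∀ u ∈ Q, ∀ u' ∈ Q, Rc (Fr H) hd s u u') {e : R × V}
    (he : e ∈ H) (hf : e ∉ Fr H) (h1 : some e.2 ∈ Q) (h2 : hd e ∈ Q) :
    ∃ C ⊆ H, (∃ e ∈ C, e ∉ Fr H) ∧ CSet hd s C := by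
  have hrb : ∀ e₁ ∈ insert e (Fr H), ∀ e₂ ∈ insert e (Fr H), e₁.1 = e₂.1 → e₁ = e₂ := by
    intro e₁ he₁ e₂ he₂ h
    rcases mem_insert.1 he₁ with h3 | h3 <;> rcases mem_insert.1 he₂ with h4 | h4
    · rw [h3, h4]
    · exact (mem_Fr.1 h4).2 e₁ (h3 ▸ he) h
    · exact ((mem_Fr.1 h3).2 e₂ (h4 ▸ he) h.symm).symm
    · exact (mem_Fr.1 h4).2 e₁ (Fr_subset h3) h
  obtain ⟨C, c1, c2, c3⟩ := exists_CSet hrb (mem_insert_self _ _)
    ((hQ1 _ h2 _ h1).mono (subset_insert _ _))
  refine ⟨C, c1.trans ?_, ⟨e, c2, hf⟩, c3⟩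
  intro e' he'
  rcases mem_insert.1 he' with rfl | he'
  · exact he
  · exact Fr_subset he'

end Pool.Agent.Rl45
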