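import Pool.Agent.Rl45.Menger
import Pool.Agent.Rl45.Walk

/-!
# A transversal of free cells
-/

open Finset

set_option autoImplicit false
set_option linter.unusedSectionVars false

namespace Pool.Agent.Rl45

variable {R V S : Type*} [Fintype R] [DecidableEq R] [Fintype V] [DecidableEq V]
  [Fintype S] [DecidableEq S]

/-- the head of a cell -/
def hed (sy : R × V → S) (nd : S → Option V) (e : R × V) : Option V := nd (sy e)

/-- A balanced configuration of cells `H` with symbols `sy`; `nd` is the vertex of a symbol. -/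
structure Cfg (H : Finset (R × V)) (sy : R × V → S) (nd : S → Option V) (s : V → ℕ) (D : ℕ)
    (W : Finset V) (w : ℕ) : Prop where
  col : ∀ v, (H.filter fun e => e.2 = v).card = D
  ind : ∀ v, (H.filter fun e => nd (sy e) = some v).card + s v = D
  sym : ∀ y, (H.filter fun e => sy e = y).card ≤ D
  lat : ∀ e ∈ H, ∀ e' ∈ H, e.1 = e'.1 → sy e = sy e' → e = e'
  inj : ∀ y y' v, nd y = some v → nd y' = some v → y = y'
  hub : HubOnly H (hed sy nd) s W
  wb : ∀ r, (H.filter fun e => e.1 = r ∧ nd (sy e) = none).card ≤ W.card + w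

variable {H : Finset (R × V)} {sy : R × V → S} {nd : S → Option V} {s : V → ℕ} {D w : ℕ}
  {W : Finset V}

theorem Cfg.prop (h : Cfg H sy nd s D W w) : ∀ e ∈ H, ∀ e' ∈ H, e.1 = e'.1 →
    hed sy nd e = hed sy nd e' → hed sy nd e ≠ none → e = e' := by
  intro e he e' he' h1 h2 h3
  obtain ⟨v, hv⟩ := Option.ne_none_iff_exists'.1 h3
  exact h.lat e he e' he' h1 (h.inj _ _ v hv (h2.symm.trans hv))

/-- the balance of a set of vertices -/
theorem Cfg.balance (h : Cfg H sy nd s D W w) (Q : Finset (Option V)) :
    (H.filter fun e => some e.2 ∈ Q).card + (if none ∈ Q then ∑ v, s v else 0) =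
      (H.filter fun e => hed sy nd e ∈ Q).card +
        ∑ v ∈ Finset.univ.filter (fun v : V => some v ∈ Q), s v := by
  have e1 : (H.filter fun e => some e.2 ∈ Q).card =
      ∑ v ∈ Finset.univ.filter (fun v : V => some v ∈ Q), D := by
    rw [card_eq_sum_card_fiberwise (f := Prod.snd) (t := Finset.univ.filter fun v => some v ∈ Q)
      (fun e he => by
        rw [mem_coe, mem_filter] at he ⊢
        exact ⟨mem_univ _, he.2⟩)]
    refine sum_congr rfl fun v hv => ?_
    rw [← h.col v, filter_filter]
    congr 1
    refine filter_congr fun e _ => ?_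
    constructor
    · exact fun h => h.2
    · exact fun h => ⟨by rw [h]; exact (mem_filter.1 hv).2, h⟩
  have e3 : (H.filter fun e => hed sy nd e ∈ Q).card =
      (∑ v ∈ Finset.univ.filter (fun v : V => some v ∈ Q),
        (H.filter fun e => hed sy nd e = some v).card)
      + if none ∈ Q then (H.filter fun e => hed sy nd e = none).card else 0 := by
    rw [card_eq_sum_card_fiberwise (f := hed sy nd) (t := Finset.univ) (fun _ _ => mem_univ _),
      Fintype.sum_option, add_comm]
    congr 1
    · rw [sum_filter]
      refine sum_congr rfl fun v _ => ?_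
      split_ifs with h
      · rw [filter_filter]
        congr 1
        refine filter_congr fun e _ => ?_
        constructor
        · exact fun h => h.2
        · exact fun h' => ⟨by rw [h']; exact h, h'⟩
      · rw [card_eq_zero, Finset.eq_empty_iff_forall_notMem]
        intro e he
        rw [mem_filter, mem_filter] at he
        exact h (he.2 ▸ he.1.2)
    · split_ifs with h
      · rw [filter_filter]
        congr 1
        refine filter_congr fun e _ => ?_
        constructor
        · exact fun h => h.2
        · exact fun h' => ⟨by rw [h']; exact h, h'⟩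
      · rw [card_eq_zero, Finset.eq_empty_iff_forall_notMem]
        intro e he
        rw [mem_filter, mem_filter] at he
        exact h (he.2 ▸ he.1.2)
  have e4 : (∑ v ∈ Finset.univ.filter (fun v : V => some v ∈ Q),
      (H.filter fun e => hed sy nd e = some v).card) +
      ∑ v ∈ Finset.univ.filter (fun v : V => some v ∈ Q), s v =
      ∑ v ∈ Finset.univ.filter (fun v : V => some v ∈ Q), D := by
    rw [← sum_add_distrib]
    exact sum_congr rfl fun v _ => h.ind v
  have hbal := hub_balance (H := H) (hd := hed sy nd) (s := s) h.col h.ind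
  rw [e1, e3, ← e4]
  split_ifs
  · rw [hbal]
    ring
  · ring

theorem Cfg.in_le_out (h : Cfg H sy nd s D W w) (Q : Finset (Option V)) :
    (H.filter fun e => some e.2 ∉ Q ∧ hed sy nd e ∈ Q).card ≤ outQ H (hed sy nd) s Q := by
  have h1 := h.balance Q
  have e5 : (H.filter fun e => some e.2 ∈ Q).card =
      (H.filter fun e => some e.2 ∈ Q ∧ hed sy nd e ∉ Q).card +
      (H.filter fun e => some e.2 ∈ Q ∧ hed sy nd e ∈ Q).card := by
    rw [← card_union_of_disjoint]
    · congr 1
      ext e
      simp only [mem_filter, mem_union]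
      tauto
    · rw [disjoint_left]
      intro e h1 h2
      rw [mem_filter] at h1 h2
      exact h1.2.2 h2.2.2
  have e6 : (H.filter fun e => hed sy nd e ∈ Q).card =
      (H.filter fun e => some e.2 ∉ Q ∧ hed sy nd e ∈ Q).card +
      (H.filter fun e => some e.2 ∈ Q ∧ hed sy nd e ∈ Q).card := by
    rw [← card_union_of_disjoint]
    · congr 1
      ext e
      simp only [mem_filter, mem_union]
      tauto
    · rw [disjoint_left]
      intro e h1 h2
      rw [mem_filter] at h1 h2
      exact h1.2.1 h2.2.1
  unfold outQ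
  have e7 : ∑ v, s v = ∑ v ∈ Finset.univ.filter (fun v : V => some v ∈ Q), s v +
      ∑ v ∈ Finset.univ.filter (fun v : V => some v ∉ Q), s v :=
    (sum_filter_add_sum_filter_not _ _ _).symm
  split_ifs at h1 ⊢ <;> omega

theorem cnt_Re_le {Q : Finset (Option V)} {hd : R × V → Option V} (L : Finset R) :
    cnt (Re H hd s Q L) ≤ ((Finset.univ : Finset V).filter fun v => some v ∉ Q).card :=
  card_le_card (fun v hv => by
    rw [mem_filter] at hv ⊢
    exact ⟨hv.1, Re_notMem hv.2⟩)

theorem cnt_add (Q : Finset (Option V)) :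
    cnt Q + ((Finset.univ : Finset V).filter fun v => some v ∉ Q).card = Fintype.card V := by
  unfold cnt
  rw [card_filter_add_card_filter_not, card_univ]

/-- Few arcs leave a blocked set of vertices. -/
theorem Cfg.out_lt (h : Cfg H sy nd s D W w) {Q : Finset (Option V)} (hQ : Q.Nonempty)
    (hB : Blocked H (hed sy nd) s Q) (hV : 0 < Fintype.card V)
    (hD : Fintype.card V + (w - 1) ≤ D) : outQ H (hed sy nd) s Q < D := by
  by_cases hn : none ∈ Q
  · have h1 := rm_le (hd := hed sy nd) (w := 0) (W := ∅) HubOnly.empty h.col h.ind h.prop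
      (fun h0 => absurd hn h0) hB
    have h2 : cnt (Re H (hed sy nd) s Q ∅) + outQ H (hed sy nd) s Q ≤
        cnt (Re H (hed sy nd) s Q Finset.univ) := by
      have h3 : ((cnt (Re H (hed sy nd) s Q ∅) + outQ H (hed sy nd) s Q : ℕ) : ℝ) ≤
          cnt (Re H (hed sy nd) s Q Finset.univ) := by
        push_cast at h1 ⊢
        linarith
      exact_mod_cast h3
    have h4 : cnt (Re H (hed sy nd) s Q Finset.univ) ≤ _ := cnt_Re_le _
    have h5 := cnt_add Q
    by_cases hex : ∃ v, some v ∈ Q ∨ 0 < s v
    · obtain ⟨v, hv⟩ := hex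
      by_cases hvQ : some v ∈ Q
      · have h6 : 0 < cnt Q := card_pos.2 ⟨v, mem_filter.2 ⟨mem_univ _, hvQ⟩⟩
        omega
      · have hsv : 0 < s v := hv.resolve_left hvQ
        have h6 : 0 < cnt (Re H (hed sy nd) s Q ∅) :=
          card_pos.2 ⟨v, mem_filter.2 ⟨mem_univ _, Re_virt (Or.inl hn) hsv hvQ⟩⟩
        omega
    · push Not at hex
      have h6 : outQ H (hed sy nd) s Q = 0 := by
        unfold outQ
        rw [if_pos hn, Nat.add_eq_zero_iff]
        constructor
        · rw [card_eq_zero, eq_empty_iff_forall_notMem]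
          intro e he
          rw [mem_filter] at he
          exact (hex e.2).1 he.2.1
        · exact sum_eq_zero fun v _ => Nat.le_zero.1 (hex v).2
      omega
  · have hc : 0 < cnt Q := by
      obtain ⟨q, hq⟩ := hQ
      rcases q with _ | v
      · exact absurd hq hn
      · exact card_pos.2 ⟨v, mem_filter.2 ⟨mem_univ _, hq⟩⟩
    have h4 : cnt (Re H (hed sy nd) s Q Finset.univ) ≤ _ := cnt_Re_le _
    have h5 := cnt_add Q
    rcases Nat.eq_zero_or_pos w with hw | hw
    · subst hw
      have h1 := rm_le (hd := hed sy nd) (w := 0) h.hub h.col h.ind h.prop (fun _ => h.wb) hB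
      have h2 : cnt (Re H (hed sy nd) s Q ∅) + outQ H (hed sy nd) s Q ≤
          cnt (Re H (hed sy nd) s Q Finset.univ) := by
        have h3 : ((cnt (Re H (hed sy nd) s Q ∅) + outQ H (hed sy nd) s Q : ℕ) : ℝ) ≤
            cnt (Re H (hed sy nd) s Q Finset.univ) := by
          push_cast at h1 ⊢
          linarith
        exact_mod_cast h3
      omega
    · have h1 := rm_lt (hd := hed sy nd) h.hub h.col h.ind h.prop (fun _ => h.wb) hB hn hw
      omega

/-- the strong component of a vertex in the free digraph -/
noncomputable def comp (H : Finset (R × V)) (hd : R × V → Option V) (s : V → ℕ) (u : Option V) :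
    Finset (Option V) := by
  classical
  exact Finset.univ.filter fun u' => Rc (Fr H) hd s u u' ∧ Rc (Fr H) hd s u' u

variable {hd : R × V → Option V}

theorem mem_comp {u u' : Option V} :
    u' ∈ comp H hd s u ↔ Rc (Fr H) hd s u u' ∧ Rc (Fr H) hd s u' u := by
  unfold comp
  simp

theorem self_mem_comp (u : Option V) : u ∈ comp H hd s u := mem_comp.2 ⟨Rc.refl, Rc.refl⟩

theorem comp_eq {u u' : Option V} (h : u' ∈ comp H hd s u) : comp H hd s u' = comp H hd s u := by
  rw [mem_comp] at h
  ext x
  rw [mem_comp, mem_comp]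
  constructor
  · exact fun h1 => ⟨h.1.trans h1.1, h1.2.trans h.2⟩
  · exact fun h1 => ⟨h.2.trans h1.1, h1.2.trans h.1⟩

theorem mem_comp_iff {u u' : Option V} :
    u' ∈ comp H hd s u ↔ comp H hd s u' = comp H hd s u := by
  constructor
  · exact comp_eq
  · intro h
    rw [← h]
    exact self_mem_comp u'

theorem comp_conn {u x y : Option V} (hx : x ∈ comp H hd s u) (hy : y ∈ comp H hd s u) :
    Rc (Fr H) hd s x y := by
  rw [mem_comp] at hx hy
  exact hx.2.trans hy.1

theorem comp_conv {u x y z : Option V} (hx : x ∈ comp H hd s u) (hy : y ∈ comp H hd s u)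
    (h1 : Rc (Fr H) hd s x z) (h2 : Rc (Fr H) hd s z y) : z ∈ comp H hd s u := by
  rw [mem_comp] at hx hy ⊢
  exact ⟨hx.1.trans h1, h2.trans hy.2⟩

/-- There is no rainbow closed set with a cell that is not free. -/
def NoExchange (H : Finset (R × V)) (hd : R × V → Option V) (s : V → ℕ) : Prop :=
  ∀ C ⊆ H, CSet hd s C → ∀ e ∈ C, e ∈ Fr H

theorem NoExchange.blocked (hN : NoExchange H hd s) (u : Option V) :
    Blocked H hd s (comp H hd s u) := by
  by_contra hB
  obtain ⟨C, h1, ⟨e, h2, h3⟩, h4⟩ := exists_closed_of_not_blocked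
    (fun x hx y hy => comp_conn hx hy) (fun x hx y hy z h1 h2 => comp_conv hx hy h1 h2) hB
  exact h3 (hN C h1 h4 e h2)

theorem NoExchange.inner (hN : NoExchange H hd s) (u : Option V) {e : R × V} (he : e ∈ H)
    (h1 : some e.2 ∈ comp H hd s u) (h2 : hd e ∈ comp H hd s u) : e ∈ Fr H := by
  by_contra hf
  obtain ⟨C, h3, ⟨e', h4, h5⟩, h6⟩ := exists_closed_of_inner
    (fun x hx y hy => comp_conn hx hy) he hf h1 h2
  exact h5 (hN C h3 h6 e' h4)

/-- The admissible pairs: a free cell in column `v` with symbol `y` inside one component. -/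
def Gd (H : Finset (R × V)) (sy : R × V → S) (nd : S → Option V) (s : V → ℕ) (v : V) (y : S) :
    Prop :=
  ∃ r, (r, v) ∈ Fr H ∧ sy (r, v) = y ∧ comp H (hed sy nd) s (nd y) = comp H (hed sy nd) s (some v)

theorem hall_col (h : Cfg H sy nd s D W w) (hV : 0 < Fintype.card V)
    (hD : Fintype.card V + (w - 1) ≤ D) (hN : NoExchange H (hed sy nd) s)
    (X : Finset V) (N : Finset S) (hXN : ∀ v ∈ X, ∀ y, Gd H sy nd s v y → y ∈ N) :
    X.card ≤ N.card := by
  classical
  have hD0 : 0 < D := by omega
  have key : ∀ Q ∈ (Finset.univ : Finset (Option V)).image (comp H (hed sy nd) s),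
      (X.filter fun v => comp H (hed sy nd) s (some v) = Q).card ≤
      (N.filter fun y => comp H (hed sy nd) s (nd y) = Q).card := by
    intro Q hQ
    obtain ⟨u, -, rfl⟩ := mem_image.1 hQ
    set Q := comp H (hed sy nd) s u with hQdef
    have hout : outQ H (hed sy nd) s Q < D := h.out_lt ⟨u, self_mem_comp u⟩ (hN.blocked u) hV hD
    set X' := X.filter fun v => comp H (hed sy nd) s (some v) = Q with hX'
    set N' := N.filter fun y => comp H (hed sy nd) s (nd y) = Q with hN'
    have e1 : (H.filter fun e => e.2 ∈ X').card = X'.card * D := by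
      rw [card_eq_sum_card_fiberwise (s := H.filter fun e => e.2 ∈ X') (f := Prod.snd) (t := X')
        (fun e he => (mem_filter.1 (mem_coe.1 he)).2)]
      have : ∀ v ∈ X', ((H.filter fun e => e.2 ∈ X').filter fun e => e.2 = v).card = D := by
        intro v hv
        rw [← h.col v, filter_filter]
        congr 1
        refine filter_congr fun e _ => ?_
        constructor
        · exact fun h => h.2
        · exact fun h => ⟨by rw [h]; exact hv, h⟩
      rw [sum_congr rfl this, sum_const, smul_eq_mul]
    have e2 : (H.filter fun e => e.2 ∈ X').card ≤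
        (H.filter fun e => some e.2 ∈ Q ∧ hed sy nd e ∉ Q).card +
        (H.filter fun e => sy e ∈ N').card := by
      refine (card_le_card ?_).trans (card_union_le _ _)
      intro e he
      rw [mem_filter] at he
      have hv := (mem_filter.1 he.2).2
      have hvQ : some e.2 ∈ Q := mem_comp_iff.2 hv
      rw [mem_union, mem_filter, mem_filter]
      by_cases hh : hed sy nd e ∈ Q
      · right
        refine ⟨he.1, mem_filter.2 ⟨?_, mem_comp_iff.1 hh⟩⟩
        refine hXN e.2 (mem_filter.1 he.2).1 _ ⟨e.1, hN.inner u he.1 hvQ hh, rfl, ?_⟩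
        rw [hv]
        exact mem_comp_iff.1 hh
      · left
        exact ⟨he.1, hvQ, hh⟩
    have e3 : (H.filter fun e => sy e ∈ N').card ≤ N'.card * D := by
      rw [card_eq_sum_card_fiberwise (s := H.filter fun e => sy e ∈ N') (f := sy) (t := N')
        (fun e he => (mem_filter.1 (mem_coe.1 he)).2)]
      refine (sum_le_sum (g := fun _ => D) fun y _ => ?_).trans (by rw [sum_const, smul_eq_mul])
      refine (card_le_card ?_).trans (h.sym y)
      intro e he
      rw [mem_filter, mem_filter] at he
      exact mem_filter.2 ⟨he.1.1, he.2⟩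
    have e4 : (H.filter fun e => some e.2 ∈ Q ∧ hed sy nd e ∉ Q).card ≤
        outQ H (hed sy nd) s Q := Nat.le_add_right _ _
    have e5 : X'.card * D < (N'.card + 1) * D := by
      rw [Nat.add_mul, Nat.one_mul]
      omega
    exact Nat.lt_succ_iff.1 (Nat.lt_of_mul_lt_mul_right e5)
  calc X.card = ∑ Q ∈ (Finset.univ : Finset (Option V)).image (comp H (hed sy nd) s),
        (X.filter fun v => comp H (hed sy nd) s (some v) = Q).card :=
        card_eq_sum_card_fiberwise (fun v _ => mem_coe.2 (mem_image_of_mem _ (mem_univ _)))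
    _ ≤ ∑ Q ∈ (Finset.univ : Finset (Option V)).image (comp H (hed sy nd) s),
        (N.filter fun y => comp H (hed sy nd) s (nd y) = Q).card := sum_le_sum key
    _ = N.card := (card_eq_sum_card_fiberwise
        (fun v _ => mem_coe.2 (mem_image_of_mem _ (mem_univ _)))).symm

theorem hall_sym (h : Cfg H sy nd s D W w) (hV : 0 < Fintype.card V)
    (hD : Fintype.card V + (w - 1) ≤ D) (hN : NoExchange H (hed sy nd) s)
    (Y : Finset S) (hY : ∀ y ∈ Y, (H.filter fun e => sy e = y).card = D)
    (N : Finset V) (hYN : ∀ y ∈ Y, ∀ v, Gd H sy nd s v y → v ∈ N) :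
    Y.card ≤ N.card := by
  classical
  have hD0 : 0 < D := by omega
  have key : ∀ Q ∈ (Finset.univ : Finset (Option V)).image (comp H (hed sy nd) s),
      (Y.filter fun y => comp H (hed sy nd) s (nd y) = Q).card ≤
      (N.filter fun v => comp H (hed sy nd) s (some v) = Q).card := by
    intro Q hQ
    obtain ⟨u, -, rfl⟩ := mem_image.1 hQ
    set Q := comp H (hed sy nd) s u with hQdef
    have hout : outQ H (hed sy nd) s Q < D := h.out_lt ⟨u, self_mem_comp u⟩ (hN.blocked u) hV hD
    set Y' := Y.filter fun y => comp H (hed sy nd) s (nd y) = Q with hY'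
    set N' := N.filter fun v => comp H (hed sy nd) s (some v) = Q with hN'
    have e1 : (H.filter fun e => sy e ∈ Y').card = Y'.card * D := by
      rw [card_eq_sum_card_fiberwise (s := H.filter fun e => sy e ∈ Y') (f := sy) (t := Y')
        (fun e he => (mem_filter.1 (mem_coe.1 he)).2)]
      have : ∀ y ∈ Y', ((H.filter fun e => sy e ∈ Y').filter fun e => sy e = y).card = D := by
        intro y hy
        rw [← hY y (mem_filter.1 hy).1, filter_filter]
        congr 1
        refine filter_congr fun e _ => ?_
        constructor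
        · exact fun h => h.2
        · exact fun h => ⟨by rw [h]; exact hy, h⟩
      rw [sum_congr rfl this, sum_const, smul_eq_mul]
    have e2 : (H.filter fun e => sy e ∈ Y').card ≤
        (H.filter fun e => some e.2 ∉ Q ∧ hed sy nd e ∈ Q).card +
        (H.filter fun e => e.2 ∈ N').card := by
      refine (card_le_card ?_).trans (card_union_le _ _)
      intro e he
      rw [mem_filter] at he
      have hv := (mem_filter.1 he.2).2
      have hh : hed sy nd e ∈ Q := mem_comp_iff.2 hv
      rw [mem_union, mem_filter, mem_filter]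
      by_cases hvQ : some e.2 ∈ Q
      · right
        refine ⟨he.1, mem_filter.2 ⟨?_, mem_comp_iff.1 hvQ⟩⟩
        refine hYN (sy e) (mem_filter.1 he.2).1 _ ⟨e.1, hN.inner u he.1 hvQ hh, rfl, ?_⟩
        rw [hv]
        exact (mem_comp_iff.1 hvQ).symm
      · left
        exact ⟨he.1, hvQ, hh⟩
    have e3 : (H.filter fun e => e.2 ∈ N').card ≤ N'.card * D := by
      rw [card_eq_sum_card_fiberwise (s := H.filter fun e => e.2 ∈ N') (f := Prod.snd) (t := N')
        (fun e he => (mem_filter.1 (mem_coe.1 he)).2)]
      refine (sum_le_sum (g := fun _ => D) fun y _ => ?_).trans (by rw [sum_const, smul_eq_mul])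
      refine (card_le_card ?_).trans (h.col y).le
      intro e he
      rw [mem_filter, mem_filter] at he
      exact mem_filter.2 ⟨he.1.1, he.2⟩
    have e4 := h.in_le_out Q
    have e5 : Y'.card * D < (N'.card + 1) * D := by
      rw [Nat.add_mul, Nat.one_mul]
      omega
    exact Nat.lt_succ_iff.1 (Nat.lt_of_mul_lt_mul_right e5)
  calc Y.card = ∑ Q ∈ (Finset.univ : Finset (Option V)).image (comp H (hed sy nd) s),
        (Y.filter fun y => comp H (hed sy nd) s (nd y) = Q).card :=
        card_eq_sum_card_fiberwise (fun v _ => mem_coe.2 (mem_image_of_mem _ (mem_univ _)))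
    _ ≤ ∑ Q ∈ (Finset.univ : Finset (Option V)).image (comp H (hed sy nd) s),
        (N.filter fun v => comp H (hed sy nd) s (some v) = Q).card := sum_le_sum key
    _ = N.card := (card_eq_sum_card_fiberwise
        (fun v _ => mem_coe.2 (mem_image_of_mem _ (mem_univ _)))).symm

/-- Matchings that cover all columns and all tight symbols. -/
theorem exists_matching (G : V → S → Prop) (tight : S → Prop)
    (h1 : ∀ (X : Finset V) (N : Finset S), (∀ v ∈ X, ∀ y, G v y → y ∈ N) → X.card ≤ N.card)
    (h2 : ∀ (Y : Finset S), (∀ y ∈ Y, tight y) → ∀ N : Finset V,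
      (∀ y ∈ Y, ∀ v, G v y → v ∈ N) → Y.card ≤ N.card) :
    ∃ f : V → S, Function.Injective f ∧ (∀ v, G v (f v)) ∧ ∀ y, tight y → ∃ v, f v = y := by
  classical
  have hVS : Fintype.card V ≤ Fintype.card S := by
    have := h1 Finset.univ Finset.univ fun _ _ _ _ => mem_univ _
    rwa [card_univ, card_univ] at this
  let t : S → Finset (V ⊕ Fin (Fintype.card S - Fintype.card V)) := fun y =>
    ((Finset.univ.filter fun v => G v y).image Sum.inl) ∪
      (if tight y then ∅ else Finset.univ.image Sum.inr)
  have hall : ∀ Y : Finset S, Y.card ≤ (Y.biUnion t).card := by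
    intro Y
    set N' : Finset V := Finset.univ.filter fun v => ∃ y ∈ Y, G v y with hN'
    by_cases hY : ∀ y ∈ Y, tight y
    · have h3 := h2 Y hY N' (fun y hy v hv => mem_filter.2 ⟨mem_univ _, y, hy, hv⟩)
      refine h3.trans ?_
      rw [← card_image_of_injective N' (Sum.inl_injective (β := Fin (Fintype.card S - Fintype.card V)))]
      refine card_le_card ?_
      intro x hx
      obtain ⟨v, hv, rfl⟩ := mem_image.1 hx
      obtain ⟨-, y, hy, hG⟩ := mem_filter.1 hv
      exact mem_biUnion.2 ⟨y, hy, mem_union_left _ (mem_image_of_mem _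
        (mem_filter.2 ⟨mem_univ _, hG⟩))⟩
    · push Not at hY
      obtain ⟨y₀, hy₀, hy₀D⟩ := hY
      have h3 := h1 N'ᶜ Yᶜ (by
        intro v hv y hG
        rw [mem_compl] at hv ⊢
        exact fun hy => hv (mem_filter.2 ⟨mem_univ _, y, hy, hG⟩))
      rw [card_compl, card_compl] at h3
      have h4 : Y.card ≤ Fintype.card S := card_le_univ _
      have h5 : N'.card ≤ Fintype.card V := card_le_univ _
      have h6 : (N'.image (Sum.inl : V → V ⊕ Fin (Fintype.card S - Fintype.card V)) ∪
          Finset.univ.image Sum.inr).card = N'.card + (Fintype.card S - Fintype.card V) := by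
        rw [card_union_of_disjoint, card_image_of_injective _ Sum.inl_injective,
          card_image_of_injective _ Sum.inr_injective, card_univ, Fintype.card_fin]
        rw [disjoint_left]
        intro x hx hx'
        obtain ⟨v, -, rfl⟩ := mem_image.1 hx
        obtain ⟨v', -, h7⟩ := mem_image.1 hx'
        exact Sum.inr_ne_inl h7
      have h7 : N'.image (Sum.inl : V → V ⊕ Fin (Fintype.card S - Fintype.card V)) ∪
          Finset.univ.image Sum.inr ⊆ Y.biUnion t := by
        intro x hx
        rcases mem_union.1 hx with hx | hx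
        · obtain ⟨v, hv, rfl⟩ := mem_image.1 hx
          obtain ⟨-, y, hy, hG⟩ := mem_filter.1 hv
          exact mem_biUnion.2 ⟨y, hy, mem_union_left _ (mem_image_of_mem _
            (mem_filter.2 ⟨mem_univ _, hG⟩))⟩
        · refine mem_biUnion.2 ⟨y₀, hy₀, mem_union_right _ ?_⟩
          rw [if_neg hy₀D]
          exact hx
      have h8 := card_le_card h7
      rw [h6] at h8
      omega
  obtain ⟨f, hf1, hf2⟩ := (all_card_le_biUnion_card_iff_exists_injective t).1 hall
  have hbij : Function.Bijective f := by
    rw [Fintype.bijective_iff_injective_and_card]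
    refine ⟨hf1, ?_⟩
    rw [Fintype.card_sum, Fintype.card_fin]
    omega
  have h3 : ∀ v : V, ∃ y, f y = Sum.inl v := fun v => hbij.2 _
  choose y hy using h3
  refine ⟨y, ?_, ?_, ?_⟩
  · intro v v' h4
    have := congrArg f h4
    rw [hy, hy] at this
    exact Sum.inl_injective this
  · intro v
    have h4 := hf2 (y v)
    rw [hy v, mem_union] at h4
    rcases h4 with h4 | h4
    · obtain ⟨v', hv', h5⟩ := mem_image.1 h4
      have h6 := (mem_filter.1 hv').2
      rw [Sum.inl_injective h5] at h6
      exact h6
    · exfalso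
      split_ifs at h4
      · simp at h4
      · obtain ⟨v', -, h5⟩ := mem_image.1 h4
        exact Sum.inr_ne_inl h5
  · intro z hz
    have h4 := hf2 z
    rw [mem_union, if_pos hz] at h4
    rcases h4 with h4 | h4
    · obtain ⟨v, -, h5⟩ := mem_image.1 h4
      exact ⟨v, hf1 ((hy v).trans h5)⟩
    · simp at h4

/-- The transversal of free cells that contains all tight symbols. -/
theorem exists_free_transversal (h : Cfg H sy nd s D W w) (hV : 0 < Fintype.card V)
    (hD : Fintype.card V + (w - 1) ≤ D) (hN : NoExchange H (hed sy nd) s) :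
    ∃ ρ : V → R, (∀ v, (ρ v, v) ∈ Fr H) ∧ Function.Injective (fun v => sy (ρ v, v)) ∧
      ∀ y, (H.filter fun e => sy e = y).card = D → ∃ v, sy (ρ v, v) = y := by
  obtain ⟨f, hf1, hf2, hf3⟩ := exists_matching (Gd H sy nd s)
    (fun y => (H.filter fun e => sy e = y).card = D)
    (fun X N h1 => hall_col h hV hD hN X N h1)
    (fun Y hY N h1 => hall_sym h hV hD hN Y hY N h1)
  choose ρ hρ1 hρ2 hρ3 using hf2
  refine ⟨ρ, hρ1, ?_, ?_⟩
  · intro v v' h3
    simp only [hρ2] at h3
    exact hf1 h3
  · intro z hz
    obtain ⟨v, hv⟩ := hf3 z hz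
    exact ⟨v, (hρ2 v).trans hv⟩

end Pool.Agent.Rl45
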