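import Pool.Agent.Rl45.Reach

/-!
# Integration of the pivotal inequality
-/

open Finset

set_option autoImplicit false
set_option linter.unusedSectionVars false

namespace Pool.Agent.Rl45

open Pool.Agent.DisjTrans49

variable {R V : Type*} [Fintype R] [DecidableEq R] [Fintype V] [DecidableEq V]

variable {H : Finset (R × V)} {hd : R × V → Option V} {s : V → ℕ} {Q : Finset (Option V)}

theorem card_diff_cnt {X Y : Finset (Option V)} (h : X ⊆ Y) :
    ((Finset.univ : Finset V).filter fun v => some v ∈ Y ∧ some v ∉ X).card = cnt Y - cnt X := by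
  have h1 : ((Finset.univ : Finset V).filter fun v => some v ∈ Y ∧ some v ∉ X) =
      ((Finset.univ : Finset V).filter fun v => some v ∈ Y) \
        ((Finset.univ : Finset V).filter fun v => some v ∈ X) := by
    ext v
    simp only [mem_filter, mem_sdiff, mem_univ, true_and]
  rw [h1, card_sdiff_of_subset]
  · rfl
  · intro v hv
    rw [mem_filter] at hv ⊢
    exact ⟨hv.1, h hv.2⟩

/-- The vertices of `W` are reached only through the hub. -/
structure HubOnly (H : Finset (R × V)) (hd : R × V → Option V) (s : V → ℕ) (W : Finset V) :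
    Prop where
  pos : ∀ v ∈ W, 0 < s v
  noarc : ∀ v ∈ W, ∀ e ∈ H, hd e ≠ some v

theorem HubOnly.empty : HubOnly H hd s ∅ := ⟨by simp, by simp⟩

theorem HubOnly.notMem {W : Finset V} (hW : HubOnly H hd s W) (hQ : none ∉ Q) {L : Finset R}
    (hn : none ∉ Re H hd s Q L) {v : V} (hv : v ∈ W) : some v ∉ Re H hd s Q L := by
  intro h
  rw [mem_Re] at h
  obtain ⟨M, h1, h2⟩ := h
  generalize hu : (some v : Option V) = u at h2
  cases h2 with
  | qcell h3 h4 h5 => exact hW.noarc v hv _ h3 hu.symm
  | qvirt h3 h4 h5 => exact hQ h3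
  | cell h3 h4 h5 h6 => exact hW.noarc v hv _ h4 hu.symm
  | virt h3 h4 h5 => exact hn (mem_Re.2 ⟨M, h1, h3⟩)

theorem card_color_le {w : ℕ} {W : Finset V} (hW : HubOnly H hd s W)
    (hprop : ∀ e ∈ H, ∀ e' ∈ H, e.1 = e'.1 → hd e = hd e' → hd e ≠ none → e = e')
    (hw : none ∉ Q → ∀ r, (H.filter fun e => e.1 = r ∧ hd e = none).card ≤ W.card + w)
    (hB : Blocked H hd s Q) (L : Finset R) (c : R) :
    ((H.filter fun e => (some e.2 ∈ Q ∨ some e.2 ∈ Re H hd s Q L) ∧
      hd e ∉ Re H hd s Q L ∧ ¬(some e.2 ∈ Q ∧ hd e ∈ Q)).filter fun e => e.1 = c).card ≤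
    (cnt (Re H hd s Q (insert c L)) - cnt (Re H hd s Q (L.erase c))) +
      (if c ∉ L ∧ none ∈ Re H hd s Q (insert c L) ∧ none ∉ Re H hd s Q L then w else 0) := by
  by_cases hc : c ∈ L
  · rw [if_neg (by tauto), add_zero, insert_eq_self.2 hc, ← card_diff_cnt (Re_mono (erase_subset _ _))]
    refine card_le_card_of_injOn Prod.snd ?_ ?_
    · intro e he
      rw [mem_coe, mem_filter, mem_filter] at he
      obtain ⟨⟨h1, h2, h3, h4⟩, h5⟩ := he
      rw [mem_coe, mem_filter]
      refine ⟨mem_univ _, ?_⟩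
      rcases h2 with h2 | h2
      · exfalso
        apply h3
        exact Re_qcell h1 h2 (fun h => h4 ⟨h2, h⟩) (by rw [h5]; exact hc)
      · refine ⟨h2, fun h6 => h3 ?_⟩
        refine Re_cell (by rw [h5]; exact h6) h1 ?_ (by rw [h5]; exact hc)
        rw [mem_Re] at h6
        obtain ⟨M, h7, h8⟩ := h6
        have := hB.cell M e.2 e.1 h8 h1 (fun h => notMem_erase c L (h5 ▸ h7 h))
        exact this
    · intro e he e' he' h
      rw [mem_coe, mem_filter] at he he'
      exact Prod.ext (he.2.trans he'.2.symm) h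
  · rw [erase_eq_of_notMem hc]
    have key : ∀ e ∈ H, (some e.2 ∈ Q ∨ some e.2 ∈ Re H hd s Q L) →
        ¬(some e.2 ∈ Q ∧ hd e ∈ Q) → e.1 = c → hd e ∈ Re H hd s Q (insert c L) := by
      intro e h1 h2 h4 h5
      have hq : hd e ∉ Q := by
        rcases h2 with h2 | h2
        · exact fun h => h4 ⟨h2, h⟩
        · rw [mem_Re] at h2
          obtain ⟨M, h7, h8⟩ := h2
          exact hB.cell M e.2 e.1 h8 h1 (fun h => hc (h5 ▸ h7 h))
      rcases h2 with h2 | h2
      · exact Re_qcell h1 h2 hq (by rw [h5]; exact mem_insert_self _ _)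
      · refine Re_cell ?_ h1 hq (by rw [h5]; exact mem_insert_self _ _)
        rw [h5, erase_insert hc]
        exact h2
    have h0 : ((H.filter fun e => (some e.2 ∈ Q ∨ some e.2 ∈ Re H hd s Q L) ∧
        hd e ∉ Re H hd s Q L ∧ ¬(some e.2 ∈ Q ∧ hd e ∈ Q)).filter fun e => e.1 = c).card ≤
        (H.filter fun e => hd e ≠ none ∧ e.1 = c ∧ hd e ∈ Re H hd s Q (insert c L) ∧
          hd e ∉ Re H hd s Q L).card +
        (H.filter fun e => hd e = none ∧ e.1 = c ∧ none ∈ Re H hd s Q (insert c L) ∧
          none ∉ Re H hd s Q L).card := by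
      refine (card_le_card ?_).trans (card_union_le _ _)
      intro e he
      rw [mem_filter, mem_filter] at he
      obtain ⟨⟨h1, h2, h3, h4⟩, h5⟩ := he
      have h6 := key e h1 h2 h4 h5
      rw [mem_union, mem_filter, mem_filter]
      by_cases h7 : hd e = none
      · right
        exact ⟨h1, h7, h5, h7 ▸ h6, h7 ▸ h3⟩
      · left
        exact ⟨h1, h7, h5, h6, h3⟩
    have hex : ∀ e : R × V, hd e ≠ none → ∃ v, hd e = some v := fun e he =>
      Option.ne_none_iff_exists'.1 he
    have h7 : (H.filter fun e => hd e ≠ none ∧ e.1 = c ∧ hd e ∈ Re H hd s Q (insert c L) ∧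
        hd e ∉ Re H hd s Q L).card ≤ (((Finset.univ : Finset V).filter fun v =>
          some v ∈ Re H hd s Q (insert c L) ∧ some v ∉ Re H hd s Q L) \ W).card := by
      refine card_le_card_of_injOn (fun e => (hd e).getD e.2) ?_ ?_
      · intro e he
        rw [mem_coe, mem_filter] at he
        obtain ⟨h1, h2, h3, h4, h5⟩ := he
        obtain ⟨v, hv⟩ := hex e h2
        rw [mem_coe, mem_sdiff, mem_filter]
        simp only [hv, Option.getD_some]
        rw [hv] at h4 h5
        exact ⟨⟨mem_univ _, h4, h5⟩, fun h6 => hW.noarc v h6 e h1 hv⟩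
      · intro e he e' he' h
        rw [mem_coe, mem_filter] at he he'
        obtain ⟨v, hv⟩ := hex e he.2.1
        obtain ⟨v', hv'⟩ := hex e' he'.2.1
        simp only [hv, hv', Option.getD_some] at h
        exact hprop e he.1 e' he'.1 (he.2.2.1.trans he'.2.2.1.symm) (by rw [hv, hv', h]) he.2.1
    rw [← card_diff_cnt (Re_mono (subset_insert _ _))]
    by_cases h1 : none ∈ Re H hd s Q (insert c L) ∧ none ∉ Re H hd s Q L
    · rw [if_pos ⟨hc, h1⟩]
      have hQn : none ∉ Q := Re_notMem h1.1
      have h8 : W ⊆ (Finset.univ : Finset V).filter fun v =>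
          some v ∈ Re H hd s Q (insert c L) ∧ some v ∉ Re H hd s Q L := by
        intro v hv
        rw [mem_filter]
        refine ⟨mem_univ _, Re_virt (Or.inr h1.1) (hW.pos v hv) ?_, hW.notMem hQn h1.2 hv⟩
        have hn' := h1.1
        rw [mem_Re] at hn'
        obtain ⟨M, -, h2⟩ := hn'
        exact hB.virt M v h2 (hW.pos v hv)
      rw [card_sdiff_of_subset h8] at h7
      have h9 := card_le_card h8
      have h10 : (H.filter fun e => hd e = none ∧ e.1 = c ∧ none ∈ Re H hd s Q (insert c L) ∧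
          none ∉ Re H hd s Q L).card ≤ W.card + w := by
        refine (card_le_card ?_).trans (hw hQn c)
        intro e he
        rw [mem_filter] at he ⊢
        exact ⟨he.1, he.2.2.1, he.2.1⟩
      omega
    · have h8 : (H.filter fun e => hd e = none ∧ e.1 = c ∧ none ∈ Re H hd s Q (insert c L) ∧
          none ∉ Re H hd s Q L).card = 0 := by
        rw [card_eq_zero, eq_empty_iff_forall_notMem]
        intro e he
        rw [mem_filter] at he
        exact h1 he.2.2.2
      have h9 := card_le_card (sdiff_subset (s := (Finset.univ : Finset V).filter fun v =>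
          some v ∈ Re H hd s Q (insert c L) ∧ some v ∉ Re H hd s Q L) (t := W))
      omega

/-- the number of reached columns -/
noncomputable def gf (H : Finset (R × V)) (hd : R × V → Option V) (s : V → ℕ)
    (Q : Finset (Option V)) (L : Finset R) : ℝ := cnt (Re H hd s Q L)

/-- is the hub reached? -/
noncomputable def rf (H : Finset (R × V)) (hd : R × V → Option V) (s : V → ℕ)
    (Q : Finset (Option V)) (L : Finset R) : ℝ := if none ∈ Re H hd s Q L then 1 else 0

theorem pointwise {D w : ℕ} {W : Finset V} (hW : HubOnly H hd s W)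
    (hcol : ∀ v, (H.filter fun e => e.2 = v).card = D)
    (hin : ∀ v, (H.filter fun e => hd e = some v).card + s v = D)
    (hprop : ∀ e ∈ H, ∀ e' ∈ H, e.1 = e'.1 → hd e = hd e' → hd e ≠ none → e = e')
    (hw : none ∉ Q → ∀ r, (H.filter fun e => e.1 = r ∧ hd e = none).card ≤ W.card + w)
    (hB : Blocked H hd s Q) (L : Finset R) :
    (outQ H hd s Q : ℝ) ≤ ∑ c, (gf H hd s Q (insert c L) - gf H hd s Q (L.erase c)) +
      w * ∑ c, (if c ∉ L then rf H hd s Q (insert c L) - rf H hd s Q (L.erase c) else 0) := by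
  have h1 := out_le hcol hin hB L
  rw [card_eq_sum_card_fiberwise (f := Prod.fst) (t := Finset.univ) (fun _ _ => mem_univ _)] at h1
  have h2 := h1.trans (sum_le_sum fun c _ => card_color_le hW hprop hw hB L c)
  have h3 : (outQ H hd s Q : ℝ) ≤ ((∑ c : R, ((cnt (Re H hd s Q (insert c L)) -
      cnt (Re H hd s Q (L.erase c))) + (if c ∉ L ∧ none ∈ Re H hd s Q (insert c L) ∧
        none ∉ Re H hd s Q L then w else 0)) : ℕ) : ℝ) := by
    exact_mod_cast h2
  refine h3.trans ?_
  rw [mul_sum, ← sum_add_distrib, Nat.cast_sum]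
  refine sum_le_sum fun c _ => ?_
  have h4 : cnt (Re H hd s Q (L.erase c)) ≤ cnt (Re H hd s Q (insert c L)) :=
    cnt_mono (Re_mono ((erase_subset _ _).trans (subset_insert _ _)))
  rw [Nat.cast_add, Nat.cast_sub h4]
  refine add_le_add le_rfl ?_
  by_cases hc : c ∈ L
  · rw [if_neg (by tauto), if_neg (by simpa using hc)]
    simp
  · rw [if_pos hc, erase_eq_of_notMem hc]
    unfold rf
    by_cases h5 : none ∈ Re H hd s Q (insert c L) ∧ none ∉ Re H hd s Q L
    · rw [if_pos ⟨hc, h5⟩, if_pos h5.1, if_neg h5.2]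
      simp
    · rw [if_neg (by tauto)]
      have h6 : (if none ∈ Re H hd s Q L then (1 : ℝ) else 0) ≤
          if none ∈ Re H hd s Q (insert c L) then (1 : ℝ) else 0 := by
        by_cases h7 : none ∈ Re H hd s Q L
        · rw [if_pos h7, if_pos (Re_mono (subset_insert _ _) h7)]
        · rw [if_neg h7]
          split_ifs <;> norm_num
      rw [Nat.cast_zero]
      exact mul_nonneg (Nat.cast_nonneg _) (sub_nonneg.2 h6)

theorem EP_ite_notMem {U : Type*} [DecidableEq U] (Γ : Finset U) (p : ℝ) (h : Finset U → ℝ)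
    {c : U} (hc : c ∈ Γ) :
    EP Γ p (fun L => if c ∉ L then h (insert c L) - h (L.erase c) else 0) =
      (1 - p) * EP Γ p (fun L => h (insert c L) - h (L.erase c)) := by
  have hΓ : Γ = insert c (Γ.erase c) := (insert_erase hc).symm
  have hn : c ∉ Γ.erase c := notMem_erase _ _
  rw [hΓ, EP_insert hn, EP_insert hn]
  have e1 : EP (Γ.erase c) p (fun L => if c ∉ insert c L then
      h (insert c (insert c L)) - h ((insert c L).erase c) else 0) = 0 := by
    rw [EP_congr (k := fun _ => 0)]
    · exact EP_const _ _ _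
    · intro L _
      simp
  have e2 : EP (Γ.erase c) p (fun L => if c ∉ L then h (insert c L) - h (L.erase c) else 0) =
      EP (Γ.erase c) p (fun L => h (insert c L) - h L) := by
    refine EP_congr fun L hL => ?_
    have : c ∉ L := fun h => hn (hL h)
    rw [if_pos this, erase_eq_of_notMem this]
  have e3 : EP (Γ.erase c) p (fun L => h (insert c (insert c L)) - h ((insert c L).erase c)) =
      EP (Γ.erase c) p (fun L => h (insert c L) - h L) := by
    refine EP_congr fun L hL => ?_
    have : c ∉ L := fun h => hn (hL h)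
    rw [insert_idem, erase_insert this]
  have e4 : EP (Γ.erase c) p (fun L => h (insert c L) - h (L.erase c)) =
      EP (Γ.erase c) p (fun L => h (insert c L) - h L) := by
    refine EP_congr fun L hL => ?_
    have : c ∉ L := fun h => hn (hL h)
    rw [erase_eq_of_notMem this]
  rw [e1, e2, e3, e4]
  ring

section Integral

variable {D w : ℕ} {W : Finset V}

/-- the auxiliary function -/
noncomputable def Ff (H : Finset (R × V)) (hd : R × V → Option V) (s : V → ℕ)
    (Q : Finset (Option V)) (w : ℕ) (p : ℝ) : ℝ :=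
  EP Finset.univ p (gf H hd s Q) + w * ((1 - p) * EP Finset.univ p (rf H hd s Q)) + w * p -
    outQ H hd s Q * p

theorem hasDerivAt_Ff (p : ℝ) :
    HasDerivAt (Ff H hd s Q w) ((∑ c, EP Finset.univ p
      (fun L => gf H hd s Q (insert c L) - gf H hd s Q (L.erase c))) +
      w * ((-1) * EP Finset.univ p (rf H hd s Q) + (1 - p) * ∑ c, EP Finset.univ p
      (fun L => rf H hd s Q (insert c L) - rf H hd s Q (L.erase c))) + w - outQ H hd s Q) p := by
  unfold Ff
  have d1 := hasDerivAt_EP Finset.univ (gf H hd s Q) p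
  have d2 := hasDerivAt_EP Finset.univ (rf H hd s Q) p
  have d3 : HasDerivAt (fun q : ℝ => 1 - q) (-1) p := by
    simpa using (hasDerivAt_id p).const_sub (1 : ℝ)
  have d4 := (d3.mul d2).const_mul (w : ℝ)
  have d5 := (hasDerivAt_id p).const_mul (w : ℝ)
  have d6 := (hasDerivAt_id p).const_mul (outQ H hd s Q : ℝ)
  have d7 := ((d1.add d4).add d5).sub d6
  refine d7.congr_deriv ?_
  ring

theorem deriv_lower (hW : HubOnly H hd s W)
    (hcol : ∀ v, (H.filter fun e => e.2 = v).card = D)
    (hin : ∀ v, (H.filter fun e => hd e = some v).card + s v = D)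
    (hprop : ∀ e ∈ H, ∀ e' ∈ H, e.1 = e'.1 → hd e = hd e' → hd e ≠ none → e = e')
    (hw : none ∉ Q → ∀ r, (H.filter fun e => e.1 = r ∧ hd e = none).card ≤ W.card + w)
    (hB : Blocked H hd s Q) {p : ℝ} (h0 : 0 ≤ p) (h1 : p ≤ 1) :
    w * (1 - EP Finset.univ p (rf H hd s Q)) ≤ deriv (Ff H hd s Q w) p := by
  rw [(hasDerivAt_Ff (H := H) (hd := hd) (s := s) (Q := Q) (w := w) p).deriv]
  have h2 : (outQ H hd s Q : ℝ) ≤ ∑ c, EP Finset.univ p
      (fun L => gf H hd s Q (insert c L) - gf H hd s Q (L.erase c)) +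
      w * ((1 - p) * ∑ c, EP Finset.univ p
      (fun L => rf H hd s Q (insert c L) - rf H hd s Q (L.erase c))) := by
    have h3 := EP_mono (Γ := (Finset.univ : Finset R)) h0 h1
      (fun L _ => pointwise hW hcol hin hprop hw hB L)
    rw [EP_const, EP_add, EP_sum, EP_mul_left, EP_sum] at h3
    rw [mul_sum (s := Finset.univ) (a := 1 - p)]
    refine h3.trans (le_of_eq ?_)
    congr 2
    exact sum_congr rfl fun c hc => EP_ite_notMem _ _ _ hc
  nlinarith

theorem Ff_one : Ff H hd s Q w 1 = cnt (Re H hd s Q Finset.univ) + w - outQ H hd s Q := by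
  unfold Ff
  have : EP Finset.univ 1 (gf H hd s Q) = gf H hd s Q Finset.univ := by
    unfold EP
    rw [sum_eq_single Finset.univ]
    · simp
    · intro L _ hL
      have : (Finset.univ \ L).card ≠ 0 := by
        rw [Ne, card_eq_zero, sdiff_eq_empty_iff_subset]
        intro h
        exact hL (univ_subset_iff.1 h)
      rw [sub_self, zero_pow this]
      ring
    · intro h
      exact absurd (mem_powerset_self _) h
  rw [this]
  unfold gf
  ring

theorem Ff_zero : Ff H hd s Q w 0 = cnt (Re H hd s Q ∅) + w * rf H hd s Q ∅ := by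
  unfold Ff
  rw [EP_zero, EP_zero]
  unfold gf
  ring

theorem continuous_Ff : Continuous (Ff H hd s Q w) :=
  continuous_iff_continuousAt.2 fun p => (hasDerivAt_Ff p).continuousAt

theorem EP_rf_le {p : ℝ} (h0 : 0 ≤ p) (h1 : p ≤ 1) : EP Finset.univ p (rf H hd s Q) ≤ 1 := by
  have := EP_mono (Γ := (Finset.univ : Finset R)) h0 h1 (h := rf H hd s Q) (k := fun _ => 1)
    (fun L _ => by
      unfold rf
      split_ifs <;> norm_num)
  rwa [EP_const] at this

theorem rm_le (hW : HubOnly H hd s W)
    (hcol : ∀ v, (H.filter fun e => e.2 = v).card = D)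
    (hin : ∀ v, (H.filter fun e => hd e = some v).card + s v = D)
    (hprop : ∀ e ∈ H, ∀ e' ∈ H, e.1 = e'.1 → hd e = hd e' → hd e ≠ none → e = e')
    (hw : none ∉ Q → ∀ r, (H.filter fun e => e.1 = r ∧ hd e = none).card ≤ W.card + w)
    (hB : Blocked H hd s Q) :
    (outQ H hd s Q : ℝ) + cnt (Re H hd s Q ∅) + w * rf H hd s Q ∅ ≤
      cnt (Re H hd s Q Finset.univ) + w := by
  have hmono : MonotoneOn (Ff H hd s Q w) (Set.Icc 0 1) := by
    refine monotoneOn_of_deriv_nonneg (convex_Icc 0 1) continuous_Ff.continuousOn ?_ ?_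
    · exact fun x _ => (hasDerivAt_Ff x).differentiableAt.differentiableWithinAt
    · intro x hx
      rw [interior_Icc] at hx
      refine le_trans ?_ (deriv_lower hW hcol hin hprop hw hB hx.1.le hx.2.le)
      exact mul_nonneg (Nat.cast_nonneg _) (sub_nonneg.2 (EP_rf_le hx.1.le hx.2.le))
  have h1 := hmono (Set.left_mem_Icc.2 zero_le_one) (Set.right_mem_Icc.2 zero_le_one) zero_le_one
  rw [Ff_one, Ff_zero] at h1
  linarith

theorem EP_rf_lt (hQ : none ∉ Q) {p : ℝ} (h0 : 0 ≤ p) (h1 : p < 1) :
    EP Finset.univ p (rf H hd s Q) < 1 := by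
  have e1 : EP Finset.univ p (rf H hd s Q) + (1 - p) ^ (Finset.univ : Finset R).card ≤ 1 := by
    have e2 : EP (Finset.univ : Finset R) p (fun L => rf H hd s Q L + if L = ∅ then 1 else 0) ≤
        EP (Finset.univ : Finset R) p (fun _ => 1) := by
      refine EP_mono h0 h1.le fun L _ => ?_
      by_cases hL : L = ∅
      · rw [hL, if_pos rfl]
        unfold rf
        rw [Re_empty hQ]
        simp
      · rw [if_neg hL]
        unfold rf
        split_ifs <;> norm_num
    rw [EP_const, EP_add] at e2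
    have e3 : EP (Finset.univ : Finset R) p (fun L => if L = ∅ then (1 : ℝ) else 0) =
        (1 - p) ^ (Finset.univ : Finset R).card := by
      unfold EP
      rw [sum_eq_single ∅]
      · simp
      · intro L _ hL
        simp only [if_neg hL, mul_zero]
      · intro h
        exact absurd (empty_mem_powerset _) h
    rw [e3] at e2
    exact e2
  have e4 : 0 < (1 - p) ^ (Finset.univ : Finset R).card := pow_pos (by linarith) _
  linarith

theorem rm_lt (hW : HubOnly H hd s W)
    (hcol : ∀ v, (H.filter fun e => e.2 = v).card = D)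
    (hin : ∀ v, (H.filter fun e => hd e = some v).card + s v = D)
    (hprop : ∀ e ∈ H, ∀ e' ∈ H, e.1 = e'.1 → hd e = hd e' → hd e ≠ none → e = e')
    (hw : none ∉ Q → ∀ r, (H.filter fun e => e.1 = r ∧ hd e = none).card ≤ W.card + w)
    (hB : Blocked H hd s Q) (hQ : none ∉ Q) (hw0 : 0 < w) :
    outQ H hd s Q < cnt (Re H hd s Q Finset.univ) + w := by
  have hmono : StrictMonoOn (Ff H hd s Q w) (Set.Icc 0 1) := by
    refine strictMonoOn_of_deriv_pos (convex_Icc 0 1) continuous_Ff.continuousOn ?_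
    intro x hx
    rw [interior_Icc] at hx
    refine lt_of_lt_of_le ?_ (deriv_lower hW hcol hin hprop hw hB hx.1.le hx.2.le)
    exact mul_pos (Nat.cast_pos.2 hw0) (sub_pos.2 (EP_rf_lt hQ hx.1.le hx.2))
  have h1 := hmono (Set.left_mem_Icc.2 zero_le_one) (Set.right_mem_Icc.2 zero_le_one) zero_lt_one
  rw [Ff_one, Ff_zero] at h1
  have h2 : rf H hd s Q ∅ = 0 := by
    unfold rf
    rw [Re_empty hQ]
    simp
  rw [h2] at h1
  have h3 : (0 : ℝ) ≤ cnt (Re H hd s Q ∅) := Nat.cast_nonneg _
  have h4 : (outQ H hd s Q : ℝ) < ((cnt (Re H hd s Q Finset.univ) + w : ℕ) : ℝ) := by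
    push_cast
    linarith
  exact_mod_cast h4

end Integral

end Pool.Agent.Rl45
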