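import Pool.Agent.Rl45.NExch
import Pool.Agent.Rl45.Portion

/-!
# One more transversal
-/

open Finset

set_option autoImplicit false
set_option linter.unusedSectionVars false

namespace Pool.Agent.Rl45

variable {R V S : Type*} [Fintype R] [DecidableEq R] [Fintype V] [DecidableEq V]
  [Fintype S] [DecidableEq S]

variable {a : R → V → S} {𝒩 : Finset S} {N : ℕ} {T : Fin N → V → R} {H : Finset (R × V)}
  {nm : R × V → S} {D : ℕ} {U : Finset (R × V)}

theorem ka_eq_inl {e : R × V} {y : S} : ka 𝒩 nm e = Sum.inl y ↔ nm e = y ∧ y ∈ 𝒩 := by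
  unfold ka
  split_ifs with h
  · constructor
    · intro h1
      have h2 := Sum.inl_injective h1
      exact ⟨h2, h2 ▸ h⟩
    · rintro ⟨h1, -⟩
      rw [h1]
  · constructor
    · intro h1
      cases h1
    · rintro ⟨h1, h2⟩
      exact absurd (h1 ▸ h2) h

/-- Adding a section of free cells of `H` that contains all tight names. -/
theorem Sn.add (h : Sn a 𝒩 T H nm D U)
    (hc : ∀ z ∉ 𝒩, (U.filter fun e => sm a e = z).card +
      Fintype.card V * (Fintype.card V - 1) ≤ N)
    {ρ : V → R} (h1 : ∀ v, (ρ v, v) ∈ Fr H)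
    (h2 : Function.Injective fun v => ka 𝒩 nm (ρ v, v))
    (h3 : ∀ y, (H.filter fun e => ka 𝒩 nm e = y).card = D → ∃ v, ka 𝒩 nm (ρ v, v) = y) :
    ∃ (T' : Fin (N + 1) → V → R) (H' : Finset (R × V)), Sn a 𝒩 T' H' nm (D - 1) U := by
  classical
  set M : Finset (R × V) := Finset.univ.image fun v => (ρ v, v) with hM
  have hmem : ∀ e, e ∈ M ↔ ρ e.2 = e.1 := by
    intro e
    rw [hM, mem_image]
    constructor
    · rintro ⟨v, -, rfl⟩
      rfl
    · intro h4
      exact ⟨e.2, mem_univ _, Prod.ext h4 rfl⟩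
  have hMH : M ⊆ H := by
    intro e he
    rw [hmem] at he
    have : (ρ e.2, e.2) = e := Prod.ext he rfl
    exact this ▸ Fr_subset (h1 e.2)
  have hρi : Function.Injective ρ := by
    intro v v' h4
    have := (mem_Fr.1 (h1 v')).2 _ (Fr_subset (h1 v)) h4
    exact congrArg Prod.snd this
  have hne : ∀ v j, ρ v ≠ T j v := by
    intro v j h4
    exact h.dj j v (h4 ▸ Fr_subset (h1 v))
  have hfam : Fam (Fin.cons ρ T : Fin (N + 1) → V → R) (U \ (H \ M)) := by
    refine ⟨?_, ?_, ?_⟩
    · intro i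
      refine Fin.cases ?_ (fun j => ?_) i
      · rw [Fin.cons_zero]
        exact hρi
      · rw [Fin.cons_succ]
        exact h.fam.ri j
    · intro v i
      refine Fin.cases ?_ (fun j => ?_) i
      · intro i'
        refine Fin.cases ?_ (fun j' => ?_) i'
        · intro _
          rfl
        · rw [Fin.cons_zero, Fin.cons_succ]
          intro h4
          exact absurd h4 (hne v j')
      · intro i'
        refine Fin.cases ?_ (fun j' => ?_) i'
        · rw [Fin.cons_zero, Fin.cons_succ]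
          intro h4
          exact absurd h4.symm (hne v j)
        · rw [Fin.cons_succ, Fin.cons_succ]
          intro h4
          rw [h.fam.di v j j' h4]
    · intro e
      rw [Fin.exists_fin_succ]
      simp only [Fin.cons_zero, Fin.cons_succ, mem_sdiff, hmem, not_and, not_not]
      constructor
      · rintro ⟨h4, h5⟩
        by_cases h6 : e ∈ H
        · exact Or.inl (h5 h6)
        · exact Or.inr ((h.fam.cov e).1 (mem_sdiff.2 ⟨h4, h6⟩))
      · rintro (h4 | h4)
        · exact ⟨h.HU (hMH ((hmem e).2 h4)), fun _ => h4⟩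
        · have h5 := mem_sdiff.1 ((h.fam.cov e).2 h4)
          exact ⟨h5.1, fun h6 => absurd h6 h5.2⟩
  have hname : ∀ e ∈ H, sm a e ∈ 𝒩 → nm e = sm a e := by
    intro e he h1
    rcases h.nmo e he with h2 | h2
    · exact h2
    · exact absurd h1 h2.2
  obtain ⟨T', hT'1, hT'2⟩ := Fam.repair (a := a) 𝒩 (Z := U \ (H \ M)) (N := N + 1)
    (fun z hz => le_trans (Nat.add_le_add_right (card_le_card
      (filter_subset_filter _ sdiff_subset)) _) ((hc z hz).trans (Nat.le_succ _))) 0 _
    (Fin.cons ρ T : Fin (N + 1) → V → R)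
    (Finset.univ.filter fun v => a (ρ v) v ∉ 𝒩) rfl hfam
    (by
      intro j hj
      obtain ⟨j', rfl⟩ := Fin.exists_succ_eq.2 hj
      rw [Fin.cons_succ]
      exact h.si j')
    (by
      intro v v' hv hv' h4
      rw [Fin.cons_zero] at h4
      have hv1 : a (ρ v) v ∈ 𝒩 := by
        by_contra h5
        exact hv (mem_filter.2 ⟨mem_univ _, h5⟩)
      have h5 := hname _ (Fr_subset (h1 v)) hv1
      have h6 := hname _ (Fr_subset (h1 v')) (show a (ρ v') v' ∈ 𝒩 from h4 ▸ hv1)
      apply h2
      have h7 : ka 𝒩 nm (ρ v, v) = Sum.inl (a (ρ v) v) := ka_eq_inl.2 ⟨h5, hv1⟩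
      have h8 : ka 𝒩 nm (ρ v', v') = Sum.inl (a (ρ v) v) :=
        ka_eq_inl.2 ⟨h6.trans h4.symm, hv1⟩
      exact h7.trans h8.symm)
    (by
      intro v hv
      rw [Fin.cons_zero]
      exact (mem_filter.1 hv).2)
  refine ⟨T', H \ M, hT'1, sdiff_subset.trans h.HU, hT'2, ?_, ?_, ?_, ?_, ?_⟩
  · intro v
    have h4 : ((H \ M).filter fun e => e.2 = v) = (H.filter fun e => e.2 = v).erase (ρ v, v) := by
      ext e
      simp only [mem_filter, mem_sdiff, mem_erase, hmem]
      constructor
      · rintro ⟨⟨h5, h6⟩, h7⟩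
        refine ⟨?_, h5, h7⟩
        rintro rfl
        exact h6 rfl
      · rintro ⟨h5, h6, h7⟩
        refine ⟨⟨h6, ?_⟩, h7⟩
        intro h8
        apply h5
        rw [← h7, h8]
    have h5 : (ρ v, v) ∈ H.filter fun e => e.2 = v := mem_filter.2 ⟨Fr_subset (h1 v), rfl⟩
    rw [h4, card_erase_of_mem h5, h.col v]
  · exact fun e he => h.nmo e (mem_sdiff.1 he).1
  · exact fun e he e' he' => h.nmr e (mem_sdiff.1 he).1 e' (mem_sdiff.1 he').1
  · intro r
    exact (Nat.add_le_add_right (card_le_card (filter_subset_filter _ sdiff_subset)) _).trans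
      (h.nmw r)
  · intro y hy
    have hsub : ((H \ M).filter fun e => nm e = y) ⊆ H.filter fun e => nm e = y :=
      filter_subset_filter _ sdiff_subset
    have hle := card_le_card hsub
    rcases Nat.lt_or_ge ((H.filter fun e => nm e = y).card) D with h4 | h4
    · omega
    · have h5 : (H.filter fun e => ka 𝒩 nm e = Sum.inl y) = H.filter fun e => nm e = y := by
        refine filter_congr fun e _ => ?_
        rw [ka_eq_inl]
        exact ⟨fun h6 => h6.1, fun h6 => ⟨h6, hy⟩⟩
      obtain ⟨v, hv⟩ := h3 (Sum.inl y) (by rw [h5]; exact le_antisymm (h.nmd y hy) h4)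
      have h7 : ((H \ M).filter fun e => nm e = y).card <
          (H.filter fun e => nm e = y).card := by
        refine card_lt_card ⟨hsub, fun h8 => ?_⟩
        have h9 := h8 (mem_filter.2 ⟨Fr_subset (h1 v), (ka_eq_inl.1 hv).1⟩)
        exact (mem_sdiff.1 (mem_filter.1 h9).1).2 ((hmem _).2 rfl)
      have := h.nmd y hy
      omega

/-- The core step: one more transversal. -/
theorem Sn.core (h : Sn a 𝒩 T H nm D U) (hV : 0 < Fintype.card V)
    (hf : 𝒩.card ≤ Fintype.card V ∨ ∀ z, z ∈ 𝒩)
    (hc : ∀ z ∉ 𝒩, (U.filter fun e => sm a e = z).card +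
      Fintype.card V * (Fintype.card V - 1) ≤ N)
    (hD : Fintype.card V ≤ D)
    (hN : Fintype.card V * D * (Fintype.card V - 1) < N) :
    ∃ (T' : Fin (N + 1) → V → R) (H' : Finset (R × V)) (nm' : R × V → S),
      Sn a 𝒩 T' H' nm' (D - 1) U := by
  classical
  suffices key : ∀ (b : ℕ) (T : Fin N → V → R) (H : Finset (R × V)) (nm : R × V → S),
      Sn a 𝒩 T H nm D U → Fintype.card V * D - (Fr H).card = b →
      ∃ (T' : Fin (N + 1) → V → R) (H' : Finset (R × V)) (nm' : R × V → S),
        Sn a 𝒩 T' H' nm' (D - 1) U from key _ T H nm h rfl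
  intro b
  induction b using Nat.strong_induction_on with
  | _ b ih =>
    intro T H nm h hb
    obtain ⟨i, hi⟩ := h.exists_clean hN
    by_cases hNE : NoExchange H (hed (ka 𝒩 nm) (ndk a 𝒩 (T i))) (slt a 𝒩 (T i) H nm D)
    · obtain ⟨ρ, h1, h2, h3⟩ := exists_free_transversal (h.cfg (by omega) i) hV (by omega) hNE
      obtain ⟨T', H', h4⟩ := h.add hc h1 h2 h3
      exact ⟨T', H', nm, h4⟩
    · unfold NoExchange at hNE
      push Not at hNE
      obtain ⟨C, hCH, hC, e₀, he₀, hfr⟩ := hNE
      obtain ⟨T', H', nm', h1, h2⟩ := h.exchange hi hf hc hCH hC he₀ hfr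
      have h3 : (Fr H').card ≤ Fintype.card V * D := by
        rw [← h1.card_H]
        exact card_le_card Fr_subset
      exact ih _ (by omega) T' H' nm' h1 rfl

end Pool.Agent.Rl45
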