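import Pool.Agent.Rl45.Named

/-!
# Exchanges for states with named cells
-/

open Finset

set_option autoImplicit false
set_option linter.unusedSectionVars false

namespace Pool.Agent.Rl45

variable {R V S : Type*} [Fintype R] [DecidableEq R] [Fintype V] [DecidableEq V]
  [Fintype S] [DecidableEq S]

variable {a : R → V → S} {𝒩 : Finset S} {N : ℕ} {T : Fin N → V → R} {H : Finset (R × V)}
  {nm : R × V → S} {D : ℕ} {U : Finset (R × V)}

theorem Sn.exchange (h : Sn a 𝒩 T H nm D U) {i : Fin N} (hcl : Clean T H i)
    (hf : 𝒩.card ≤ Fintype.card V ∨ ∀ z, z ∈ 𝒩)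
    (hc : ∀ z ∉ 𝒩, (U.filter fun e => sm a e = z).card +
      Fintype.card V * (Fintype.card V - 1) ≤ N)
    {C : Finset (R × V)} (hCH : C ⊆ H)
    (hC : CSet (hed (ka 𝒩 nm) (ndk a 𝒩 (T i))) (slt a 𝒩 (T i) H nm D) C) {e₀ : R × V}
    (he₀ : e₀ ∈ C) (hfr : e₀ ∉ Fr H) :
    ∃ (T' : Fin N → V → R) (H' : Finset (R × V)) (nm' : R × V → S),
      Sn a 𝒩 T' H' nm' D U ∧ (Fr H).card < (Fr H').card := by
  classical
  have hsi := h.si i
  set K := freed (T i) C with hK
  have hKH : ∀ e ∈ K, e ∉ H := by
    intro e he
    obtain ⟨e', -, -, h2⟩ := mem_freed.1 he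
    have : (T i e.2, e.2) = e := Prod.ext h2 rfl
    exact this ▸ h.dj i e.2
  have hKrow : ∀ e ∈ K, ∀ e' ∈ H, e'.1 ≠ e.1 := by
    intro e he e' he' h1
    obtain ⟨-, -, -, h2⟩ := mem_freed.1 he
    exact hcl e.2 e' he' (h1.trans h2.symm)
  have hKU : ∀ e ∈ K, e ∈ U := by
    intro e he
    obtain ⟨-, -, -, h2⟩ := mem_freed.1 he
    exact (mem_sdiff.1 ((h.fam.cov e).2 ⟨i, h2⟩)).1
  have hdisj : Disjoint (H \ C) K := by
    rw [disjoint_left]
    intro e he he'
    exact hKH e he' (mem_sdiff.1 he).1
  have hρin : ∀ e ∈ C, rho (T i) C e.2 = e.1 := fun e he => rho_of_mem hC.tl he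
  have hρout : ∀ v, (∀ e ∈ C, e.2 ≠ v) → rho (T i) C v = T i v := fun v hv => rho_of_notMem hv
  have hcases : ∀ v, (∃ e ∈ C, e.2 = v) ∨ ∀ e ∈ C, e.2 ≠ v := by
    intro v
    by_cases h1 : ∃ e ∈ C, e.2 = v
    · exact Or.inl h1
    · push Not at h1
      exact Or.inr h1
  have hHU := h.HU
  have hname : ∀ e ∈ H, sm a e ∈ 𝒩 → nm e = sm a e := by
    intro e he h1
    rcases h.nmo e he with h2 | h2
    · exact h2
    · exact absurd h1 h2.2
  set T₁ : Fin N → V → R := fun j => if j = i then rho (T i) C else T j with hT₁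
  have hT₁i : T₁ i = rho (T i) C := by
    rw [hT₁]
    simp
  have hT₁j : ∀ j, j ≠ i → T₁ j = T j := by
    intro j hj
    rw [hT₁]
    simp [hj]
  -- the family
  have hfam : Fam T₁ (U \ ((H \ C) ∪ K)) := by
    refine ⟨?_, ?_, ?_⟩
    · intro j
      by_cases hj : j = i
      · subst hj
        rw [hT₁i]
        intro v v' h1
        rcases hcases v with ⟨e, he, rfl⟩ | hv <;> rcases hcases v' with ⟨e', he', rfl⟩ | hv'
        · rw [hρin e he, hρin e' he'] at h1
          rw [hC.rb e he e' he' h1]
        · rw [hρin e he, hρout v' hv'] at h1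
          exact absurd h1 (hcl v' e (hCH he))
        · rw [hρin e' he', hρout v hv] at h1
          exact absurd h1.symm (hcl v e' (hCH he'))
        · rw [hρout v hv, hρout v' hv'] at h1
          exact h.fam.ri _ h1
      · rw [hT₁j j hj]
        exact h.fam.ri j
    · have hne : ∀ v j, j ≠ i → rho (T i) C v ≠ T j v := by
        intro v j hj h1
        rcases hcases v with ⟨e, he, rfl⟩ | hv
        · rw [hρin e he] at h1
          have : (T j e.2, e.2) = e := Prod.ext h1.symm rfl
          exact h.dj j e.2 (this.symm ▸ hCH he)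
        · rw [hρout v hv] at h1
          exact hj (h.fam.di v i j h1).symm
      intro v j j' h1
      by_cases hj : j = i <;> by_cases hj' : j' = i
      · rw [hj, hj']
      · rw [hj, hT₁i, hT₁j j' hj'] at h1
        exact absurd h1 (hne v j' hj')
      · rw [hj', hT₁i, hT₁j j hj] at h1
        exact absurd h1.symm (hne v j hj)
      · rw [hT₁j j hj, hT₁j j' hj'] at h1
        exact h.fam.di v j j' h1
    · intro e
      rw [mem_sdiff, mem_union, mem_sdiff]
      constructor
      · rintro ⟨h1, h2⟩
        by_cases h3 : e ∈ H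
        · have h4 : e ∈ C := by
            by_contra h5
            exact h2 (Or.inl ⟨h3, h5⟩)
          refine ⟨i, ?_⟩
          rw [hT₁i]
          exact hρin e h4
        · obtain ⟨j, h4⟩ := (h.fam.cov e).1 (mem_sdiff.2 ⟨h1, h3⟩)
          by_cases hj : j = i
          · subst hj
            rcases hcases e.2 with ⟨e', he', h5⟩ | hv
            · exact absurd (Or.inr (mem_freed.2 ⟨e', he', h5, h4⟩)) h2
            · refine ⟨j, ?_⟩
              rw [hT₁i, hρout _ hv]
              exact h4
          · refine ⟨j, ?_⟩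
            rw [hT₁j j hj]
            exact h4
      · rintro ⟨j, h1⟩
        by_cases hj : j = i
        · subst hj
          rw [hT₁i] at h1
          rcases hcases e.2 with ⟨e', he', h5⟩ | hv
          · rw [← h5, hρin e' he'] at h1
            have h6 : e' = e := Prod.ext h1 h5
            subst h6
            refine ⟨hHU (hCH he'), ?_⟩
            rintro (h7 | h7)
            · exact h7.2 he'
            · exact hKH _ h7 (hCH he')
          · rw [hρout _ hv] at h1
            have h6 := mem_sdiff.1 ((h.fam.cov e).2 ⟨j, h1⟩)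
            refine ⟨h6.1, ?_⟩
            rintro (h7 | h7)
            · exact h6.2 h7.1
            · obtain ⟨e', he', h8, -⟩ := mem_freed.1 h7
              exact hv e' he' h8
        · rw [hT₁j j hj] at h1
          have h6 := mem_sdiff.1 ((h.fam.cov e).2 ⟨j, h1⟩)
          refine ⟨h6.1, ?_⟩
          rintro (h7 | h7)
          · exact h6.2 h7.1
          · obtain ⟨-, -, -, h8⟩ := mem_freed.1 h7
            exact hj (h.fam.di _ _ _ (h1.trans h8.symm))
  -- repair
  obtain ⟨T', hT'1, hT'2⟩ := Fam.repair (a := a) 𝒩 (Z := U \ ((H \ C) ∪ K))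
    (fun z hz => le_trans (Nat.add_le_add_right (card_le_card
      (filter_subset_filter _ sdiff_subset)) _) (hc z hz)) i _ T₁
    (Finset.univ.filter fun v => a (T₁ i v) v ∉ 𝒩) rfl hfam
    (by
      intro j hj v v' h1
      rw [hT₁j j hj] at h1
      exact h.si j v v' h1)
    (by
      intro v v' hv hv' h1
      have hv1 : a (T₁ i v) v ∈ 𝒩 := by
        by_contra h2
        exact hv (mem_filter.2 ⟨mem_univ _, h2⟩)
      rw [hT₁i] at hv1 h1
      have hin : ∀ e ∈ C, ∀ w, (∀ e ∈ C, e.2 ≠ w) → a e.1 e.2 ∈ 𝒩 →
          a e.1 e.2 ≠ a (T i w) w := by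
        intro e he w hw h3 h2
        have h3' : hed (ka 𝒩 nm) (ndk a 𝒩 (T i)) e = some w := by
          rw [hed_eq_some hsi, hname e (hCH he) h3]
          exact ⟨h3, h2.symm⟩
        obtain ⟨e', he', h4⟩ := hC.cl e he w h3'
        exact hw e' he' h4
      rcases hcases v with ⟨e, he, rfl⟩ | hv <;> rcases hcases v' with ⟨e', he', rfl⟩ | hv'
      · rw [hρin e he, hρin e' he'] at h1
        rw [hρin e he] at hv1
        have hv1' : a e'.1 e'.2 ∈ 𝒩 := h1 ▸ hv1
        have h2 : nm e = nm e' := by
          rw [hname e (hCH he) hv1, hname e' (hCH he') hv1']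
          exact h1
        have h3 : hed (ka 𝒩 nm) (ndk a 𝒩 (T i)) e = hed (ka 𝒩 nm) (ndk a 𝒩 (T i)) e' := by
          have h4 : nm e ∈ 𝒩 := by
            rw [hname e (hCH he) hv1]
            exact hv1
          unfold hed ka
          rw [← h2, if_pos h4, if_pos h4]
        rw [hC.hdi e he e' he' h3]
      · rw [hρin e he, hρout v' hv'] at h1
        rw [hρin e he] at hv1
        exact absurd h1 (hin e he v' hv' hv1)
      · rw [hρin e' he', hρout v hv] at h1
        rw [hρout v hv] at hv1
        exact absurd h1.symm (hin e' he' v hv (h1 ▸ hv1))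
      · rw [hρout v hv, hρout v' hv'] at h1
        exact hsi v v' h1)
    (fun v hv => (mem_filter.1 hv).2)
  refine ⟨T', (H \ C) ∪ K, fun e => if e ∈ H then nm e else sm a e,
    ⟨hT'1, ?_, hT'2, ?_, ?_, ?_, ?_, ?_⟩, ?_⟩
  · intro e he
    rcases mem_union.1 he with he | he
    · exact hHU (mem_sdiff.1 he).1
    · exact hKU e he
  · intro v
    rw [filter_union, card_union_of_disjoint (disjoint_filter_filter hdisj)]
    rcases hcases v with ⟨e, he, rfl⟩ | hv
    · have h1 : ((H \ C).filter fun e' => e'.2 = e.2) = (H.filter fun e' => e'.2 = e.2).erase e := by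
        ext e'
        simp only [mem_filter, mem_sdiff, mem_erase]
        constructor
        · rintro ⟨⟨h2, h3⟩, h4⟩
          exact ⟨fun h5 => h3 (h5 ▸ he), h2, h4⟩
        · rintro ⟨h2, h3, h4⟩
          exact ⟨⟨h3, fun h5 => h2 (hC.tl e' h5 e he h4)⟩, h4⟩
      have h2 : (K.filter fun e' => e'.2 = e.2) = {(T i e.2, e.2)} := by
        ext e'
        rw [mem_filter, mem_singleton, hK, mem_freed]
        constructor
        · rintro ⟨⟨e'', he'', h3, h4⟩, h5⟩
          rw [h5] at h4
          exact Prod.ext h4.symm h5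
        · rintro rfl
          exact ⟨⟨e, he, rfl, rfl⟩, rfl⟩
      have h3 : e ∈ H.filter fun e' => e'.2 = e.2 := mem_filter.2 ⟨hCH he, rfl⟩
      have h4 : 0 < (H.filter fun e' => e'.2 = e.2).card := card_pos.2 ⟨e, h3⟩
      rw [h1, h2, card_erase_of_mem h3, card_singleton, ← h.col e.2]
      omega
    · have h1 : ((H \ C).filter fun e' => e'.2 = v) = H.filter fun e' => e'.2 = v := by
        ext e'
        simp only [mem_filter, mem_sdiff]
        constructor
        · rintro ⟨⟨h2, h3⟩, h4⟩
          exact ⟨h2, h4⟩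
        · rintro ⟨h2, h4⟩
          exact ⟨⟨h2, fun h5 => hv e' h5 h4⟩, h4⟩
      have h2 : (K.filter fun e' => e'.2 = v) = ∅ := by
        rw [eq_empty_iff_forall_notMem]
        intro e' he'
        rw [mem_filter, hK, mem_freed] at he'
        obtain ⟨⟨e'', he'', h3, h4⟩, h5⟩ := he'
        exact hv e'' he'' (h3.trans h5)
      rw [h1, h2, card_empty, add_zero, h.col v]
  · intro e he
    rcases mem_union.1 he with he | he
    · have h1 := (mem_sdiff.1 he).1
      simp only [if_pos h1]
      exact h.nmo e h1
    · simp only [if_neg (hKH e he)]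
      exact Or.inl trivial
  · intro e he e' he' h1 h2
    rcases mem_union.1 he with he | he <;> rcases mem_union.1 he' with he' | he'
    · have h3 := (mem_sdiff.1 he).1
      have h4 := (mem_sdiff.1 he').1
      simp only [if_pos h3, if_pos h4] at h2
      exact h.nmr e h3 e' h4 h1 h2
    · exact absurd h1 (hKrow e' he' e (mem_sdiff.1 he).1)
    · exact absurd h1.symm (hKrow e he e' (mem_sdiff.1 he').1)
    · obtain ⟨-, -, -, h3⟩ := mem_freed.1 he
      obtain ⟨-, -, -, h4⟩ := mem_freed.1 he'
      exact Prod.ext h1 (h.fam.ri i (h3.trans (h1.trans h4.symm)))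
  · intro r
    by_cases hex : ∃ e ∈ K, e.1 = r ∧ sm a e ∉ 𝒩
    · obtain ⟨e, he, h1, h2⟩ := hex
      have h3 : 𝒩.card ≤ Fintype.card V := hf.resolve_right (fun h4 => h2 (h4 _))
      have h4 : (((H \ C) ∪ K).filter fun e => e.1 = r ∧
          (if e ∈ H then nm e else sm a e) ∉ 𝒩).card ≤ 1 := by
        refine (card_le_card (t := {e}) ?_).trans (card_singleton e).le
        intro e' he'
        rw [mem_filter] at he'
        rw [mem_singleton]
        rcases mem_union.1 he'.1 with h5 | h5
        · exact absurd (he'.2.1.trans h1.symm) (hKrow e he e' (mem_sdiff.1 h5).1)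
        · obtain ⟨-, -, -, h6⟩ := mem_freed.1 he
          obtain ⟨-, -, -, h7⟩ := mem_freed.1 h5
          have h8 : e'.1 = e.1 := he'.2.1.trans h1.symm
          exact Prod.ext h8 (h.fam.ri i (h7.trans (h8.trans h6.symm)))
      omega
    · push Not at hex
      refine (Nat.add_le_add_right (card_le_card ?_) _).trans (h.nmw r)
      intro e' he'
      rw [mem_filter] at he' ⊢
      rcases mem_union.1 he'.1 with h5 | h5
      · have h6 := (mem_sdiff.1 h5).1
        have h7 := he'.2.2
        rw [if_pos h6] at h7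
        exact ⟨h6, he'.2.1, h7⟩
      · exfalso
        have h7 := he'.2.2
        rw [if_neg (hKH e' h5)] at h7
        exact h7 (hex e' h5 he'.2.1)
  · intro y hy
    rw [filter_union, card_union_of_disjoint (disjoint_filter_filter hdisj)]
    have e1 : ((H \ C).filter fun e => (if e ∈ H then nm e else sm a e) = y) =
        (H \ C).filter fun e => nm e = y := by
      refine filter_congr fun e he => ?_
      rw [if_pos (mem_sdiff.1 he).1]
    have e2 : (K.filter fun e => (if e ∈ H then nm e else sm a e) = y) =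
        K.filter fun e => sm a e = y := by
      refine filter_congr fun e he => ?_
      rw [if_neg (hKH e he)]
    rw [e1, e2]
    have hK1 : (K.filter fun e => sm a e = y).card ≤ 1 := by
      rw [card_le_one]
      intro e he e' he'
      rw [mem_filter, hK, mem_freed] at he he'
      obtain ⟨⟨-, -, -, h1⟩, h2⟩ := he
      obtain ⟨⟨-, -, -, h3⟩, h4⟩ := he'
      have h5 : a (T i e.2) e.2 = a (T i e'.2) e'.2 := by
        rw [h1, h3]
        exact h2.trans h4.symm
      have h6 := hsi _ _ h5
      exact Prod.ext (by rw [← h1, ← h3, h6]) h6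
    have hsub : ((H \ C).filter fun e => nm e = y) ⊆ H.filter fun e => nm e = y :=
      filter_subset_filter _ sdiff_subset
    have hle := (card_le_card hsub).trans (h.nmd y hy)
    rcases Nat.eq_zero_or_pos ((K.filter fun e => sm a e = y).card) with h0 | h0
    · omega
    · obtain ⟨e, he⟩ := card_pos.1 h0
      rw [mem_filter, hK, mem_freed] at he
      obtain ⟨⟨e', he', h1, h2⟩, h3⟩ := he
      have hyv : a (T i e.2) e.2 = y := by
        rw [h2]
        exact h3
      by_cases h4 : ∃ e'' ∈ C, hed (ka 𝒩 nm) (ndk a 𝒩 (T i)) e'' = some e'.2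
      · obtain ⟨e'', he'', h5⟩ := h4
        have h6 : nm e'' = y := by
          have := ((hed_eq_some hsi).1 h5).2
          rw [← this, h1]
          exact hyv
        have h7 : ((H \ C).filter fun e => nm e = y).card <
            (H.filter fun e => nm e = y).card := by
          refine card_lt_card ⟨hsub, fun h8 => ?_⟩
          have h9 := h8 (mem_filter.2 ⟨hCH he'', h6⟩)
          exact (mem_sdiff.1 (mem_filter.1 h9).1).2 he''
        have := h.nmd y hy
        omega
      · push Not at h4
        have h5 := hC.st e' he' h4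
        unfold slt at h5
        have hyv' : a (T i e'.2) e'.2 = y := by
          rw [h1]
          exact hyv
        rw [h.filter_hed i (hyv'.symm ▸ hy), hyv'] at h5
        have h6 := card_le_card hsub
        omega
  · -- the number of free cells grows
    have h1 : (Fr H \ C) ∪ K ⊆ Fr ((H \ C) ∪ K) := by
      intro e he
      rw [mem_Fr]
      rcases mem_union.1 he with he | he
      · obtain ⟨h2, h3⟩ := mem_sdiff.1 he
        obtain ⟨h4, h5⟩ := mem_Fr.1 h2
        refine ⟨mem_union_left _ (mem_sdiff.2 ⟨h4, h3⟩), ?_⟩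
        intro e' he' h6
        rcases mem_union.1 he' with he' | he'
        · exact h5 e' (mem_sdiff.1 he').1 h6
        · exact absurd h6.symm (hKrow e' he' e h4)
      · refine ⟨mem_union_right _ he, ?_⟩
        intro e' he' h6
        rcases mem_union.1 he' with he' | he'
        · exact absurd h6 (hKrow e he e' (mem_sdiff.1 he').1)
        · obtain ⟨-, -, -, h7⟩ := mem_freed.1 he
          obtain ⟨-, -, -, h8⟩ := mem_freed.1 he'
          have h9 := h.fam.ri i (h8.trans (h6.trans h7.symm))
          exact Prod.ext h6 h9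
    have h2 : K.card = C.card := by
      rw [hK]
      unfold freed
      refine card_image_of_injOn ?_
      intro e he e' he' h3
      exact hC.tl e he e' he' (Prod.mk.inj h3).2
    have h3 : Disjoint (Fr H \ C) K := by
      rw [disjoint_left]
      intro e he he'
      exact hKH e he' (Fr_subset (mem_sdiff.1 he).1)
    have h4 := card_le_card h1
    rw [card_union_of_disjoint h3, h2] at h4
    have h5 : (Fr H).card ≤ (Fr H \ C).card + (C.erase e₀).card := by
      refine (card_le_card ?_).trans (card_union_le _ _)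
      intro e he
      rw [mem_union, mem_sdiff, mem_erase]
      by_cases h6 : e ∈ C
      · exact Or.inr ⟨fun h7 => hfr (h7 ▸ he), h6⟩
      · exact Or.inl ⟨he, h6⟩
    have h6 : 0 < C.card := card_pos.2 ⟨e₀, he₀⟩
    rw [card_erase_of_mem he₀] at h5
    omega

end Pool.Agent.Rl45
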