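import Pool.Agent.Rl45.Repair

/-!
# States with named cells
-/

open Finset

set_option autoImplicit false
set_option linter.unusedSectionVars false

namespace Pool.Agent.Rl45

variable {R V S : Type*} [Fintype R] [DecidableEq R] [Fintype V] [DecidableEq V]
  [Fintype S] [DecidableEq S]

/-- `T` is a family of disjoint transversals with the cells `U \ H`; the cells of `H` have names:
the name of a cell is its symbol, or the symbol is not in `𝒩` and the name is in `𝒩`. -/
structure Sn (a : R → V → S) (𝒩 : Finset S) {N : ℕ} (T : Fin N → V → R) (H : Finset (R × V))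
    (nm : R × V → S) (D : ℕ) (U : Finset (R × V)) : Prop where
  fam : Fam T (U \ H)
  HU : H ⊆ U
  si : ∀ i v v', a (T i v) v = a (T i v') v' → v = v'
  col : ∀ v, (H.filter fun e => e.2 = v).card = D
  nmo : ∀ e ∈ H, nm e = sm a e ∨ (nm e ∈ 𝒩 ∧ sm a e ∉ 𝒩)
  nmr : ∀ e ∈ H, ∀ e' ∈ H, e.1 = e'.1 → nm e = nm e' → e = e'
  nmw : ∀ r, (H.filter fun e => e.1 = r ∧ nm e ∉ 𝒩).card + 𝒩.card ≤ Fintype.card V + 1
  nmd : ∀ y ∈ 𝒩, (H.filter fun e => nm e = y).card ≤ D

variable {a : R → V → S} {𝒩 : Finset S} {N : ℕ} {T : Fin N → V → R} {H : Finset (R × V)}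
  {nm : R × V → S} {D : ℕ} {U : Finset (R × V)}

theorem Sn.dj (h : Sn a 𝒩 T H nm D U) (i : Fin N) (v : V) : (T i v, v) ∉ H := by
  have h1 : (T i v, v) ∈ U \ H := (h.fam.cov _).2 ⟨i, rfl⟩
  exact (mem_sdiff.1 h1).2

theorem Sn.card_H (h : Sn a 𝒩 T H nm D U) : H.card = Fintype.card V * D := by
  rw [card_eq_sum_card_fiberwise (f := Prod.snd) (t := Finset.univ) (fun _ _ => mem_univ _),
    sum_congr rfl fun v _ => h.col v, sum_const, card_univ, smul_eq_mul]

theorem Sn.exists_clean (h : Sn a 𝒩 T H nm D U)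
    (hN : Fintype.card V * D * (Fintype.card V - 1) < N) : ∃ i, Clean T H i := by
  classical
  by_contra hcon
  push Not at hcon
  have h1 : ∀ i, ∃ p : (R × V) × V, p.1 ∈ H ∧ p.1.1 = T i p.2 := by
    intro i
    have := hcon i
    unfold Clean at this
    push Not at this
    obtain ⟨v, e, he, h2⟩ := this
    exact ⟨(e, v), he, h2⟩
  choose p hp1 hp2 using h1
  have hne : ∀ i, (p i).2 ≠ (p i).1.2 := by
    intro i h3
    have h4 : (T i (p i).2, (p i).2) = (p i).1 := by
      rw [← hp2 i]
      exact Prod.ext rfl h3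
    exact h.dj i (p i).2 (h4 ▸ hp1 i)
  have h5 : (Finset.univ : Finset (Fin N)).card ≤
      (H.biUnion fun e => (Finset.univ.erase e.2).image fun v => (e, v)).card := by
    refine card_le_card_of_injOn p ?_ ?_
    · intro i _
      rw [mem_coe, mem_biUnion]
      refine ⟨(p i).1, hp1 i, mem_image.2 ⟨(p i).2, ?_, rfl⟩⟩
      exact mem_erase.2 ⟨hne i, mem_univ _⟩
    · intro i _ j _ hij
      refine h.fam.di (p i).2 i j ?_
      rw [← hp2 i, hij, ← hp2 j]
  have h6 : (H.biUnion fun e => (Finset.univ.erase e.2).image fun v => (e, v)).card ≤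
      H.card * (Fintype.card V - 1) := by
    refine card_biUnion_le_card_mul _ _ _ fun e _ => ?_
    refine card_image_le.trans ?_
    rw [card_erase_of_mem (mem_univ _), card_univ]
  rw [card_univ, Fintype.card_fin] at h5
  rw [h.card_H] at h6
  omega

/-- the class of a cell: its name if it is in `𝒩`, otherwise its column -/
def ka (𝒩 : Finset S) (nm : R × V → S) (e : R × V) : S ⊕ V :=
  if nm e ∈ 𝒩 then Sum.inl (nm e) else Sum.inr e.2

/-- the vertex of a class -/
noncomputable def ndk (a : R → V → S) (𝒩 : Finset S) (t : V → R) : S ⊕ V → Option V :=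
  Sum.elim (fun y => if y ∈ 𝒩 then nod a t y else none) (fun _ => none)

theorem hed_eq_some {t : V → R} (ht : ∀ v v', a (t v) v = a (t v') v' → v = v') {e : R × V}
    {v : V} : hed (ka 𝒩 nm) (ndk a 𝒩 t) e = some v ↔ nm e ∈ 𝒩 ∧ a (t v) v = nm e := by
  unfold hed ka ndk
  by_cases h : nm e ∈ 𝒩
  · simp only [if_pos h, Sum.elim_inl]
    rw [nod_eq_some ht]
    exact ⟨fun h1 => ⟨h, h1⟩, fun h1 => h1.2⟩
  · simp only [if_neg h, Sum.elim_inr]
    constructor
    · intro h1
      cases h1
    · intro h1
      exact absurd h1.1 h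

/-- the slots -/
noncomputable def slt (a : R → V → S) (𝒩 : Finset S) (t : V → R) (H : Finset (R × V))
    (nm : R × V → S) (D : ℕ) (v : V) : ℕ :=
  D - (H.filter fun e => hed (ka 𝒩 nm) (ndk a 𝒩 t) e = some v).card

theorem Sn.filter_hed (h : Sn a 𝒩 T H nm D U) (i : Fin N) {v : V} (hv : a (T i v) v ∈ 𝒩) :
    (H.filter fun e => hed (ka 𝒩 nm) (ndk a 𝒩 (T i)) e = some v) =
      H.filter fun e => nm e = a (T i v) v := by
  refine filter_congr fun e _ => ?_
  rw [hed_eq_some (h.si i)]
  constructor
  · exact fun h1 => h1.2.symm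
  · exact fun h1 => ⟨h1 ▸ hv, h1.symm⟩

theorem Sn.filter_hed_le (h : Sn a 𝒩 T H nm D U) (i : Fin N) (v : V) :
    (H.filter fun e => hed (ka 𝒩 nm) (ndk a 𝒩 (T i)) e = some v).card ≤ D := by
  by_cases hv : a (T i v) v ∈ 𝒩
  · rw [h.filter_hed i hv]
    exact h.nmd _ hv
  · have : (H.filter fun e => hed (ka 𝒩 nm) (ndk a 𝒩 (T i)) e = some v) = ∅ := by
      rw [eq_empty_iff_forall_notMem]
      intro e he
      rw [mem_filter, hed_eq_some (h.si i)] at he
      exact hv (he.2.2 ▸ he.2.1)
    rw [this, card_empty]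
    exact Nat.zero_le _

theorem Sn.cfg (h : Sn a 𝒩 T H nm D U) (hD : 0 < D) (i : Fin N) :
    Cfg H (ka 𝒩 nm) (ndk a 𝒩 (T i)) (slt a 𝒩 (T i) H nm D) D
      (Finset.univ.filter fun v => a (T i v) v ∉ 𝒩) 1 := by
  classical
  refine ⟨h.col, ?_, ?_, ?_, ?_, ⟨?_, ?_⟩, ?_⟩
  · intro v
    have h1 := h.filter_hed_le i v
    unfold slt
    unfold hed at h1 ⊢
    omega
  · intro y
    rcases y with y | v
    · by_cases hy : y ∈ 𝒩
      · refine (card_le_card ?_).trans (h.nmd y hy)
        intro e he
        rw [mem_filter] at he ⊢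
        refine ⟨he.1, ?_⟩
        have h1 := he.2
        unfold ka at h1
        split_ifs at h1
        exact Sum.inl_injective h1
      · have : (H.filter fun e => ka 𝒩 nm e = Sum.inl y) = ∅ := by
          rw [eq_empty_iff_forall_notMem]
          intro e he
          rw [mem_filter] at he
          have h1 := he.2
          unfold ka at h1
          split_ifs at h1 with h2
          exact hy (Sum.inl_injective h1 ▸ h2)
        rw [this, card_empty]
        exact Nat.zero_le _
    · refine (card_le_card ?_).trans (h.col v).le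
      intro e he
      rw [mem_filter] at he ⊢
      refine ⟨he.1, ?_⟩
      have h1 := he.2
      unfold ka at h1
      split_ifs at h1
      exact Sum.inr_injective h1
  · intro e he e' he' h1 h2
    unfold ka at h2
    split_ifs at h2 with h3 h4 h4
    · exact h.nmr e he e' he' h1 (Sum.inl_injective h2)
    · exact Prod.ext h1 (Sum.inr_injective h2)
  · intro y y' v h1 h2
    have key : ∀ y : S ⊕ V, ndk a 𝒩 (T i) y = some v → y = Sum.inl (a (T i v) v) := by
      intro y hy
      rcases y with y | v'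
      · unfold ndk at hy
        rw [Sum.elim_inl] at hy
        split_ifs at hy
        rw [(nod_eq_some (h.si i)).1 hy]
      · unfold ndk at hy
        rw [Sum.elim_inr] at hy
        cases hy
    rw [key y h1, key y' h2]
  · intro v hv
    rw [mem_filter] at hv
    have h1 : (H.filter fun e => hed (ka 𝒩 nm) (ndk a 𝒩 (T i)) e = some v) = ∅ := by
      rw [eq_empty_iff_forall_notMem]
      intro e he
      rw [mem_filter, hed_eq_some (h.si i)] at he
      exact hv.2 (he.2.2 ▸ he.2.1)
    unfold slt
    rw [h1, card_empty]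
    exact hD
  · intro v hv e he h1
    rw [mem_filter] at hv
    rw [hed_eq_some (h.si i)] at h1
    exact hv.2 (h1.2 ▸ h1.1)
  · intro r
    set W := Finset.univ.filter fun v => a (T i v) v ∉ 𝒩 with hW
    set A := Finset.univ.filter fun v => a (T i v) v ∈ 𝒩 with hA
    have hAW : A.card + W.card = Fintype.card V := by
      rw [hA, hW, card_filter_add_card_filter_not, card_univ]
    set Im := A.image fun v => a (T i v) v with hIm
    have hImc : Im.card = A.card := card_image_of_injective _ (fun v v' => h.si i v v')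
    have hImN : Im ⊆ 𝒩 := by
      intro y hy
      obtain ⟨v, hv, rfl⟩ := mem_image.1 hy
      exact (mem_filter.1 hv).2
    have h1 : (H.filter fun e => e.1 = r ∧ ndk a 𝒩 (T i) (ka 𝒩 nm e) = none).card ≤
        (H.filter fun e => e.1 = r ∧ nm e ∉ 𝒩).card + (𝒩 \ Im).card := by
      have h2 : (H.filter fun e => e.1 = r ∧ nm e ∈ 𝒩 ∧ nm e ∉ Im).card ≤ (𝒩 \ Im).card := by
        refine card_le_card_of_injOn nm ?_ ?_
        · intro e he
          rw [mem_coe, mem_filter] at he
          exact mem_coe.2 (mem_sdiff.2 ⟨he.2.2.1, he.2.2.2⟩)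
        · intro e he e' he' h3
          rw [mem_coe, mem_filter] at he he'
          exact h.nmr e he.1 e' he'.1 (he.2.1.trans he'.2.1.symm) h3
      refine le_trans ?_ (Nat.add_le_add_left h2 _)
      refine (card_le_card ?_).trans (card_union_le _ _)
      intro e he
      rw [mem_filter] at he
      rw [mem_union, mem_filter, mem_filter]
      by_cases h3 : nm e ∈ 𝒩
      · right
        refine ⟨he.1, he.2.1, h3, ?_⟩
        intro h4
        obtain ⟨v, hv, h5⟩ := mem_image.1 h4
        have h6 : hed (ka 𝒩 nm) (ndk a 𝒩 (T i)) e = some v :=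
          (hed_eq_some (h.si i)).2 ⟨h3, h5⟩
        unfold hed at h6
        rw [he.2.2] at h6
        cases h6
      · left
        exact ⟨he.1, he.2.1, h3⟩
    rw [card_sdiff_of_subset hImN, hImc] at h1
    have h2 := h.nmw r
    have h3 := card_le_card hImN
    rw [hImc] at h3
    omega

end Pool.Agent.Rl45
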