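import Pool.Agent.Rl45.NCore

/-!
# The two phases
-/

open Finset

set_option autoImplicit false
set_option linter.unusedSectionVars false

namespace Pool.Agent.Rl45

variable {R V S : Type*} [Fintype R] [DecidableEq R] [Fintype V] [DecidableEq V]
  [Fintype S] [DecidableEq S]

variable {a : R → V → S} {𝒩 : Finset S} {N : ℕ} {T : Fin N → V → R} {F H : Finset (R × V)}
  {nm : R × V → S} {d D : ℕ} {U : Finset (R × V)}

/-- Real names. -/
theorem Sn.of_real (ha : ∀ r, Function.Injective (a r))
    (hU : ∀ r, (Finset.univ.filter fun v => (r, v) ∈ U ∧ a r v ∉ 𝒩).card + 𝒩.card ≤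
      Fintype.card V + 1)
    (hfam : Fam T (U \ H)) (hHU : H ⊆ U)
    (hsi : ∀ i v v', a (T i v) v = a (T i v') v' → v = v')
    (hcol : ∀ v, (H.filter fun e => e.2 = v).card = D)
    (hsym : ∀ y ∈ 𝒩, (H.filter fun e => sm a e = y).card ≤ D) :
    Sn a 𝒩 T H (sm a) D U := by
  refine ⟨hfam, hHU, hsi, hcol, fun _ _ => Or.inl rfl, ?_, ?_, hsym⟩
  · intro e _ e' _ h1 h2
    unfold sm at h2
    rw [← h1] at h2
    exact Prod.ext h1 (ha _ h2)
  · intro r
    refine (Nat.add_le_add_right ?_ _).trans (hU r)
    refine card_le_card_of_injOn Prod.snd ?_ ?_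
    · intro e he
      rw [mem_coe, mem_filter] at he
      rw [mem_coe, mem_filter]
      obtain ⟨h1, h2, h3⟩ := he
      subst h2
      exact ⟨mem_univ _, hHU h1, h3⟩
    · intro e he e' he' h1
      rw [mem_coe, mem_filter] at he he'
      exact Prod.ext (he.2.1.trans he'.2.1.symm) h1

/-- One step of the first phase. -/
theorem Sn.step (h : Sn a 𝒩 T F (sm a) d U) (ha : ∀ r, Function.Injective (a r))
    (hU : ∀ r, (Finset.univ.filter fun v => (r, v) ∈ U ∧ a r v ∉ 𝒩).card + 𝒩.card ≤
      Fintype.card V + 1)
    (hV : 0 < Fintype.card V)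
    (hf : 𝒩.card ≤ Fintype.card V ∨ ∀ z, z ∈ 𝒩)
    (hc : ∀ z ∉ 𝒩, (U.filter fun e => sm a e = z).card +
      Fintype.card V * (Fintype.card V - 1) ≤ N)
    (hD : Fintype.card V ≤ D) (hN : Fintype.card V * D * (Fintype.card V - 1) < N)
    (hd : D ≤ d) :
    ∃ (T' : Fin (N + 1) → V → R) (F' : Finset (R × V)), Sn a 𝒩 T' F' (sm a) (d - 1) U := by
  classical
  have hka : ∀ (X : Finset (R × V)), ∀ y ∈ 𝒩,
      (X.filter fun e => ka 𝒩 (sm a) e = Sum.inl y) = X.filter fun e => sm a e = y := by
    intro X y hy
    refine filter_congr fun e _ => ?_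
    rw [ka_eq_inl]
    exact ⟨fun h6 => h6.1, fun h6 => ⟨h6, hy⟩⟩
  obtain ⟨H, hHF, h1, h2, h3⟩ := exists_portion F (ka 𝒩 (sm a)) d h.col (by
    intro y
    rcases y with y | v
    · by_cases hy : y ∈ 𝒩
      · rw [hka F y hy]
        exact h.nmd y hy
      · have : (F.filter fun e => ka 𝒩 (sm a) e = Sum.inl y) = ∅ := by
          rw [eq_empty_iff_forall_notMem]
          intro e he
          rw [mem_filter, ka_eq_inl] at he
          exact hy he.2.2
        rw [this, card_empty]
        exact Nat.zero_le _
    · refine (card_le_card ?_).trans (h.col v).le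
      intro e he
      rw [mem_filter] at he ⊢
      refine ⟨he.1, ?_⟩
      have h1 := he.2
      unfold ka at h1
      split_ifs at h1
      exact Sum.inr_injective h1) D hd
  have hset : (U \ (F \ H)) \ H = U \ F := by
    ext e
    simp only [mem_sdiff]
    have := @hHF e
    tauto
  have hst : Sn a 𝒩 T H (sm a) D (U \ (F \ H)) := by
    refine Sn.of_real ha ?_ (by rw [hset]; exact h.fam) ?_ h.si h1 ?_
    · intro r
      refine (Nat.add_le_add_right (card_le_card ?_) _).trans (hU r)
      intro v hv
      rw [mem_filter] at hv ⊢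
      exact ⟨hv.1, (mem_sdiff.1 hv.2.1).1, hv.2.2⟩
    · intro e he
      rw [mem_sdiff, mem_sdiff]
      exact ⟨h.HU (hHF he), fun h4 => h4.2 he⟩
    · intro y hy
      rw [← hka H y hy]
      exact h2 _
  obtain ⟨T', H', nm', h4⟩ := hst.core hV hf (fun z hz => le_trans (Nat.add_le_add_right
    (card_le_card (filter_subset_filter _ sdiff_subset)) _) (hc z hz)) hD hN
  have hdisj : Disjoint H' (F \ H) := by
    rw [disjoint_left]
    intro e he he'
    exact (mem_sdiff.1 (h4.HU he)).2 he'
  refine ⟨T', H' ∪ (F \ H), Sn.of_real ha hU ?_ ?_ h4.si ?_ ?_⟩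
  · have : U \ (H' ∪ (F \ H)) = (U \ (F \ H)) \ H' := by
      ext e
      simp only [mem_sdiff, mem_union]
      tauto
    rw [this]
    exact h4.fam
  · intro e he
    rcases mem_union.1 he with he | he
    · exact (mem_sdiff.1 (h4.HU he)).1
    · exact h.HU (mem_sdiff.1 he).1
  · intro v
    rw [filter_union, card_union_of_disjoint (disjoint_filter_filter hdisj), h4.col v]
    have h5 : ((F \ H).filter fun e => e.2 = v) =
        (F.filter fun e => e.2 = v) \ (H.filter fun e => e.2 = v) := by
      ext e
      simp only [mem_filter, mem_sdiff]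
      tauto
    rw [h5, card_sdiff_of_subset (filter_subset_filter _ hHF), h.col v, h1 v]
    omega
  · intro y hy
    rw [filter_union, card_union_of_disjoint (disjoint_filter_filter hdisj)]
    have h5 : (H'.filter fun e => sm a e = y).card ≤ D - 1 := by
      refine (card_le_card ?_).trans (h4.nmd y hy)
      intro e he
      rw [mem_filter] at he ⊢
      refine ⟨he.1, ?_⟩
      rcases h4.nmo e he.1 with h6 | h6
      · rw [h6, he.2]
      · exact absurd (he.2 ▸ hy) h6.2
    have h6 := h3 (Sum.inl y)
    rw [hka _ y hy] at h6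
    omega

/-- The first phase. -/
theorem Sn.iterate (ha : ∀ r, Function.Injective (a r))
    (hU : ∀ r, (Finset.univ.filter fun v => (r, v) ∈ U ∧ a r v ∉ 𝒩).card + 𝒩.card ≤
      Fintype.card V + 1)
    (hV : 0 < Fintype.card V)
    (hf : 𝒩.card ≤ Fintype.card V ∨ ∀ z, z ∈ 𝒩) (j : ℕ) :
    ∀ (N : ℕ) (T : Fin N → V → R) (F : Finset (R × V)),
    (∀ z ∉ 𝒩, (U.filter fun e => sm a e = z).card +
      Fintype.card V * (Fintype.card V - 1) ≤ N) →
    Fintype.card V * Fintype.card V * (Fintype.card V - 1) < N →
    Sn a 𝒩 T F (sm a) (Fintype.card V - 1 + j) U →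
    ∃ (N' : ℕ) (T' : Fin N' → V → R) (F' : Finset (R × V)), N' = N + j ∧
      Sn a 𝒩 T' F' (sm a) (Fintype.card V - 1) U := by
  induction j with
  | zero =>
    intro N T F _ _ h
    exact ⟨N, T, F, rfl, h⟩
  | succ j ih =>
    intro N T F hc hN h
    obtain ⟨T₁, F₁, h1⟩ := h.step ha hU hV hf hc le_rfl hN (by omega)
    obtain ⟨N', T', F', h2, h3⟩ := ih (N + 1) T₁ F₁
      (fun z hz => (hc z hz).trans (Nat.le_succ _)) (by omega) (by
      have : Fintype.card V - 1 + (j + 1) - 1 = Fintype.card V - 1 + j := by omega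
      exact this ▸ h1)
    exact ⟨N', T', F', by omega, h3⟩

/-- the cells of a set of rows -/
def cells (G : Finset R) : Finset (R × V) := Finset.univ.filter fun e => e.1 ∈ G

theorem mem_cells {G : Finset R} {e : R × V} : e ∈ cells (V := V) G ↔ e.1 ∈ G := by
  unfold cells
  simp

/-- Adding a row. -/
theorem Sn.addRow {G : Finset R} (h : Sn a 𝒩 T F nm (Fintype.card V - 1) (cells G))
    (hV : 0 < Fintype.card V) (hf : 𝒩.card ≤ Fintype.card V) {c : R} (hcG : c ∉ G)
    {nmc : V → S} (hn1 : Function.Injective nmc)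
    (hn2 : ∀ v, nmc v = a c v ∨ (nmc v ∈ 𝒩 ∧ a c v ∉ 𝒩)) (hn3 : ∀ y ∈ 𝒩, ∃ v, nmc v = y)
    (hc : ∀ z ∉ 𝒩, ((cells (V := V) (insert c G)).filter fun e => sm a e = z).card +
      Fintype.card V * (Fintype.card V - 1) ≤ N)
    (hN : Fintype.card V * Fintype.card V * (Fintype.card V - 1) < N) :
    ∃ (T' : Fin (N + 1) → V → R) (H' : Finset (R × V)) (nm' : R × V → S),
      Sn a 𝒩 T' H' nm' (Fintype.card V - 1) (cells (insert c G)) := by
  classical
  set P : Finset (R × V) := Finset.univ.filter fun e => e.1 = c with hP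
  have hmP : ∀ e, e ∈ P ↔ e.1 = c := by
    intro e
    rw [hP]
    simp
  have hFc : ∀ e ∈ F, e.1 ≠ c := by
    intro e he h1
    exact hcG (h1 ▸ mem_cells.1 (h.HU he))
  have hdisj : Disjoint F P := by
    rw [disjoint_left]
    intro e he he'
    exact hFc e he ((hmP e).1 he')
  set nm' : R × V → S := fun e => if e.1 = c then nmc e.2 else nm e with hnm'
  have hnP : ∀ e, e.1 = c → nm' e = nmc e.2 := fun e he => if_pos he
  have hnF : ∀ e, e.1 ≠ c → nm' e = nm e := fun e he => if_neg he
  have hst : Sn a 𝒩 T (F ∪ P) nm' (Fintype.card V) (cells (insert c G)) := by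
    refine ⟨?_, ?_, h.si, ?_, ?_, ?_, ?_, ?_⟩
    · have : (cells (V := V) (insert c G)) \ (F ∪ P) = cells G \ F := by
        ext e
        simp only [mem_sdiff, mem_union, mem_cells, hmP, mem_insert]
        constructor
        · rintro ⟨h1 | h1, h2⟩
          · exact absurd (Or.inr h1) h2
          · exact ⟨h1, fun h3 => h2 (Or.inl h3)⟩
        · rintro ⟨h1, h2⟩
          refine ⟨Or.inr h1, ?_⟩
          rintro (h3 | h3)
          · exact h2 h3
          · exact hcG (h3 ▸ h1)
      rw [this]
      exact h.fam
    · intro e he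
      rw [mem_cells, mem_insert]
      rcases mem_union.1 he with he | he
      · exact Or.inr (mem_cells.1 (h.HU he))
      · exact Or.inl ((hmP e).1 he)
    · intro v
      rw [filter_union, card_union_of_disjoint (disjoint_filter_filter hdisj), h.col v]
      have h1 : (P.filter fun e => e.2 = v) = {(c, v)} := by
        ext e
        rw [mem_filter, hmP, mem_singleton]
        constructor
        · rintro ⟨h2, h3⟩
          exact Prod.ext h2 h3
        · rintro rfl
          exact ⟨rfl, rfl⟩
      rw [h1, card_singleton]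
      omega
    · intro e he
      rcases mem_union.1 he with he | he
      · rw [hnF e (hFc e he)]
        exact h.nmo e he
      · have h1 := (hmP e).1 he
        rw [hnP e h1]
        have h2 := hn2 e.2
        unfold sm
        rw [h1]
        exact h2
    · intro e he e' he' h1 h2
      by_cases h3 : e.1 = c
      · have h4 : e'.1 = c := h1 ▸ h3
        rw [hnP e h3, hnP e' h4] at h2
        exact Prod.ext h1 (hn1 h2)
      · have h4 : e'.1 ≠ c := h1 ▸ h3
        rw [hnF e h3, hnF e' h4] at h2
        have h5 : ∀ x ∈ F ∪ P, x.1 ≠ c → x ∈ F := by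
          intro x hx hx'
          rcases mem_union.1 hx with hx | hx
          · exact hx
          · exact absurd ((hmP x).1 hx) hx'
        exact h.nmr e (h5 e he h3) e' (h5 e' he' h4) h1 h2
    · intro r
      by_cases hr : r = c
      · subst hr
        have h1 : ((F ∪ P).filter fun e => e.1 = r ∧ nm' e ∉ 𝒩).card ≤
            (Finset.univ.filter fun v => nmc v ∉ 𝒩).card := by
          refine card_le_card_of_injOn Prod.snd ?_ ?_
          · intro e he
            rw [mem_coe, mem_filter] at he
            rw [mem_coe, mem_filter]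
            refine ⟨mem_univ _, ?_⟩
            have h2 := he.2.2
            rw [hnP e he.2.1] at h2
            exact h2
          · intro e he e' he' h2
            rw [mem_coe, mem_filter] at he he'
            exact Prod.ext (he.2.1.trans he'.2.1.symm) h2
        have h2 : 𝒩.card ≤ (Finset.univ.filter fun v => nmc v ∈ 𝒩).card := by
          have h3 : 𝒩 ⊆ (Finset.univ.filter fun v => nmc v ∈ 𝒩).image nmc := by
            intro y hy
            obtain ⟨v, hv⟩ := hn3 y hy
            exact mem_image.2 ⟨v, mem_filter.2 ⟨mem_univ _, hv ▸ hy⟩, hv⟩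
          exact (card_le_card h3).trans card_image_le
        have h3 : (Finset.univ.filter fun v => nmc v ∈ 𝒩).card +
            (Finset.univ.filter fun v => nmc v ∉ 𝒩).card = Fintype.card V := by
          rw [card_filter_add_card_filter_not, card_univ]
        omega
      · refine (Nat.add_le_add_right (card_le_card ?_) _).trans (h.nmw r)
        intro e he
        rw [mem_filter] at he ⊢
        have h1 : e.1 ≠ c := he.2.1 ▸ hr
        have h2 := he.2.2
        rw [hnF e h1] at h2
        refine ⟨?_, he.2.1, h2⟩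
        rcases mem_union.1 he.1 with h3 | h3
        · exact h3
        · exact absurd ((hmP e).1 h3) h1
    · intro y hy
      rw [filter_union, card_union_of_disjoint (disjoint_filter_filter hdisj)]
      have h1 : (F.filter fun e => nm' e = y).card ≤ Fintype.card V - 1 := by
        refine (card_le_card ?_).trans (h.nmd y hy)
        intro e he
        rw [mem_filter] at he ⊢
        have h2 := he.2
        rw [hnF e (hFc e he.1)] at h2
        exact ⟨he.1, h2⟩
      have h2 : (P.filter fun e => nm' e = y).card ≤ 1 := by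
        rw [card_le_one]
        intro e he e' he'
        rw [mem_filter, hmP] at he he'
        have h3 := he.2.trans he'.2.symm
        rw [hnP e he.1, hnP e' he'.1] at h3
        exact Prod.ext (he.1.trans he'.1.symm) (hn1 h3)
      omega
  exact hst.core hV (Or.inl hf) hc le_rfl hN

end Pool.Agent.Rl45
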