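import Pool.Agent.DisjTrans49.Russo

/-!
# Rainbow walks in balanced coloured digraphs with a hub

Vertices are the elements of `Option V`; `none` is the hub.  A cell `e = (r, x)` of `H` is an arc
of colour `r` from `some x` to `hd e`; there are uncoloured arcs from the hub to the `v` with
`0 < s v` (with multiplicity `s v`).  If no rainbow walk leaves `Q` and returns to `Q`, few arcs
leave `Q`.
-/

open Finset

set_option autoImplicit false
set_option linter.unusedSectionVars false

namespace Pool.Agent.Rl45

open Pool.Agent.DisjTrans49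

variable {R V : Type*} [Fintype R] [DecidableEq R] [Fintype V] [DecidableEq V]

/-- A rainbow walk from `Q` to a vertex outside `Q`; all vertices after the first are outside `Q`,
the colours that are used form the first argument. -/
inductive Rch (H : Finset (R × V)) (hd : R × V → Option V) (s : V → ℕ) (Q : Finset (Option V)) :
    Finset R → Option V → Prop
  | qcell {r : R} {x : V} (h1 : (r, x) ∈ H) (h2 : some x ∈ Q) (h3 : hd (r, x) ∉ Q) :
      Rch H hd s Q {r} (hd (r, x))
  | qvirt {v : V} (h1 : none ∈ Q) (h2 : 0 < s v) (h3 : some v ∉ Q) : Rch H hd s Q ∅ (some v)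
  | cell {L : Finset R} {r : R} {x : V} (h : Rch H hd s Q L (some x)) (h1 : (r, x) ∈ H)
      (h2 : r ∉ L) (h3 : hd (r, x) ∉ Q) : Rch H hd s Q (insert r L) (hd (r, x))
  | virt {L : Finset R} {v : V} (h : Rch H hd s Q L none) (h2 : 0 < s v) (h3 : some v ∉ Q) :
      Rch H hd s Q L (some v)

/-- No rainbow walk leaves `Q` and returns to `Q`. -/
structure Blocked (H : Finset (R × V)) (hd : R × V → Option V) (s : V → ℕ)
    (Q : Finset (Option V)) : Prop where
  cell : ∀ (L : Finset R) (x : V) (r : R), Rch H hd s Q L (some x) → (r, x) ∈ H → r ∉ L →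
    hd (r, x) ∉ Q
  virt : ∀ (L : Finset R) (v : V), Rch H hd s Q L none → 0 < s v → some v ∉ Q

/-- The vertices outside `Q` that are reached from `Q` by rainbow walks with colours in `L`. -/
noncomputable def Re (H : Finset (R × V)) (hd : R × V → Option V) (s : V → ℕ)
    (Q : Finset (Option V)) (L : Finset R) : Finset (Option V) := by
  classical
  exact Finset.univ.filter fun u => ∃ L' ⊆ L, Rch H hd s Q L' u

variable {H : Finset (R × V)} {hd : R × V → Option V} {s : V → ℕ} {Q : Finset (Option V)}

theorem mem_Re {L : Finset R} {u : Option V} :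
    u ∈ Re H hd s Q L ↔ ∃ L' ⊆ L, Rch H hd s Q L' u := by
  unfold Re
  simp

theorem Rch.notMem {L : Finset R} {u : Option V} (h : Rch H hd s Q L u) : u ∉ Q := by
  cases h <;> assumption

theorem Re_mono {L L' : Finset R} (h : L ⊆ L') : Re H hd s Q L ⊆ Re H hd s Q L' := by
  intro u hu
  rw [mem_Re] at hu ⊢
  obtain ⟨M, h1, h2⟩ := hu
  exact ⟨M, h1.trans h, h2⟩

theorem Re_notMem {L : Finset R} {u : Option V} (h : u ∈ Re H hd s Q L) : u ∉ Q := by
  rw [mem_Re] at h
  obtain ⟨M, -, h2⟩ := h
  exact h2.notMem

theorem Re_qcell {L : Finset R} {e : R × V} (h1 : e ∈ H) (h2 : some e.2 ∈ Q) (h3 : hd e ∉ Q)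
    (h4 : e.1 ∈ L) : hd e ∈ Re H hd s Q L := by
  rw [mem_Re]
  exact ⟨{e.1}, by simpa using h4, Rch.qcell (r := e.1) (x := e.2) h1 h2 h3⟩

theorem Re_cell {L : Finset R} {e : R × V} (h : some e.2 ∈ Re H hd s Q (L.erase e.1))
    (h1 : e ∈ H) (h3 : hd e ∉ Q) (h4 : e.1 ∈ L) : hd e ∈ Re H hd s Q L := by
  rw [mem_Re] at h ⊢
  obtain ⟨M, h5, h6⟩ := h
  refine ⟨insert e.1 M, ?_, Rch.cell (r := e.1) (x := e.2) h6 h1 ?_ h3⟩
  · rw [insert_subset_iff]
    exact ⟨h4, h5.trans (erase_subset _ _)⟩
  · intro h
    exact notMem_erase _ _ (h5 h)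

theorem Re_virt {L : Finset R} {v : V} (h : none ∈ Q ∨ none ∈ Re H hd s Q L)
    (h2 : 0 < s v) (h3 : some v ∉ Q) : some v ∈ Re H hd s Q L := by
  rcases h with h | h
  · rw [mem_Re]
    exact ⟨∅, empty_subset _, Rch.qvirt h h2 h3⟩
  · rw [mem_Re] at h ⊢
    obtain ⟨M, h5, h6⟩ := h
    exact ⟨M, h5, Rch.virt h6 h2 h3⟩

theorem Rch.ne_empty {L : Finset R} {u : Option V} (h : Rch H hd s Q L u) (hQ : none ∉ Q) :
    L ≠ ∅ := by
  induction h with
  | qcell h1 h2 h3 => simp
  | qvirt h1 h2 h3 => exact absurd h1 hQ
  | cell h h1 h2 h3 ih => simp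
  | virt h h2 h3 ih => exact ih

theorem Re_empty (hQ : none ∉ Q) : Re H hd s Q ∅ = ∅ := by
  rw [Finset.eq_empty_iff_forall_notMem]
  intro u hu
  rw [mem_Re] at hu
  obtain ⟨M, h1, h2⟩ := hu
  exact h2.ne_empty hQ (subset_empty.1 h1)

/-- the number of columns in a set of vertices -/
def cnt (X : Finset (Option V)) : ℕ := ((Finset.univ : Finset V).filter fun v => some v ∈ X).card

theorem cnt_mono {X Y : Finset (Option V)} (h : X ⊆ Y) : cnt X ≤ cnt Y :=
  card_le_card (fun v hv => by
    rw [mem_filter] at hv ⊢
    exact ⟨hv.1, h hv.2⟩)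

/-- The number of arcs that leave `Q`. -/
def outQ (H : Finset (R × V)) (hd : R × V → Option V) (s : V → ℕ) (Q : Finset (Option V)) : ℕ :=
  (H.filter fun e => some e.2 ∈ Q ∧ hd e ∉ Q).card +
    if none ∈ Q then ∑ v ∈ (Finset.univ : Finset V).filter (fun v => some v ∉ Q), s v else 0

section Flow

variable {D : ℕ}

/-- balance of the hub -/
theorem hub_balance (hcol : ∀ v, (H.filter fun e => e.2 = v).card = D)
    (hin : ∀ v, (H.filter fun e => hd e = some v).card + s v = D) :
    (H.filter fun e => hd e = none).card = ∑ v, s v := by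
  have h1 : H.card = Fintype.card V * D := by
    rw [card_eq_sum_card_fiberwise (f := Prod.snd) (t := Finset.univ) (fun _ _ => mem_univ _),
      sum_congr rfl fun v _ => hcol v, sum_const, card_univ, smul_eq_mul]
  have h2 : H.card = ∑ u : Option V, (H.filter fun e => hd e = u).card :=
    card_eq_sum_card_fiberwise (f := hd) (t := Finset.univ) (fun _ _ => mem_univ _)
  rw [Fintype.sum_option] at h2
  have h3 : ∑ v, ((H.filter fun e => hd e = some v).card + s v) = Fintype.card V * D := by
    rw [sum_congr rfl fun v _ => hin v, sum_const, card_univ, smul_eq_mul]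
  rw [sum_add_distrib] at h3
  omega

/-- The flow identity, as an inequality. -/
theorem out_le (hcol : ∀ v, (H.filter fun e => e.2 = v).card = D)
    (hin : ∀ v, (H.filter fun e => hd e = some v).card + s v = D)
    (hB : Blocked H hd s Q) (L : Finset R) :
    outQ H hd s Q ≤ (H.filter fun e => (some e.2 ∈ Q ∨ some e.2 ∈ Re H hd s Q L) ∧
      hd e ∉ Re H hd s Q L ∧ ¬(some e.2 ∈ Q ∧ hd e ∈ Q)).card := by
  set Z := Re H hd s Q L with hZ
  have hZQ : ∀ u ∈ Z, u ∉ Q := fun u hu => Re_notMem hu
  -- cells with tail in `Q`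
  have e1 : (H.filter fun e => some e.2 ∈ Q).card = D * cnt Q := by
    rw [card_eq_sum_card_fiberwise (f := Prod.snd) (t := Finset.univ.filter fun v => some v ∈ Q)
      (fun e he => by
        rw [mem_coe, mem_filter] at he ⊢
        exact ⟨mem_univ _, he.2⟩)]
    have : ∀ v ∈ Finset.univ.filter (fun v : V => some v ∈ Q),
        ((H.filter fun e => some e.2 ∈ Q).filter fun e => e.2 = v).card = D := by
      intro v hv
      rw [← hcol v, filter_filter]
      congr 1
      refine filter_congr fun e _ => ?_
      constructor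
      · exact fun h => h.2
      · exact fun h => ⟨by rw [h]; exact (mem_filter.1 hv).2, h⟩
    rw [sum_congr rfl this, sum_const, smul_eq_mul, mul_comm]
    rfl
  have e2 : (H.filter fun e => some e.2 ∈ Z).card = D * cnt Z := by
    rw [card_eq_sum_card_fiberwise (f := Prod.snd) (t := Finset.univ.filter fun v => some v ∈ Z)
      (fun e he => by
        rw [mem_coe, mem_filter] at he ⊢
        exact ⟨mem_univ _, he.2⟩)]
    have : ∀ v ∈ Finset.univ.filter (fun v : V => some v ∈ Z),
        ((H.filter fun e => some e.2 ∈ Z).filter fun e => e.2 = v).card = D := by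
      intro v hv
      rw [← hcol v, filter_filter]
      congr 1
      refine filter_congr fun e _ => ?_
      constructor
      · exact fun h => h.2
      · exact fun h => ⟨by rw [h]; exact (mem_filter.1 hv).2, h⟩
    rw [sum_congr rfl this, sum_const, smul_eq_mul, mul_comm]
    rfl
  -- cells with head in `Z`
  have e3 : (H.filter fun e => hd e ∈ Z).card =
      (∑ v ∈ Finset.univ.filter (fun v : V => some v ∈ Z), (H.filter fun e => hd e = some v).card)
      + if none ∈ Z then (H.filter fun e => hd e = none).card else 0 := by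
    rw [card_eq_sum_card_fiberwise (f := hd) (t := Finset.univ) (fun _ _ => mem_univ _),
      Fintype.sum_option, add_comm]
    congr 1
    · rw [sum_filter]
      refine sum_congr rfl fun v _ => ?_
      split_ifs with h
      · rw [filter_filter]
        congr 1
        refine filter_congr fun e _ => ?_
        constructor
        · exact fun h => h.2
        · exact fun h' => ⟨by rw [h']; exact h, h'⟩
      · rw [card_eq_zero, Finset.eq_empty_iff_forall_notMem]
        intro e he
        rw [mem_filter, mem_filter] at he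
        exact h (he.2 ▸ he.1.2)
    · split_ifs with h
      · rw [filter_filter]
        congr 1
        refine filter_congr fun e _ => ?_
        constructor
        · exact fun h => h.2
        · exact fun h' => ⟨by rw [h']; exact h, h'⟩
      · rw [card_eq_zero, Finset.eq_empty_iff_forall_notMem]
        intro e he
        rw [mem_filter, mem_filter] at he
        exact h (he.2 ▸ he.1.2)
  have e4 : (∑ v ∈ Finset.univ.filter (fun v : V => some v ∈ Z),
      (H.filter fun e => hd e = some v).card) +
      ∑ v ∈ Finset.univ.filter (fun v : V => some v ∈ Z), s v = D * cnt Z := by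
    rw [← sum_add_distrib, sum_congr rfl fun v _ => hin v, sum_const, smul_eq_mul, mul_comm]
    rfl
  have e5 : (H.filter fun e => some e.2 ∈ Q).card =
      (H.filter fun e => some e.2 ∈ Q ∧ hd e ∉ Q).card +
      (H.filter fun e => some e.2 ∈ Q ∧ hd e ∈ Q).card := by
    rw [← card_union_of_disjoint]
    · congr 1
      ext e
      simp only [mem_filter, mem_union]
      tauto
    · rw [disjoint_left]
      intro e h1 h2
      rw [mem_filter] at h1 h2
      exact h1.2.2 h2.2.2
  have e6 : (H.filter fun e => some e.2 ∈ Q ∨ some e.2 ∈ Z).card =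
      (H.filter fun e => some e.2 ∈ Q).card + (H.filter fun e => some e.2 ∈ Z).card := by
    rw [← card_union_of_disjoint]
    · congr 1
      ext e
      simp only [mem_filter, mem_union]
      tauto
    · rw [disjoint_left]
      intro e h1 h2
      rw [mem_filter] at h1 h2
      exact hZQ _ h2.2 h1.2
  -- upper bound
  have e7 : (H.filter fun e => some e.2 ∈ Q ∨ some e.2 ∈ Z).card ≤
      (H.filter fun e => (some e.2 ∈ Q ∨ some e.2 ∈ Z) ∧ hd e ∉ Z ∧
        ¬(some e.2 ∈ Q ∧ hd e ∈ Q)).card +
      ((H.filter fun e => hd e ∈ Z).card + (H.filter fun e => some e.2 ∈ Q ∧ hd e ∈ Q).card) := by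
    refine (card_le_card ?_).trans ((card_union_le _ _).trans
      (Nat.add_le_add_left (card_union_le _ _) _))
    intro e he
    simp only [mem_filter, mem_union] at he ⊢
    tauto
  have hbal := hub_balance (H := H) (hd := hd) (s := s) hcol hin
  unfold outQ
  by_cases hn : none ∈ Z
  · have hnQ : none ∉ Q := hZQ _ hn
    have e8 : ∑ v ∈ Finset.univ.filter (fun v : V => some v ∈ Z), s v = ∑ v, s v := by
      refine sum_subset (filter_subset _ _) ?_
      intro v _ hv
      by_contra hs
      have hs' : 0 < s v := Nat.pos_of_ne_zero hs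
      apply hv
      rw [mem_filter]
      refine ⟨mem_univ _, Re_virt (Or.inr hn) hs' ?_⟩
      have hn' := hn
      rw [hZ, mem_Re] at hn'
      obtain ⟨M, -, h2⟩ := hn'
      exact hB.virt M v h2 hs'
    rw [if_pos hn] at e3
    rw [if_neg hnQ]
    omega
  · rw [if_neg hn] at e3
    by_cases hnQ : none ∈ Q
    · rw [if_pos hnQ]
      have e8 : ∑ v ∈ Finset.univ.filter (fun v : V => some v ∉ Q), s v ≤
          ∑ v ∈ Finset.univ.filter (fun v : V => some v ∈ Z), s v := by
        rw [sum_filter, sum_filter]
        refine sum_le_sum fun v _ => ?_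
        by_cases h1 : some v ∈ Q
        · rw [if_neg (by simpa using h1)]
          exact Nat.zero_le _
        · rw [if_pos h1]
          by_cases hs : s v = 0
          · rw [hs]
            exact Nat.zero_le _
          · rw [if_pos (Re_virt (Or.inl hnQ) (Nat.pos_of_ne_zero hs) h1)]
      omega
    · rw [if_neg hnQ]
      omega

end Flow

end Pool.Agent.Rl45
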