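import Pool.Agent.Rl45.State

/-!
# Repairing repeated symbols
-/

open Finset

set_option autoImplicit false
set_option linter.unusedSectionVars false

namespace Pool.Agent.Rl45

variable {R V S : Type*} [Fintype R] [DecidableEq R] [Fintype V] [DecidableEq V]
  [Fintype S] [DecidableEq S]

/-- A cell in every column, distinct symbols, all symbols of degree `d`. -/
theorem exists_peel_of {R V S : Type*} [Fintype R] [DecidableEq R] [Fintype V] [DecidableEq V]
    [Fintype S] [DecidableEq S] (F : Finset (R × V)) (sy : R × V → S) (d : ℕ) (hd : 0 < d)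
    (hcol : ∀ v, (F.filter fun e => e.2 = v).card ≤ d)
    (hsym : ∀ y, (F.filter fun e => sy e = y).card ≤ d) (g : V → R) (hg : ∀ v, (g v, v) ∈ F)
    (hgi : Function.Injective fun v => sy (g v, v)) :
    ∃ f : V → R, (∀ v, (f v, v) ∈ F) ∧ (Function.Injective fun v => sy (f v, v)) ∧
      ∀ y, ((F.filter fun e => f e.2 ≠ e.1).filter fun e => sy e = y).card ≤ d - 1 := by
  classical
  obtain ⟨f, hf1, hf2, hf3⟩ := exists_matching (V := V) (S := S)
    (fun v y => ∃ r, (r, v) ∈ F ∧ sy (r, v) = y)
    (fun y => (F.filter fun e => sy e = y).card = d)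
    (by
      intro X N hXN
      refine card_le_card_of_injOn (fun v => sy (g v, v)) ?_ ?_
      · intro v hv
        exact mem_coe.2 (hXN v (mem_coe.1 hv) _ ⟨g v, hg v, rfl⟩)
      · intro v _ v' _ h
        exact hgi h)
    (by
      intro Y hY N hYN
      have e1 : (F.filter fun e => sy e ∈ Y).card = Y.card * d := by
        rw [card_eq_sum_card_fiberwise (s := F.filter fun e => sy e ∈ Y) (f := sy) (t := Y)
          (fun e he => (mem_filter.1 (mem_coe.1 he)).2)]
        have : ∀ y ∈ Y, ((F.filter fun e => sy e ∈ Y).filter fun e => sy e = y).card = d := by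
          intro y hy
          rw [← hY y hy, filter_filter]
          congr 1
          refine filter_congr fun e _ => ?_
          exact ⟨fun h => h.2, fun h => ⟨by rw [h]; exact hy, h⟩⟩
        rw [sum_congr rfl this, sum_const, smul_eq_mul]
      have e2 : (F.filter fun e => sy e ∈ Y).card ≤ (F.filter fun e => e.2 ∈ N).card := by
        refine card_le_card ?_
        intro e he
        rw [mem_filter] at he ⊢
        exact ⟨he.1, hYN _ he.2 e.2 ⟨e.1, he.1, rfl⟩⟩
      have e3 : (F.filter fun e => e.2 ∈ N).card ≤ N.card * d := by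
        rw [card_eq_sum_card_fiberwise (s := F.filter fun e => e.2 ∈ N) (f := Prod.snd) (t := N)
          (fun e he => (mem_filter.1 (mem_coe.1 he)).2)]
        refine (sum_le_sum (g := fun _ => d) fun v _ => ?_).trans (by rw [sum_const, smul_eq_mul])
        refine (card_le_card ?_).trans (hcol v)
        intro e he
        rw [mem_filter, mem_filter] at he
        exact mem_filter.2 ⟨he.1.1, he.2⟩
      exact Nat.le_of_mul_le_mul_right (e1 ▸ e2.trans e3) hd)
  choose ρ hρ1 hρ2 using hf2
  refine ⟨ρ, hρ1, ?_, ?_⟩
  · intro v v' h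
    simp only [hρ2] at h
    exact hf1 h
  · intro y
    have hsub : ((F.filter fun e => ρ e.2 ≠ e.1).filter fun e => sy e = y) ⊆
        F.filter fun e => sy e = y := filter_subset_filter _ (filter_subset _ _)
    have hle := card_le_card hsub
    rcases Nat.lt_or_ge ((F.filter fun e => sy e = y).card) d with h4 | h4
    · omega
    · obtain ⟨v, hv⟩ := hf3 y (le_antisymm (hsym y) h4)
      have h7 : ((F.filter fun e => ρ e.2 ≠ e.1).filter fun e => sy e = y).card <
          (F.filter fun e => sy e = y).card := by
        refine card_lt_card ⟨hsub, fun h8 => ?_⟩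
        have h9 := h8 (mem_filter.2 ⟨hρ1 v, (hρ2 v).trans hv⟩)
        exact (mem_filter.1 (mem_filter.1 h9).1).2 rfl
      have := hsym y
      omega

/-- Two sections: a swap that makes the second one proper again and improves the first one. -/
theorem exists_swap (a : R → V → S) {t t' : V → R} {E : Finset V} {w : V} (hw : w ∈ E)
    (hE : ∀ v v', v ∉ E → v' ∉ E → a (t v) v = a (t v') v' → v = v')
    (ht' : ∀ v v', a (t' v) v = a (t' v') v' → v = v')
    (hz : ∀ v, a (t' v) v ≠ a (t w) w) :
    ∃ X : Finset V, (∀ v ∈ X, v ∉ E.erase w) ∧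
      (∀ v v', a (if v ∈ X then t v else t' v) v = a (if v' ∈ X then t v' else t' v') v' →
        v = v') ∧
      (∀ v v', v ∉ E.erase w → v' ∉ E.erase w →
        a (if v ∈ X then t' v else t v) v = a (if v' ∈ X then t' v' else t v') v' → v = v') := by
  classical
  set F : Finset (Bool × V) := Finset.univ.filter fun b => b.1 = true ∨ b.2 ∉ E.erase w with hF
  let sy : Bool × V → S := fun b => if b.1 = true then a (t' b.2) b.2 else a (t b.2) b.2
  have hcol : ∀ v, (F.filter fun e => e.2 = v).card ≤ 2 := by
    intro v
    refine (card_le_card (t := {(true, v), (false, v)}) ?_).trans card_le_two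
    rintro ⟨b, v'⟩ he
    rw [mem_filter] at he
    have : v' = v := he.2
    subst this
    rw [mem_insert, mem_singleton]
    cases b
    · exact Or.inr rfl
    · exact Or.inl rfl
  have hsym : ∀ y, (F.filter fun e => sy e = y).card ≤ 2 := by
    intro y
    have h1 : ((F.filter fun e => sy e = y).filter fun e => e.1 = true).card +
        ((F.filter fun e => sy e = y).filter fun e => ¬ e.1 = true).card =
        (F.filter fun e => sy e = y).card := card_filter_add_card_filter_not _
    have hT : ∀ e ∈ (F.filter fun e => sy e = y).filter fun e => e.1 = true,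
        e.1 = true ∧ a (t' e.2) e.2 = y := by
      intro e he
      rw [mem_filter, mem_filter] at he
      have h2 := he.1.2
      simp only [sy, if_pos he.2] at h2
      exact ⟨he.2, h2⟩
    have hN : ∀ e ∈ (F.filter fun e => sy e = y).filter fun e => ¬ e.1 = true,
        e.1 = false ∧ a (t e.2) e.2 = y ∧ e.2 ∉ E.erase w := by
      intro e he
      rw [mem_filter, mem_filter, hF, mem_filter] at he
      have h2 := he.1.2
      simp only [sy, if_neg he.2] at h2
      refine ⟨by simpa using he.2, h2, ?_⟩
      exact he.1.1.2.resolve_left he.2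
    have h3 : ((F.filter fun e => sy e = y).filter fun e => e.1 = true).card ≤ 1 := by
      rw [card_le_one]
      intro e he e' he'
      obtain ⟨h4, h5⟩ := hT e he
      obtain ⟨h6, h7⟩ := hT e' he'
      exact Prod.ext (h4.trans h6.symm) (ht' _ _ (h5.trans h7.symm))
    by_cases hy : y = a (t w) w
    · have h4 : ((F.filter fun e => sy e = y).filter fun e => e.1 = true).card = 0 := by
        rw [card_eq_zero, eq_empty_iff_forall_notMem]
        intro e he
        exact hz _ ((hT e he).2.trans hy)
      have h5 : ((F.filter fun e => sy e = y).filter fun e => ¬ e.1 = true).card ≤ 2 := by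
        have h6 : (((F.filter fun e => sy e = y).filter fun e => ¬ e.1 = true).erase
            (false, w)).card ≤ 1 := by
          rw [card_le_one]
          intro e he e' he'
          rw [mem_erase] at he he'
          obtain ⟨h7, h8, h9⟩ := hN e he.2
          obtain ⟨h10, h11, h12⟩ := hN e' he'.2
          have h13 : e.2 ∉ E := by
            intro h
            by_cases h14 : e.2 = w
            · exact he.1 (Prod.ext h7 h14)
            · exact h9 (mem_erase.2 ⟨h14, h⟩)
          have h15 : e'.2 ∉ E := by
            intro h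
            by_cases h14 : e'.2 = w
            · exact he'.1 (Prod.ext h10 h14)
            · exact h12 (mem_erase.2 ⟨h14, h⟩)
          exact Prod.ext (h7.trans h10.symm) (hE _ _ h13 h15 (h8.trans h11.symm))
        have h7 := pred_card_le_card_erase (s := (F.filter fun e => sy e = y).filter
          fun e => ¬ e.1 = true) (a := (false, w))
        omega
      omega
    · have h5 : ((F.filter fun e => sy e = y).filter fun e => ¬ e.1 = true).card ≤ 1 := by
        rw [card_le_one]
        intro e he e' he'
        obtain ⟨h7, h8, h9⟩ := hN e he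
        obtain ⟨h10, h11, h12⟩ := hN e' he'
        have h13 : e.2 ∉ E := by
          intro h
          by_cases h14 : e.2 = w
          · rw [h14] at h8
            exact hy h8.symm
          · exact h9 (mem_erase.2 ⟨h14, h⟩)
        have h15 : e'.2 ∉ E := by
          intro h
          by_cases h14 : e'.2 = w
          · rw [h14] at h11
            exact hy h11.symm
          · exact h12 (mem_erase.2 ⟨h14, h⟩)
        exact Prod.ext (h7.trans h10.symm) (hE _ _ h13 h15 (h8.trans h11.symm))
      omega
  obtain ⟨f, hf1, hf2, hf3⟩ := exists_peel_of F sy 2 (by norm_num) hcol hsym (fun _ => true)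
    (fun v => mem_filter.2 ⟨mem_univ _, Or.inl rfl⟩)
    (by
      intro v v' h
      simp only [sy, if_true] at h
      exact ht' _ _ h)
  have hfE : ∀ v, f v = false → v ∉ E.erase w := by
    intro v hv
    have h1 := hf1 v
    rw [hF, mem_filter] at h1
    rcases h1.2 with h2 | h2
    · rw [hv] at h2
      cases h2
    · exact h2
  refine ⟨Finset.univ.filter fun v => f v = false, ?_, ?_, ?_⟩
  · intro v hv
    exact hfE v (mem_filter.1 hv).2
  · have hs : ∀ v, a (if v ∈ Finset.univ.filter (fun v => f v = false) then t v else t' v) v =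
        sy (f v, v) := by
      intro v
      rcases hfv : f v with _ | _
      · have h0 : v ∈ Finset.univ.filter (fun v => f v = false) :=
          mem_filter.2 ⟨mem_univ _, hfv⟩
        rw [if_pos h0]
        simp [sy]
      · have h0 : v ∉ Finset.univ.filter (fun v => f v = false) := by simp [hfv]
        rw [if_neg h0]
        simp [sy]
    intro v v' h
    rw [hs, hs] at h
    exact hf2 h
  · have hs : ∀ v, a (if v ∈ Finset.univ.filter (fun v => f v = false) then t' v else t v) v =
        sy (!f v, v) := by
      intro v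
      rcases hfv : f v with _ | _
      · have h0 : v ∈ Finset.univ.filter (fun v => f v = false) :=
          mem_filter.2 ⟨mem_univ _, hfv⟩
        rw [if_pos h0]
        simp [sy]
      · have h0 : v ∉ Finset.univ.filter (fun v => f v = false) := by simp [hfv]
        rw [if_neg h0]
        simp [sy]
    intro v v' h1 h2 h
    rw [hs, hs] at h
    have h3 := hf3 (sy (!f v', v'))
    have h4 : (2 : ℕ) - 1 = 1 := rfl
    rw [h4, card_le_one] at h3
    have hm : ∀ x, x ∉ E.erase w → (!f x, x) ∈ F.filter fun e => f e.2 ≠ e.1 := by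
      intro x hx
      rw [mem_filter, hF, mem_filter]
      refine ⟨⟨mem_univ _, Or.inr hx⟩, ?_⟩
      simp
    have h5 := h3 (!f v, v) (mem_filter.2 ⟨hm v h1, h⟩) (!f v', v') (mem_filter.2 ⟨hm v' h2, rfl⟩)
    exact congrArg Prod.snd h5

/-- A family of disjoint sections with the set `Z` of cells. -/
structure Fam {N : ℕ} (T : Fin N → V → R) (Z : Finset (R × V)) : Prop where
  ri : ∀ i, Function.Injective (T i)
  di : ∀ v i j, T i v = T j v → i = j
  cov : ∀ e, e ∈ Z ↔ ∃ i, T i e.2 = e.1

variable {a : R → V → S} {N : ℕ} {T : Fin N → V → R} {Z : Finset (R × V)}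

/-- A section without the symbol `z` and with other rows. -/
theorem Fam.exists_partner (h : Fam T Z) {i : Fin N} {z : S} {u w : V} (huw : u ≠ w)
    (hu : a (T i u) u = z) (hw : a (T i w) w = z)
    (hc : (Z.filter fun e => sm a e = z).card + Fintype.card V * (Fintype.card V - 1) ≤ N) :
    ∃ j, j ≠ i ∧ (∀ v, a (T j v) v ≠ z) ∧ ∀ v v', T j v ≠ T i v' := by
  classical
  by_contra hcon
  push Not at hcon
  let idx : R × V → Fin N := fun e => if h : ∃ j, T j e.2 = e.1 then h.choose else i
  have hidx : ∀ j v, idx (T j v, v) = j := by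
    intro j v
    have h1 : ∃ j', T j' (T j v, v).2 = (T j v, v).1 := ⟨j, rfl⟩
    have h2 : idx (T j v, v) = h1.choose := dif_pos h1
    rw [h2]
    exact h.di v _ _ h1.choose_spec
  set Zz := Z.filter fun e => sm a e = z with hZz
  have hm : ∀ v, a (T i v) v = z → (T i v, v) ∈ Zz := fun v hv =>
    mem_filter.2 ⟨(h.cov _).2 ⟨i, rfl⟩, hv⟩
  have hsub : (Finset.univ.erase i : Finset (Fin N)) ⊆
      (((Zz.erase (T i u, u)).erase (T i w, w)).image idx) ∪
        ((Finset.univ : Finset V).offDiag.image fun p => idx (T i p.1, p.2)) := by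
    intro j hj
    rw [mem_erase] at hj
    rw [mem_union, mem_image, mem_image]
    by_cases h1 : ∃ v, a (T j v) v = z
    · left
      obtain ⟨v, hv⟩ := h1
      refine ⟨(T j v, v), ?_, hidx j v⟩
      rw [mem_erase, mem_erase]
      refine ⟨?_, ?_, mem_filter.2 ⟨(h.cov _).2 ⟨j, rfl⟩, hv⟩⟩
      · intro h2
        have h3 := (Prod.mk.inj h2).2
        subst h3
        exact hj.1 (h.di _ _ _ (Prod.mk.inj h2).1)
      · intro h2
        have h3 := (Prod.mk.inj h2).2
        subst h3
        exact hj.1 (h.di _ _ _ (Prod.mk.inj h2).1)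
    · right
      push Not at h1
      obtain ⟨v, v', h2⟩ := hcon j hj.1 h1
      refine ⟨(v', v), ?_, ?_⟩
      · rw [mem_offDiag]
        refine ⟨mem_univ _, mem_univ _, ?_⟩
        intro h3
        have h4 : v' = v := h3
        rw [h4] at h2
        exact hj.1 (h.di _ _ _ h2)
      · simp only
        rw [← h2]
        exact hidx j v
  have h1 := (card_le_card hsub).trans (card_union_le _ _)
  have h2 : ((Finset.univ : Finset V).offDiag.image fun p => idx (T i p.1, p.2)).card ≤
      Fintype.card V * (Fintype.card V - 1) := by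
    refine card_image_le.trans ?_
    rw [offDiag_card, card_univ, Nat.mul_sub, Nat.mul_one]
  have h3 : (((Zz.erase (T i u, u)).erase (T i w, w)).image idx).card ≤ Zz.card - 1 - 1 := by
    refine card_image_le.trans ?_
    rw [card_erase_of_mem, card_erase_of_mem (hm u hu)]
    rw [mem_erase]
    refine ⟨?_, hm w hw⟩
    intro h4
    exact huw (Prod.mk.inj h4).2.symm
  have h4 : 1 < Zz.card := by
    rw [one_lt_card]
    refine ⟨_, hm u hu, _, hm w hw, ?_⟩
    intro h5
    exact huw (Prod.mk.inj h5).2
  rw [card_erase_of_mem (mem_univ _), card_univ, Fintype.card_fin] at h1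
  have h5 : 0 < N := Fin.pos i
  omega

/-- Swapping two sections on a set of columns. -/
theorem Fam.swap (h : Fam T Z) {i j : Fin N} (hij : j ≠ i) (hrow : ∀ v v', T j v ≠ T i v')
    (X : Finset V) :
    ∃ T' : Fin N → V → R, Fam T' Z ∧
      (∀ v, T' i v = if v ∈ X then T j v else T i v) ∧
      (∀ v, T' j v = if v ∈ X then T i v else T j v) ∧
      ∀ l, l ≠ i → l ≠ j → T' l = T l := by
  classical
  let σ : V → Equiv.Perm (Fin N) := fun v => if v ∈ X then Equiv.swap i j else 1
  have hi : ∀ v, T (σ v i) v = if v ∈ X then T j v else T i v := by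
    intro v
    simp only [σ]
    split_ifs
    · rw [Equiv.swap_apply_left]
    · rfl
  have hj : ∀ v, T (σ v j) v = if v ∈ X then T i v else T j v := by
    intro v
    simp only [σ]
    split_ifs
    · rw [Equiv.swap_apply_right]
    · rfl
  have hl : ∀ l, l ≠ i → l ≠ j → ∀ v, T (σ v l) v = T l v := by
    intro l h1 h2 v
    simp only [σ]
    split_ifs
    · rw [Equiv.swap_apply_of_ne_of_ne h1 h2]
    · rfl
  refine ⟨fun l v => T (σ v l) v, ⟨?_, ?_, ?_⟩, hi, hj, ?_⟩
  · intro l v v' h1
    simp only at h1
    by_cases hli : l = i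
    · subst hli
      rw [hi, hi] at h1
      split_ifs at h1
      · exact h.ri _ h1
      · exact absurd h1 (hrow _ _)
      · exact absurd h1.symm (hrow _ _)
      · exact h.ri _ h1
    · by_cases hlj : l = j
      · subst hlj
        rw [hj, hj] at h1
        split_ifs at h1
        · exact h.ri _ h1
        · exact absurd h1.symm (hrow _ _)
        · exact absurd h1 (hrow _ _)
        · exact h.ri _ h1
      · rw [hl l hli hlj, hl l hli hlj] at h1
        exact h.ri _ h1
  · intro v l l' h1
    exact (σ v).injective (h.di v _ _ h1)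
  · intro e
    rw [h.cov e]
    constructor
    · rintro ⟨l, h1⟩
      refine ⟨(σ e.2).symm l, ?_⟩
      simp only [Equiv.apply_symm_apply]
      exact h1
    · rintro ⟨l, h1⟩
      exact ⟨σ e.2 l, h1⟩
  · intro l h1 h2
    funext v
    exact hl l h1 h2 v

/-- Repairing one section. -/
theorem Fam.repair (𝒩 : Finset S)
    (hc : ∀ z ∉ 𝒩, (Z.filter fun e => sm a e = z).card +
      Fintype.card V * (Fintype.card V - 1) ≤ N) (i : Fin N) :
    ∀ (b : ℕ) (T : Fin N → V → R) (E : Finset V), E.card = b → Fam T Z →
      (∀ j, j ≠ i → ∀ v v', a (T j v) v = a (T j v') v' → v = v') →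
      (∀ v v', v ∉ E → v' ∉ E → a (T i v) v = a (T i v') v' → v = v') →
      (∀ v ∈ E, a (T i v) v ∉ 𝒩) →
      ∃ T' : Fin N → V → R, Fam T' Z ∧ ∀ j v v', a (T' j v) v = a (T' j v') v' → v = v' := by
  classical
  intro b
  induction b with
  | zero =>
    intro T E hE h h1 h2 _
    rw [card_eq_zero] at hE
    subst hE
    refine ⟨T, h, ?_⟩
    intro j
    by_cases hj : j = i
    · subst hj
      exact fun v v' => h2 v v' (notMem_empty _) (notMem_empty _)
    · exact h1 j hj
  | succ b ih =>
    intro T E hE h h1 h2 h3
    obtain ⟨w, hw⟩ : E.Nonempty := by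
      rw [← card_pos]
      omega
    have hcard : (E.erase w).card = b := by
      rw [card_erase_of_mem hw]
      omega
    by_cases hu : ∃ u, u ∉ E ∧ a (T i u) u = a (T i w) w
    · obtain ⟨u, hu1, hu2⟩ := hu
      have huw : u ≠ w := fun h4 => hu1 (h4 ▸ hw)
      obtain ⟨j, hj1, hj2, hj3⟩ := h.exists_partner huw hu2 rfl (hc _ (h3 w hw))
      obtain ⟨X, hX1, hX2, hX3⟩ := exists_swap a hw h2 (h1 j hj1) hj2
      obtain ⟨T', h4, h5, h6, h7⟩ := h.swap hj1 hj3 X
      refine ih T' (E.erase w) hcard h4 ?_ ?_ ?_
      · intro l hl v v' h8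
        by_cases hlj : l = j
        · subst hlj
          rw [h6, h6] at h8
          exact hX2 v v' h8
        · rw [h7 l hl hlj] at h8
          exact h1 l hl v v' h8
      · intro v v' hv hv' h8
        rw [h5, h5] at h8
        exact hX3 v v' hv hv' h8
      · intro v hv
        rw [h5, if_neg (fun h8 => hX1 v h8 hv)]
        exact h3 v (mem_of_mem_erase hv)
    · push Not at hu
      refine ih T (E.erase w) hcard h h1 ?_ (fun v hv => h3 v (mem_of_mem_erase hv))
      intro v v' hv hv' h8
      by_cases hvw : v = w <;> by_cases hvw' : v' = w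
      · rw [hvw, hvw']
      · subst hvw
        exact absurd h8.symm (hu v' (fun h9 => hv' (mem_erase.2 ⟨hvw', h9⟩)))
      · subst hvw'
        exact absurd h8 (hu v (fun h9 => hv (mem_erase.2 ⟨hvw, h9⟩)))
      · exact h2 v v' (fun h9 => hv (mem_erase.2 ⟨hvw, h9⟩))
          (fun h9 => hv' (mem_erase.2 ⟨hvw', h9⟩)) h8

end Pool.Agent.Rl45
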