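import Pool.Agent.Rl45.Phase

/-!
# Full symbols and names
-/

open Finset

set_option autoImplicit false
set_option linter.unusedSectionVars false

namespace Pool.Agent.Rl45

variable {R V S : Type*} [Fintype R] [DecidableEq R] [Fintype V] [DecidableEq V]
  [Fintype S] [DecidableEq S]

/-- A set of symbols and a set of rows: the symbols occur in all these rows, all other symbols
are missing in many of them. -/
theorem exists_full (a : R → V → S) (ha : ∀ r, Function.Injective (a r)) (K : ℕ)
    (hR : (Fintype.card V + 1) * K < Fintype.card R) :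
    ∃ (𝒩 : Finset S) (G : Finset R), 𝒩.card ≤ Fintype.card V ∧
      (∀ r ∈ G, ∀ y ∈ 𝒩, ∃ v, a r v = y) ∧
      (∀ z ∉ 𝒩, K < (G.filter fun r => ∀ v, a r v ≠ z).card) ∧
      (Gᶜ).card ≤ 𝒩.card * K := by
  classical
  obtain ⟨𝒩, h1, h2⟩ := Finset.exists_max_image
    ((Finset.univ : Finset (Finset S)).filter fun 𝒩 => 𝒩.card ≤ Fintype.card V ∧
      ∃ G : Finset R, (∀ r ∈ G, ∀ y ∈ 𝒩, ∃ v, a r v = y) ∧ (Gᶜ).card ≤ 𝒩.card * K)
    (fun 𝒩 => 𝒩.card) ⟨∅, by
      rw [mem_filter]
      exact ⟨mem_univ _, by simp, Finset.univ, by simp, by simp⟩⟩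
  rw [mem_filter] at h1
  obtain ⟨-, h0, G, h3, h4⟩ := h1
  refine ⟨𝒩, G, h0, h3, ?_, h4⟩
  intro z hz
  by_contra hK
  rw [not_lt] at hK
  rcases Nat.lt_or_ge 𝒩.card (Fintype.card V) with hlt | hge
  · have h5 := h2 (insert z 𝒩) (by
      rw [mem_filter]
      refine ⟨mem_univ _, ?_, G.filter fun r => ∃ v, a r v = z, ?_, ?_⟩
      · rw [card_insert_of_notMem hz]
        exact hlt
      · intro r hr y hy
        rw [mem_filter] at hr
        rcases mem_insert.1 hy with hy | hy
        · rw [hy]
          exact hr.2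
        · exact h3 r hr.1 y hy
      · have h6 : (G.filter fun r => ∃ v, a r v = z)ᶜ ⊆
            Gᶜ ∪ G.filter fun r => ∀ v, a r v ≠ z := by
          intro r hr
          rw [mem_compl, mem_filter] at hr
          rw [mem_union, mem_compl, mem_filter]
          by_cases h7 : r ∈ G
          · right
            refine ⟨h7, fun v hv => hr ⟨h7, v, hv⟩⟩
          · exact Or.inl h7
        have h7 := (card_le_card h6).trans (card_union_le _ _)
        rw [card_insert_of_notMem hz, Nat.add_mul, Nat.one_mul]
        omega)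
    rw [card_insert_of_notMem hz] at h5
    omega
  · have h5 : (G.filter fun r => ∀ v, a r v ≠ z) = G := by
      rw [filter_eq_self]
      intro r hr v hv
      have h6 : 𝒩 ⊆ Finset.univ.image (a r) := by
        intro y hy
        obtain ⟨v', hv'⟩ := h3 r hr y hy
        exact mem_image.2 ⟨v', mem_univ _, hv'⟩
      have h7 : 𝒩 = Finset.univ.image (a r) := by
        refine eq_of_subset_of_card_le h6 ?_
        rw [card_image_of_injective _ (ha r), card_univ]
        exact hge
      apply hz
      rw [h7]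
      exact mem_image.2 ⟨v, mem_univ _, hv⟩
    rw [h5] at hK
    have h6 : G.card + (Gᶜ).card = Fintype.card R := card_add_card_compl G
    have h7 : 𝒩.card * K ≤ Fintype.card V * K := Nat.mul_le_mul_right _ h0
    rw [Nat.add_mul, Nat.one_mul] at hR
    omega

/-- Names for the cells of a row. -/
theorem exists_names {𝒩 : Finset S} (hf : 𝒩.card ≤ Fintype.card V) {b : V → S}
    (hb : Function.Injective b) :
    ∃ nmc : V → S, Function.Injective nmc ∧ (∀ v, nmc v = b v ∨ (nmc v ∈ 𝒩 ∧ b v ∉ 𝒩)) ∧
      ∀ y ∈ 𝒩, ∃ v, nmc v = y := by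
  classical
  set Ms := 𝒩.filter fun y => ∀ v, b v ≠ y with hMs
  set Av := (Finset.univ : Finset V).filter fun v => b v ∉ 𝒩 with hAv
  have hcard : Ms.card ≤ Av.card := by
    have h1 : (𝒩.filter fun y => ¬ ∀ v, b v ≠ y) ⊆
        ((Finset.univ : Finset V).filter fun v => b v ∈ 𝒩).image b := by
      intro y hy
      rw [mem_filter] at hy
      obtain ⟨h2, h3⟩ := hy
      push Not at h3
      obtain ⟨v, hv⟩ := h3
      exact mem_image.2 ⟨v, mem_filter.2 ⟨mem_univ _, hv ▸ h2⟩, hv⟩
    have h1' : ((Finset.univ : Finset V).filter fun v => b v ∈ 𝒩).image b ⊆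
        𝒩.filter fun y => ¬ ∀ v, b v ≠ y := by
      intro y hy
      obtain ⟨v, hv, rfl⟩ := mem_image.1 hy
      rw [mem_filter] at hv ⊢
      exact ⟨hv.2, fun h => h v rfl⟩
    have h2 := card_le_card h1'
    rw [card_image_of_injective _ hb] at h2
    have h3 : Ms.card + (𝒩.filter fun y => ¬ ∀ v, b v ≠ y).card = 𝒩.card :=
      card_filter_add_card_filter_not _
    have h4 : ((Finset.univ : Finset V).filter fun v => b v ∈ 𝒩).card + Av.card =
        Fintype.card V := by
      rw [hAv, card_filter_add_card_filter_not, card_univ]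
    have h5 := (card_le_card h1).trans card_image_le
    omega
  obtain ⟨g⟩ : Nonempty (Ms ↪ Av) := by
    apply Function.Embedding.nonempty_of_card_le
    rw [Fintype.card_coe, Fintype.card_coe]
    exact hcard
  let nmc : V → S := fun v => if h : ∃ y : Ms, (g y : V) = v then (h.choose : S) else b v
  have hin : ∀ y : Ms, nmc (g y : V) = y := by
    intro y
    have h : ∃ y' : Ms, (g y' : V) = (g y : V) := ⟨y, rfl⟩
    have h1 : nmc (g y : V) = (h.choose : S) := dif_pos h
    rw [h1]
    have h2 : h.choose = y := g.injective (Subtype.ext h.choose_spec)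
    rw [h2]
  have hout : ∀ v, (∀ y : Ms, (g y : V) ≠ v) → nmc v = b v := by
    intro v hv
    have h : ¬ ∃ y : Ms, (g y : V) = v := by
      push Not
      exact hv
    exact dif_neg h
  have hcases : ∀ v, (∃ y : Ms, (g y : V) = v) ∨ ∀ y : Ms, (g y : V) ≠ v := by
    intro v
    by_cases h : ∃ y : Ms, (g y : V) = v
    · exact Or.inl h
    · push Not at h
      exact Or.inr h
  refine ⟨nmc, ?_, ?_, ?_⟩
  · intro v v' h
    rcases hcases v with ⟨y, rfl⟩ | hv <;> rcases hcases v' with ⟨y', rfl⟩ | hv'
    · rw [hin, hin] at h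
      rw [Subtype.ext h]
    · rw [hin, hout v' hv'] at h
      exact absurd h.symm ((mem_filter.1 y.2).2 v')
    · rw [hin, hout v hv] at h
      exact absurd h ((mem_filter.1 y'.2).2 v)
    · rw [hout v hv, hout v' hv'] at h
      exact hb h
  · intro v
    rcases hcases v with ⟨y, rfl⟩ | hv
    · right
      rw [hin]
      exact ⟨(mem_filter.1 y.2).1, (mem_filter.1 (g y).2).2⟩
    · left
      exact hout v hv
  · intro y hy
    by_cases h : ∀ v, b v ≠ y
    · exact ⟨g ⟨y, mem_filter.2 ⟨hy, h⟩⟩, hin _⟩
    · push Not at h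
      obtain ⟨v, hv⟩ := h
      refine ⟨v, ?_⟩
      rw [hout v, hv]
      intro y' hy'
      have h1 := (mem_filter.1 (g y').2).2
      rw [hy', hv] at h1
      exact h1 hy

variable {a : R → V → S} {𝒩 : Finset S} {N : ℕ} {T : Fin N → V → R} {F : Finset (R × V)}
  {nm : R × V → S}

theorem card_cells_filter (ha : ∀ r, Function.Injective (a r)) (G : Finset R) (z : S) :
    ((cells (V := V) G).filter fun e => sm a e = z).card +
      (G.filter fun r => ∀ v, a r v ≠ z).card = G.card := by
  classical
  have h1 : ((cells (V := V) G).filter fun e => sm a e = z).card =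
      (G.filter fun r => ¬ ∀ v, a r v ≠ z).card := by
    refine card_bij (fun e _ => e.1) ?_ ?_ ?_
    · intro e he
      rw [mem_filter, mem_cells] at he
      rw [mem_filter]
      exact ⟨he.1, fun h => h e.2 he.2⟩
    · intro e he e' he' h
      rw [mem_filter] at he he'
      have h2 : a e.1 e.2 = a e'.1 e'.2 := he.2.trans he'.2.symm
      rw [← h] at h2
      exact Prod.ext h (ha _ h2)
    · intro r hr
      rw [mem_filter] at hr
      obtain ⟨h2, h3⟩ := hr
      push Not at h3
      obtain ⟨v, hv⟩ := h3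
      exact ⟨(r, v), mem_filter.2 ⟨mem_cells.2 h2, hv⟩, rfl⟩
  rw [h1, add_comm]
  exact card_filter_add_card_filter_not _

/-- The second phase. -/
theorem Sn.addRows (ha : ∀ r, Function.Injective (a r)) (hV : 0 < Fintype.card V)
    (hf : 𝒩.card ≤ Fintype.card V) {G : Finset R}
    (hK : ∀ z ∉ 𝒩, Fintype.card V * Fintype.card V ≤ (G.filter fun r => ∀ v, a r v ≠ z).card)
    {N : ℕ} {T : Fin N → V → R} {F : Finset (R × V)} {nm : R × V → S}
    (h : Sn a 𝒩 T F nm (Fintype.card V - 1) (cells G))
    (hN : Fintype.card V * Fintype.card V * (Fintype.card V - 1) < N)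
    (hNG : N + (Fintype.card V - 1) = G.card) (B : Finset R) (hB : Disjoint G B) :
    ∃ (N' : ℕ) (T' : Fin N' → V → R) (F' : Finset (R × V)) (nm' : R × V → S),
      N' = N + B.card ∧ Sn a 𝒩 T' F' nm' (Fintype.card V - 1) (cells (G ∪ B)) := by
  classical
  induction B using Finset.induction_on with
  | empty =>
    refine ⟨N, T, F, nm, by simp, ?_⟩
    rw [union_empty]
    exact h
  | @insert c B hcB ih =>
    rw [disjoint_insert_right] at hB
    obtain ⟨N', T', F', nm', h1, h2⟩ := ih hB.2
    obtain ⟨nmc, hn1, hn2, hn3⟩ := exists_names hf (ha c)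
    have hc : c ∉ G ∪ B := by
      rw [mem_union]
      exact fun h3 => h3.elim hB.1 hcB
    have hcard : (G ∪ B).card = G.card + B.card := card_union_of_disjoint hB.2
    obtain ⟨T'', F'', nm'', h3⟩ := h2.addRow hV hf hc hn1 hn2 hn3 (by
      intro z hz
      have h4 := card_cells_filter (V := V) ha (insert c (G ∪ B)) z
      have h5 : (G.filter fun r => ∀ v, a r v ≠ z).card ≤
          ((insert c (G ∪ B)).filter fun r => ∀ v, a r v ≠ z).card := by
        refine card_le_card (filter_subset_filter _ ?_)
        exact subset_union_left.trans (subset_insert _ _)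
      have h6 := hK z hz
      rw [card_insert_of_notMem hc, hcard] at h4
      obtain ⟨q, hq⟩ : ∃ q, Fintype.card V = q + 1 := ⟨Fintype.card V - 1, by omega⟩
      rw [hq] at h6 hNG ⊢
      have h7 : (q + 1) * (q + 1 - 1) + (q + 1) = (q + 1) * (q + 1) := by
        have : q + 1 - 1 = q := rfl
        rw [this]
        ring
      omega) (by omega)
    refine ⟨N' + 1, T'', F'', nm'', ?_, ?_⟩
    · rw [card_insert_of_notMem hcB]
      omega
    · rw [union_insert]
      exact h3

end Pool.Agent.Rl45
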